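import Pool.Agent.H92.Click.Coded

/-!
Certificates for the moves of Clickomania.
-/

set_option linter.unusedSectionVars false

namespace Pool.Agent.H92.Click

open Classical

/-- the relations that describe a move with its certificate -/
structure Dat (A : Type) where
  col : A → Prop
  row : A → Prop
  left : A → A → Prop
  below : A → A → Prop
  same : A → A → A → A → Prop
  le : A → A → Prop
  /-- deleted blocks before the move -/
  del : A → A → Prop
  /-- deleted blocks after the move -/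
  del' : A → A → Prop
  /-- heights before the move -/
  hgt : A → A → A → Prop
  /-- numbers of the columns before the move -/
  cn : A → A → Prop
  /-- an order of the deleted group -/
  ord : A → A → A → A → Prop

namespace Dat

variable {A : Type} (d : Dat A)

def inS (x y : A) : Prop := d.col x ∧ d.row y ∧ ¬ d.del x y
def inG (x y : A) : Prop := d.inS x y ∧ d.del' x y
def ne0 (x : A) : Prop := ∃ y, d.inS x y
def isMin (z : A) : Prop := ∀ w, d.le z w
def lt (z w : A) : Prop := d.le z w ∧ ¬ d.le w z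
def cov (z w : A) : Prop := d.lt z w ∧ ∀ u, ¬ (d.lt z u ∧ d.lt u w)
def predY (x y' y : A) : Prop :=
  d.inS x y' ∧ d.below y' y ∧ ∀ w, d.inS x w → ¬ (d.below y' w ∧ d.below w y)
def predX (x' x : A) : Prop :=
  d.ne0 x' ∧ d.left x' x ∧ ∀ w, d.ne0 w → ¬ (d.left x' w ∧ d.left w x)
def hRule (x y z : A) : Prop := ((∀ y', d.inS x y' → ¬ d.below y' y) ∧ d.isMin z) ∨
    ∃ y' z', d.predY x y' y ∧ d.hgt x y' z' ∧ d.cov z' z
def hOK : Prop := (∀ x y z, d.hgt x y z → d.inS x y ∧ d.hRule x y z) ∧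
  ∀ x y, d.inS x y → ∃ z, d.hgt x y z
def cRule (x z : A) : Prop := ((∀ x', d.ne0 x' → ¬ d.left x' x) ∧ d.isMin z) ∨
    ∃ x' z', d.predX x' x ∧ d.cn x' z' ∧ d.cov z' z
def cOK : Prop := (∀ x z, d.cn x z → d.ne0 x ∧ d.cRule x z) ∧
  ∀ x, d.ne0 x → ∃ z, d.cn x z
def adjD (x y x' y' : A) : Prop := d.inS x y ∧ d.inS x' y' ∧
  ∃ z z' w w', d.cn x z ∧ d.cn x' z' ∧ d.hgt x y w ∧ d.hgt x' y' w' ∧
    ((z = z' ∧ (d.cov w' w ∨ d.cov w w')) ∨ (w = w' ∧ (d.cov z' z ∨ d.cov z z')))
def lkD (x y x' y' : A) : Prop := d.adjD x y x' y' ∧ d.same x y x' y'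
def ordOK : Prop := (∀ x y, ¬ d.ord x y x y) ∧
  ∀ x y x' y' x'' y'', d.ord x y x' y' → d.ord x' y' x'' y'' → d.ord x y x'' y''
def subOK : Prop := ∀ x y, d.col x → d.row y → d.del x y → d.del' x y
def reach (x0 y0 : A) : Prop := ∀ x y, d.inG x y → (x = x0 ∧ y = y0) ∨
  ∃ x' y', d.inG x' y' ∧ d.ord x' y' x y ∧ d.lkD x' y' x y
def closed : Prop := ∀ x y x' y', d.inG x y → d.lkD x y x' y' → d.inG x' y'
def grpOK : Prop := ∃ x0 y0, d.inG x0 y0 ∧ d.reach x0 y0 ∧
  ∃ x y, d.inG x y ∧ ¬ (x = x0 ∧ y = y0)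
def linOK (V : A → Prop) (r : A → A → Prop) : Prop := (∀ a, V a → ¬ r a a) ∧
  (∀ a, V a → ∀ b, V b → ∀ c, V c → r a b → r b c → r a c) ∧
    ∀ a, V a → ∀ b, V b → r a b ∨ a = b ∨ r b a
def blk (x y : A) : Prop := d.col x ∧ d.row y
def sameOK : Prop := (∀ x y, d.blk x y → d.same x y x y) ∧
  (∀ x y, d.blk x y → ∀ x' y', d.blk x' y' → d.same x y x' y' → d.same x' y' x y) ∧
  ∀ x y, d.blk x y → ∀ x' y', d.blk x' y' → ∀ x'' y'', d.blk x'' y'' →
    d.same x y x' y' → d.same x' y' x'' y'' → d.same x y x'' y''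
def posOK : Prop := linOK d.col d.left ∧ linOK d.row d.below ∧ d.sameOK
/-- the move is correct -/
def step : Prop := d.posOK ∧ d.subOK ∧ d.hOK ∧ d.cOK ∧ d.ordOK ∧ d.closed ∧ d.grpOK

end Dat

/-! relative ranks -/

section rel

variable {A : Type} [Finite A] {V : A → Prop} {r : A → A → Prop} (h : Dat.linOK V r)
include h

theorem rel_rank_lt {x y : A} (hx : V x) (hy : V y) (U : A → Prop) (hU : ∀ a, U a → V a)
    (hxU : U x) (hr : r x y) :
    {z | r z x ∧ U z}.ncard < {z | r z y ∧ U z}.ncard := by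
  refine Set.ncard_lt_ncard ⟨fun z hz => ⟨h.2.1 _ (hU _ hz.2) _ hx _ hy hz.1 hr, hz.2⟩,
    fun hsub => ?_⟩ (Set.toFinite _)
  exact h.1 x hx (hsub (show x ∈ {z | r z y ∧ U z} from ⟨hr, hxU⟩)).1

theorem rel_rank_succ {x y : A} (hx : V x) (hy : V y) (U : A → Prop) (hU : ∀ a, U a → V a)
    (hxU : U x) (hr : r x y) (hg : ∀ z, U z → ¬ (r x z ∧ r z y)) :
    {z | r z y ∧ U z}.ncard = {z | r z x ∧ U z}.ncard + 1 := by
  have : {z | r z y ∧ U z} = insert x {z | r z x ∧ U z} := by
    ext z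
    constructor
    · rintro ⟨h1, h2⟩
      rcases h.2.2 x hx z (hU z h2) with h3 | h3 | h3
      · exact absurd ⟨h3, h1⟩ (hg z h2)
      · exact Or.inl h3.symm
      · exact Or.inr ⟨h3, h2⟩
    · rintro (rfl | ⟨h1, h2⟩)
      · exact ⟨hr, hxU⟩
      · exact ⟨h.2.1 _ (hU _ h2) _ hx _ hy h1 hr, h2⟩
  rw [this, Set.ncard_insert_of_notMem _ (Set.toFinite _)]
  exact fun hh => h.1 x hx hh.1

theorem rel_exists_pred {y : A} (hy : V y) (U : A → Prop) (hU : ∀ a, U a → V a)
    (hex : ∃ x, U x ∧ r x y) : ∃ x, U x ∧ r x y ∧ ∀ z, U z → ¬ (r x z ∧ r z y) := by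
  obtain ⟨x0, hx0⟩ := hex
  obtain ⟨x, ⟨hx, hx'⟩, hmax⟩ := Set.exists_max_image {x | U x ∧ r x y}
    (fun x => {z | r z x ∧ U z}.ncard) (Set.toFinite _) ⟨x0, hx0⟩
  refine ⟨x, hx, hx', fun z hz ⟨h1, h2⟩ => ?_⟩
  exact absurd (hmax z ⟨hz, h2⟩) (not_le.2 (rel_rank_lt h (hU _ hx) (hU _ hz) U hU hx h1))

end rel

/-! numbers as elements of a linear order -/

section num

variable {A : Type} [LinearOrder A] [Fintype A]

/-- the number of smaller elements -/
noncomputable def nz (z : A) : ℕ := SLO.rank (fun a b : A => a < b) Set.univ z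

theorem slo_lt' : SLO (fun a b : A => a < b) :=
  ⟨fun x => lt_irrefl x, fun _ _ _ h h' => h.trans h', fun x y => lt_trichotomy x y⟩

theorem nz_cov {z w : A} : (z < w ∧ ∀ u, ¬ (z < u ∧ u < w)) ↔ nz w = nz z + 1 := by
  have hs := slo_lt' (A := A)
  constructor
  · rintro ⟨h1, h2⟩
    exact hs.rank_succ Set.univ trivial h1 fun u _ => h2 u
  · intro h
    have h1 : z < w := (hs.rank_lt_iff z w).2 (by
      change nz z < nz w
      omega)
    refine ⟨h1, fun u ⟨h2, h3⟩ => ?_⟩
    have h4 : nz z < nz u := (hs.rank_lt_iff z u).1 h2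
    have h5 : nz u < nz w := (hs.rank_lt_iff u w).1 h3
    omega

theorem nz_min {z : A} : (∀ w, z ≤ w) ↔ nz z = 0 := by
  have hs := slo_lt' (A := A)
  constructor
  · intro h
    unfold nz SLO.rank
    rw [Set.ncard_eq_zero (Set.toFinite _)]
    ext w
    simp only [Set.mem_univ, true_and, Set.mem_empty_iff_false, iff_false]
    change ¬ (w < z)
    exact not_lt.2 (h w)
  · intro h w
    by_contra hcon
    have : nz w < nz z := (hs.rank_lt_iff w z).1 (not_le.1 hcon)
    omega

theorem nz_inj {z w : A} (h : nz z = nz w) : z = w := (slo_lt' (A := A)).rank_injective h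

theorem nz_surj {n : ℕ} (hn : n < Fintype.card A) : ∃ z : A, nz z = n :=
  (slo_lt' (A := A)).rank_surj hn

end num

/-! soundness and completeness -/

section sound

variable {A : Type} [LinearOrder A] [Fintype A] (d : Dat A)

/-- the board -/
def Dat.board : Board A A where
  left := d.left
  below := d.below
  same b b' := d.same b.1 b.2 b'.1 b'.2

/-- the blocks before the move -/
def Dat.S : Set (A × A) := {b | d.inS b.1 b.2}

/-- the blocks after the move -/
def Dat.S' : Set (A × A) := {b | d.col b.1 ∧ d.row b.2 ∧ ¬ d.del' b.1 b.2}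

variable {d} (hle : ∀ a b, d.le a b ↔ a ≤ b)
include hle

theorem cov_iff {z w : A} : d.cov z w ↔ nz w = nz z + 1 := by
  rw [← nz_cov]
  unfold Dat.cov Dat.lt
  simp only [hle, lt_iff_le_not_ge]

theorem isMin_iff {z : A} : d.isMin z ↔ nz z = 0 := by
  rw [← nz_min]
  unfold Dat.isMin
  simp only [hle]

theorem height_cert (hp : d.posOK) (hh : d.hOK) {x y z : A} (h : d.hgt x y z) :
    nz z = d.board.height d.S (x, y) := by
  have hrow : ∀ x a, d.inS x a → d.row a := fun x a h => h.2.1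
  have key : ∀ n y z, d.board.height d.S (x, y) = n → d.hgt x y z → nz z = n := by
    intro n
    induction n using Nat.strong_induction_on with
    | _ n ih =>
      intro y z hn hz
      obtain ⟨h1, h2⟩ := hh.1 x y z hz
      rcases h2 with ⟨h2, h3⟩ | ⟨y', z', h2, h3, h4⟩
      · rw [isMin_iff hle] at h3
        rw [h3, ← hn]
        symm
        unfold Board.height
        rw [Set.ncard_eq_zero (Set.toFinite _)]
        ext y'
        simp only [Set.mem_empty_iff_false, iff_false]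
        exact fun hy => h2 y' hy.2 hy.1
      · rw [cov_iff hle] at h4
        have h5 : d.board.height d.S (x, y) = d.board.height d.S (x, y') + 1 :=
          rel_rank_succ hp.2.1 h2.1.2.1 h1.2.1 (fun a => d.inS x a) (hrow x) h2.1 h2.2.1
            h2.2.2
        rw [h4, ih _ (by omega) y' z' rfl h3]
        omega
  exact key _ y z rfl h

theorem colNo_cert (hp : d.posOK) (hc : d.cOK) {x y z : A} (h : d.cn x z) :
    nz z = d.board.colNo d.S (x, y) := by
  have hcol : ∀ a, d.ne0 a → d.col a := fun a h => h.choose_spec.1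
  have key : ∀ n x z, d.board.colNo d.S (x, y) = n → d.cn x z → nz z = n := by
    intro n
    induction n using Nat.strong_induction_on with
    | _ n ih =>
      intro x z hn hz
      obtain ⟨h1, h2⟩ := hc.1 x z hz
      rcases h2 with ⟨h2, h3⟩ | ⟨x', z', h2, h3, h4⟩
      · rw [isMin_iff hle] at h3
        rw [h3, ← hn]
        symm
        unfold Board.colNo
        rw [Set.ncard_eq_zero (Set.toFinite _)]
        ext x'
        simp only [Set.mem_empty_iff_false, iff_false]
        exact fun hy => h2 x' hy.2 hy.1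
      · rw [cov_iff hle] at h4
        have h5 : d.board.colNo d.S (x, y) = d.board.colNo d.S (x', y) + 1 :=
          rel_rank_succ hp.1 (hcol _ h2.1) (hcol _ h1) (fun a => d.ne0 a) hcol h2.1 h2.2.1
            h2.2.2
        rw [h4, ih _ (by omega) x' z' rfl h3]
        omega
  exact key _ x z rfl h

theorem adj_cert (hp : d.posOK) (hh : d.hOK) (hc : d.cOK) (x y x' y' : A) :
    d.adjD x y x' y' ↔ d.board.Adj d.S (x, y) (x', y') := by
  constructor
  · rintro ⟨h1, h2, z, z', w, w', h3, h4, h5, h6, h7⟩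
    refine ⟨h1, h2, ?_⟩
    rw [← colNo_cert hle hp hc h3, ← colNo_cert hle hp hc h4, ← height_cert hle hp hh h5,
      ← height_cert hle hp hh h6]
    rcases h7 with ⟨rfl, h7⟩ | ⟨rfl, h7⟩
    · rw [cov_iff hle, cov_iff hle] at h7
      exact Or.inl ⟨rfl, h7⟩
    · rw [cov_iff hle, cov_iff hle] at h7
      exact Or.inr ⟨rfl, h7⟩
  · rintro ⟨h1, h2, h3⟩
    obtain ⟨z, hz⟩ := hc.2 x ⟨y, h1⟩
    obtain ⟨z', hz'⟩ := hc.2 x' ⟨y', h2⟩
    obtain ⟨w, hw⟩ := hh.2 x y h1
    obtain ⟨w', hw'⟩ := hh.2 x' y' h2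
    refine ⟨h1, h2, z, z', w, w', hz, hz', hw, hw', ?_⟩
    rw [← colNo_cert hle hp hc hz, ← colNo_cert hle hp hc hz', ← height_cert hle hp hh hw,
      ← height_cert hle hp hh hw'] at h3
    rw [cov_iff hle, cov_iff hle, cov_iff hle, cov_iff hle]
    rcases h3 with ⟨h3, h4⟩ | ⟨h3, h4⟩
    · exact Or.inl ⟨nz_inj h3, h4⟩
    · exact Or.inr ⟨nz_inj h3, h4⟩

/-- a certified move is a move -/
theorem step_sound (h : d.step) : d.board.Move d.S d.S' := by
  obtain ⟨hp, hsub, hh, hc, ho, hcl, x0, y0, hg0, hreach, x1, y1, hg1, hne1⟩ := h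
  have hadj := adj_cert hle hp hh hc
  have hlk : ∀ x y x' y', d.lkD x y x' y' ↔
      (d.board.Adj d.S (x, y) (x', y') ∧ d.board.same (x, y) (x', y')) := by
    intro x y x' y'
    unfold Dat.lkD
    rw [hadj]
    exact Iff.rfl
  have hgrp : d.board.group d.S (x0, y0) = {b | d.inG b.1 b.2} := by
    ext ⟨x, y⟩
    constructor
    · have key0 : ∀ b : A × A,
          Relation.ReflTransGen (fun c c' => d.board.Adj d.S c c' ∧ d.board.same c c')
            (x0, y0) b → d.inG b.1 b.2 := by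
        intro b hr
        induction hr with
        | refl => exact hg0
        | @tail c c' _ hl ih => exact hcl _ _ _ _ ih ((hlk _ _ _ _).2 hl)
      exact fun hr => key0 (x, y) hr
    · intro hg
      -- well-founded induction along `ord`
      have hwf : WellFounded (fun b b' : A × A => d.ord b.1 b.2 b'.1 b'.2) := by
        have : IsTrans (A × A) (fun b b' : A × A => d.ord b.1 b.2 b'.1 b'.2) :=
          ⟨fun a b c h h' => ho.2 _ _ _ _ _ _ h h'⟩
        have : Std.Irrefl (fun b b' : A × A => d.ord b.1 b.2 b'.1 b'.2) :=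
          ⟨fun a h => ho.1 _ _ h⟩
        exact Finite.wellFounded_of_trans_of_irrefl _
      have key : ∀ b : A × A, d.inG b.1 b.2 →
          Relation.ReflTransGen (fun c c' => d.board.Adj d.S c c' ∧ d.board.same c c')
            (x0, y0) b := by
        intro b
        induction b using hwf.induction with
        | _ b ih =>
          intro hb
          rcases hreach _ _ hb with ⟨h1, h2⟩ | ⟨x', y', h1, h2, h3⟩
          · have : b = (x0, y0) := Prod.ext h1 h2
            rw [this]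
          · exact (ih (x', y') h2 h1).tail ((hlk _ _ _ _).1 h3)
      exact key (x, y) hg
  refine ⟨(x0, y0), hg0.1, ?_, ?_⟩
  · rw [hgrp]
    refine ⟨(x0, y0), hg0, (x1, y1), hg1, fun hcon => ?_⟩
    simp only [Prod.mk.injEq] at hcon
    exact hne1 ⟨hcon.1.symm, hcon.2.symm⟩
  · rw [hgrp]
    ext ⟨x, y⟩
    constructor
    · rintro ⟨h1, h2, h3⟩
      exact ⟨⟨h1, h2, fun h4 => h3 (hsub _ _ h1 h2 h4)⟩, fun h4 => h3 h4.2⟩
    · rintro ⟨h1, h2⟩
      exact ⟨h1.1, h1.2.1, fun h3 => h2 ⟨h1, h3⟩⟩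

end sound

end Pool.Agent.H92.Click
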