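import Pool.Agent.H92.Click.Cert

/-!
Every move has a certificate.
-/

set_option linter.unusedSectionVars false

namespace Pool.Agent.H92.Click

open Classical

section dist

variable {B : Type} (R : B → B → Prop) (b0 : B)

/-- reachable in `n` steps -/
def ReachN : ℕ → B → Prop
  | 0, b => b = b0
  | n + 1, b => ∃ c, ReachN n c ∧ R c b

theorem reachN_of {b : B} (h : Relation.ReflTransGen R b0 b) : ∃ n, ReachN R b0 n b := by
  induction h with
  | refl => exact ⟨0, rfl⟩
  | @tail c d _ h ih =>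
    obtain ⟨n, hn⟩ := ih
    exact ⟨n + 1, c, hn, h⟩

theorem of_reachN {n : ℕ} {b : B} (h : ReachN R b0 n b) : Relation.ReflTransGen R b0 b := by
  induction n generalizing b with
  | zero =>
    have : b = b0 := h
    rw [this]
  | succ n ih =>
    obtain ⟨c, hc, hcb⟩ := h
    exact (ih hc).tail hcb

/-- the distance -/
noncomputable def distN (b : B) : ℕ := sInf {n | ReachN R b0 n b}

theorem exists_closer {b : B} (h : Relation.ReflTransGen R b0 b) (hne : b ≠ b0) :
    ∃ c, Relation.ReflTransGen R b0 c ∧ R c b ∧ distN R b0 c < distN R b0 b := by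
  have h1 : ReachN R b0 (distN R b0 b) b := Nat.sInf_mem (s := {n | ReachN R b0 n b})
    (reachN_of R b0 h)
  rcases hd : distN R b0 b with _ | n
  · rw [hd] at h1
    exact absurd h1 hne
  · rw [hd] at h1
    obtain ⟨c, hc, hcb⟩ := h1
    refine ⟨c, of_reachN R b0 hc, hcb, ?_⟩
    have : distN R b0 c ≤ n := Nat.sInf_le hc
    omega

end dist

section complete

variable {A : Type} [LinearOrder A] [Fintype A] (d : Dat A)
  (hle : ∀ a b, d.le a b ↔ a ≤ b)
include hle

theorem height_lt_card (hp : d.posOK) {x y : A} (h : d.inS x y) :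
    d.board.height d.S (x, y) < Fintype.card A := by
  unfold Board.height
  rw [← Nat.card_eq_fintype_card, ← Set.ncard_univ]
  refine Set.ncard_lt_ncard ⟨Set.subset_univ _, fun hsub => ?_⟩ (Set.toFinite _)
  exact hp.2.1.1 y h.2.1 (hsub (Set.mem_univ y)).1

theorem colNo_lt_card (hp : d.posOK) {x y : A} (h : d.col x) :
    d.board.colNo d.S (x, y) < Fintype.card A := by
  unfold Board.colNo
  rw [← Nat.card_eq_fintype_card, ← Set.ncard_univ]
  refine Set.ncard_lt_ncard ⟨Set.subset_univ _, fun hsub => ?_⟩ (Set.toFinite _)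
  exact hp.1.1 x h (hsub (Set.mem_univ x)).1

theorem hOK_complete (hp : d.posOK)
    (hd : ∀ x y z, d.hgt x y z ↔ d.inS x y ∧ nz z = d.board.height d.S (x, y)) : d.hOK := by
  have hrow : ∀ x a, d.inS x a → d.row a := fun x a h => h.2.1
  have ex : ∀ x y, d.inS x y → ∃ z, d.hgt x y z := by
    intro x y h
    obtain ⟨z, hz⟩ := nz_surj (A := A) (height_lt_card d hle hp h)
    exact ⟨z, (hd _ _ _).2 ⟨h, hz⟩⟩
  refine ⟨fun x y z hz => ?_, ex⟩
  obtain ⟨h1, h2⟩ := (hd _ _ _).1 hz
  refine ⟨h1, ?_⟩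
  by_cases hex : ∃ y', d.inS x y' ∧ d.below y' y
  · right
    obtain ⟨y', h3, h4, h5⟩ := rel_exists_pred hp.2.1 h1.2.1 (fun a => d.inS x a) (hrow x) hex
    obtain ⟨z', hz'⟩ := ex x y' h3
    refine ⟨y', z', ⟨h3, h4, h5⟩, hz', ?_⟩
    rw [cov_iff hle, h2, ((hd _ _ _).1 hz').2]
    exact rel_rank_succ hp.2.1 h3.2.1 h1.2.1 (fun a => d.inS x a) (hrow x) h3 h4 h5
  · left
    refine ⟨fun y' h3 h4 => hex ⟨y', h3, h4⟩, ?_⟩
    rw [isMin_iff hle, h2]
    unfold Board.height
    rw [Set.ncard_eq_zero (Set.toFinite _)]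
    ext y'
    simp only [Set.mem_empty_iff_false, iff_false]
    exact fun hy => hex ⟨y', hy.2, hy.1⟩

theorem cOK_complete (hp : d.posOK)
    (hd : ∀ x z, d.cn x z ↔ d.ne0 x ∧ nz z = d.board.colNo d.S (x, x)) : d.cOK := by
  have hcol : ∀ a, d.ne0 a → d.col a := fun a h => h.choose_spec.1
  have ex : ∀ x, d.ne0 x → ∃ z, d.cn x z := by
    intro x h
    obtain ⟨z, hz⟩ := nz_surj (A := A) (colNo_lt_card d hle hp (y := x) (hcol x h))
    exact ⟨z, (hd _ _).2 ⟨h, hz⟩⟩
  refine ⟨fun x z hz => ?_, ex⟩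
  obtain ⟨h1, h2⟩ := (hd _ _).1 hz
  refine ⟨h1, ?_⟩
  by_cases hex : ∃ x', d.ne0 x' ∧ d.left x' x
  · right
    obtain ⟨x', h3, h4, h5⟩ := rel_exists_pred hp.1 (hcol x h1) (fun a => d.ne0 a) hcol hex
    obtain ⟨z', hz'⟩ := ex x' h3
    refine ⟨x', z', ⟨h3, h4, h5⟩, hz', ?_⟩
    rw [cov_iff hle, h2, ((hd _ _).1 hz').2]
    exact rel_rank_succ hp.1 (hcol _ h3) (hcol _ h1) (fun a => d.ne0 a) hcol h3 h4 h5
  · left
    refine ⟨fun x' h3 h4 => hex ⟨x', h3, h4⟩, ?_⟩
    rw [isMin_iff hle, h2]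
    unfold Board.colNo
    rw [Set.ncard_eq_zero (Set.toFinite _)]
    ext x'
    simp only [Set.mem_empty_iff_false, iff_false]
    exact fun hy => hex ⟨x', hy.2, hy.1⟩

/-- every move has a certificate -/
theorem step_complete (hp : d.posOK) {T : Set (A × A)} (hm : d.board.Move d.S T) :
    ∃ (del' : A → A → Prop) (hgt : A → A → A → Prop) (cn : A → A → Prop)
      (ord : A → A → A → A → Prop),
      ({ d with del' := del', hgt := hgt, cn := cn, ord := ord } : Dat A).step ∧
        ({ d with del' := del', hgt := hgt, cn := cn, ord := ord } : Dat A).S' = T := by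
  obtain ⟨b0, hb0, hnt, hT⟩ := hm
  set G := d.board.group d.S b0 with hG
  have hGS : G ⊆ d.S := Board.group_subset hb0
  set R : A × A → A × A → Prop := fun c c' => d.board.Adj d.S c c' ∧ d.board.same c c' with hR
  refine ⟨fun x y => (x, y) ∉ T, fun x y z => d.inS x y ∧ nz z = d.board.height d.S (x, y),
    fun x z => d.ne0 x ∧ nz z = d.board.colNo d.S (x, x),
    fun x y x' y' => distN R b0 (x, y) < distN R b0 (x', y'), ?_, ?_⟩
  · set d' : Dat A := { d with
      del' := fun x y => (x, y) ∉ T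
      hgt := fun x y z => d.inS x y ∧ nz z = d.board.height d.S (x, y)
      cn := fun x z => d.ne0 x ∧ nz z = d.board.colNo d.S (x, x)
      ord := fun x y x' y' => distN R b0 (x, y) < distN R b0 (x', y') } with hd'
    have hle' : ∀ a b, d'.le a b ↔ a ≤ b := hle
    have hp' : d'.posOK := hp
    have hh : d'.hOK := hOK_complete d' hle' hp' fun x y z => Iff.rfl
    have hc : d'.cOK := cOK_complete d' hle' hp' fun x z => Iff.rfl
    have hadj := adj_cert hle' hp' hh hc
    have hlk : ∀ x y x' y', d'.lkD x y x' y' ↔ R (x, y) (x', y') := by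
      intro x y x' y'
      unfold Dat.lkD
      rw [hadj]
      exact Iff.rfl
    have hinG : ∀ x y, d'.inG x y ↔ (x, y) ∈ G := by
      intro x y
      constructor
      · rintro ⟨h1, h2⟩
        by_contra h3
        exact h2 (by rw [hT]; exact ⟨h1, h3⟩)
      · intro h1
        refine ⟨hGS h1, fun h2 => ?_⟩
        rw [hT] at h2
        exact h2.2 h1
    refine ⟨hp', ?_, hh, hc, ⟨fun x y => lt_irrefl _, fun _ _ _ _ _ _ h h' => lt_trans h h'⟩,
      ?_, ?_⟩
    · intro x y _ _ h3 h4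
      have h5 : (x, y) ∈ d.S := by
        rw [hT] at h4
        exact h4.1
      exact h5.2.2 h3
    · intro x y x' y' h1 h2
      rw [hinG] at h1 ⊢
      rw [hlk] at h2
      exact Relation.ReflTransGen.tail h1 h2
    · refine ⟨b0.1, b0.2, (hinG _ _).2 Relation.ReflTransGen.refl, ?_, ?_⟩
      · intro x y hxy
        rw [hinG] at hxy
        by_cases hne : (x, y) = b0
        · left
          rw [← hne]
          exact ⟨rfl, rfl⟩
        · right
          obtain ⟨⟨x', y'⟩, h1, h2, h3⟩ := exists_closer R b0 hxy hne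
          exact ⟨x', y', (hinG _ _).2 h1, h3, (hlk _ _ _ _).2 h2⟩
      · obtain ⟨⟨x, y⟩, hxy, hne⟩ := hnt.exists_ne b0
        refine ⟨x, y, (hinG _ _).2 hxy, fun h => hne ?_⟩
        exact Prod.ext h.1 h.2
  · ext ⟨x, y⟩
    constructor
    · rintro ⟨_, _, h3⟩
      exact not_not.1 h3
    · intro h
      have h5 : (x, y) ∈ d.S := by
        rw [hT] at h
        exact h.1
      exact ⟨h5.1, h5.2.1, not_not.2 h⟩

end complete

end Pool.Agent.H92.Click
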