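import Pool.Agent.H92.Click.Cert2
import Pool.Agent.H92.Desc.UDef

/-!
The certified moves are first-order definable.
-/

set_option linter.unusedSectionVars false

namespace Pool.Agent.H92.Desc.UDef

open FirstOrder FirstOrder.Language

variable {L : FirstOrder.Language.{0, 0}} {𝒞 : Cls L} {α : Type}

theorem ex2 {P : ∀ c, (α → 𝒞.car c) → 𝒞.car c → 𝒞.car c → Prop}
    (h : UDef 𝒞 (fun c (u : α ⊕ Fin 2 → 𝒞.car c) => P c (u ∘ Sum.inl) (u (Sum.inr 0))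
      (u (Sum.inr 1)))) :
    UDef 𝒞 (fun c v => ∃ x y, P c v x y) := by
  refine (ex (β := Fin 2) (P := fun c v w => P c v (w 0) (w 1)) h).congr fun c v => ?_
  exact ⟨fun ⟨w, h⟩ => ⟨_, _, h⟩, fun ⟨x, y, h⟩ => ⟨![x, y], h⟩⟩

theorem ex4 {P : ∀ c, (α → 𝒞.car c) → 𝒞.car c → 𝒞.car c → 𝒞.car c → 𝒞.car c → Prop}
    (h : UDef 𝒞 (fun c (u : α ⊕ Fin 4 → 𝒞.car c) => P c (u ∘ Sum.inl) (u (Sum.inr 0))
      (u (Sum.inr 1)) (u (Sum.inr 2)) (u (Sum.inr 3)))) :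
    UDef 𝒞 (fun c v => ∃ x y z w, P c v x y z w) := by
  refine (ex (β := Fin 4) (P := fun c v w => P c v (w 0) (w 1) (w 2) (w 3)) h).congr
    fun c v => ?_
  exact ⟨fun ⟨w, h⟩ => ⟨_, _, _, _, h⟩, fun ⟨x, y, z, w, h⟩ => ⟨![x, y, z, w], h⟩⟩

theorem all2 {P : ∀ c, (α → 𝒞.car c) → 𝒞.car c → 𝒞.car c → Prop}
    (h : UDef 𝒞 (fun c (u : α ⊕ Fin 2 → 𝒞.car c) => P c (u ∘ Sum.inl) (u (Sum.inr 0))
      (u (Sum.inr 1)))) :
    UDef 𝒞 (fun c v => ∀ x y, P c v x y) := by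
  refine (all (β := Fin 2) (P := fun c v w => P c v (w 0) (w 1)) h).congr fun c v => ?_
  exact ⟨fun h x y => h ![x, y], fun h w => h _ _⟩

theorem all3 {P : ∀ c, (α → 𝒞.car c) → 𝒞.car c → 𝒞.car c → 𝒞.car c → Prop}
    (h : UDef 𝒞 (fun c (u : α ⊕ Fin 3 → 𝒞.car c) => P c (u ∘ Sum.inl) (u (Sum.inr 0))
      (u (Sum.inr 1)) (u (Sum.inr 2)))) :
    UDef 𝒞 (fun c v => ∀ x y z, P c v x y z) := by
  refine (all (β := Fin 3) (P := fun c v w => P c v (w 0) (w 1) (w 2)) h).congr fun c v => ?_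
  exact ⟨fun h x y z => h ![x, y, z], fun h w => h _ _ _⟩

theorem all4 {P : ∀ c, (α → 𝒞.car c) → 𝒞.car c → 𝒞.car c → 𝒞.car c → 𝒞.car c → Prop}
    (h : UDef 𝒞 (fun c (u : α ⊕ Fin 4 → 𝒞.car c) => P c (u ∘ Sum.inl) (u (Sum.inr 0))
      (u (Sum.inr 1)) (u (Sum.inr 2)) (u (Sum.inr 3)))) :
    UDef 𝒞 (fun c v => ∀ x y z w, P c v x y z w) := by
  refine (all (β := Fin 4) (P := fun c v w => P c v (w 0) (w 1) (w 2) (w 3)) h).congr
    fun c v => ?_
  exact ⟨fun h x y z w => h ![x, y, z, w], fun h w => h _ _ _ _⟩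

theorem all6 {P : ∀ c, (α → 𝒞.car c) → 𝒞.car c → 𝒞.car c → 𝒞.car c → 𝒞.car c → 𝒞.car c →
      𝒞.car c → Prop}
    (h : UDef 𝒞 (fun c (u : α ⊕ Fin 6 → 𝒞.car c) => P c (u ∘ Sum.inl) (u (Sum.inr 0))
      (u (Sum.inr 1)) (u (Sum.inr 2)) (u (Sum.inr 3)) (u (Sum.inr 4)) (u (Sum.inr 5)))) :
    UDef 𝒞 (fun c v => ∀ x y z x' y' z', P c v x y z x' y' z') := by
  refine (all (β := Fin 6) (P := fun c v w => P c v (w 0) (w 1) (w 2) (w 3) (w 4) (w 5))
    h).congr fun c v => ?_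
  exact ⟨fun h x y z x' y' z' => h ![x, y, z, x', y', z'], fun h w => h _ _ _ _ _ _⟩

end Pool.Agent.H92.Desc.UDef

namespace Pool.Agent.H92.Click

open FirstOrder FirstOrder.Language Desc

/-- the data of a definable move -/
structure DatDef {L : FirstOrder.Language.{0, 0}} (𝒞 : Cls L) (D : ∀ c, Dat (𝒞.car c)) :
    Prop where
  col : ∀ {α : Type} (a : α), UDef 𝒞 (fun c v => (D c).col (v a))
  row : ∀ {α : Type} (a : α), UDef 𝒞 (fun c v => (D c).row (v a))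
  left : ∀ {α : Type} (a b : α), UDef 𝒞 (fun c v => (D c).left (v a) (v b))
  below : ∀ {α : Type} (a b : α), UDef 𝒞 (fun c v => (D c).below (v a) (v b))
  le : ∀ {α : Type} (a b : α), UDef 𝒞 (fun c v => (D c).le (v a) (v b))
  del : ∀ {α : Type} (a b : α), UDef 𝒞 (fun c v => (D c).del (v a) (v b))
  del' : ∀ {α : Type} (a b : α), UDef 𝒞 (fun c v => (D c).del' (v a) (v b))
  cn : ∀ {α : Type} (a b : α), UDef 𝒞 (fun c v => (D c).cn (v a) (v b))
  hgt : ∀ {α : Type} (a b e : α), UDef 𝒞 (fun c v => (D c).hgt (v a) (v b) (v e))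
  same : ∀ {α : Type} (a b e f : α), UDef 𝒞 (fun c v => (D c).same (v a) (v b) (v e) (v f))
  ord : ∀ {α : Type} (a b e f : α), UDef 𝒞 (fun c v => (D c).ord (v a) (v b) (v e) (v f))

namespace DatDef

variable {L : FirstOrder.Language.{0, 0}} {𝒞 : Cls L} {D : ∀ c, Dat (𝒞.car c)}
  (h : DatDef 𝒞 D) {α : Type}
include h

theorem inS (a b : α) : UDef 𝒞 (fun c v => (D c).inS (v a) (v b)) :=
  (h.col a).and ((h.row b).and (h.del a b).not)

theorem inG (a b : α) : UDef 𝒞 (fun c v => (D c).inG (v a) (v b)) :=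
  (h.inS a b).and (h.del' a b)

theorem ne0 (a : α) : UDef 𝒞 (fun c v => (D c).ne0 (v a)) :=
  UDef.ex1 (P := fun c v y => (D c).inS (v a) y) (h.inS (Sum.inl a) (Sum.inr ()))

theorem isMin (a : α) : UDef 𝒞 (fun c v => (D c).isMin (v a)) :=
  UDef.all1 (P := fun c v y => (D c).le (v a) y) (h.le (Sum.inl a) (Sum.inr ()))

theorem lt (a b : α) : UDef 𝒞 (fun c v => (D c).lt (v a) (v b)) :=
  (h.le a b).and (h.le b a).not

theorem cov (a b : α) : UDef 𝒞 (fun c v => (D c).cov (v a) (v b)) :=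
  (h.lt a b).and (UDef.all1 (P := fun c v u => ¬ ((D c).lt (v a) u ∧ (D c).lt u (v b)))
    ((h.lt (Sum.inl a) (Sum.inr ())).and (h.lt (Sum.inr ()) (Sum.inl b))).not)

theorem predY (a b e : α) : UDef 𝒞 (fun c v => (D c).predY (v a) (v b) (v e)) :=
  (h.inS a b).and ((h.below b e).and
    (UDef.all1 (P := fun c v w => (D c).inS (v a) w → ¬ ((D c).below (v b) w ∧
        (D c).below w (v e)))
      ((h.inS (Sum.inl a) (Sum.inr ())).imp
        ((h.below (Sum.inl b) (Sum.inr ())).and (h.below (Sum.inr ()) (Sum.inl e))).not)))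

theorem predX (a b : α) : UDef 𝒞 (fun c v => (D c).predX (v a) (v b)) :=
  (h.ne0 a).and ((h.left a b).and
    (UDef.all1 (P := fun c v w => (D c).ne0 w → ¬ ((D c).left (v a) w ∧
        (D c).left w (v b)))
      ((h.ne0 (Sum.inr ())).imp
        ((h.left (Sum.inl a) (Sum.inr ())).and (h.left (Sum.inr ()) (Sum.inl b))).not)))

theorem hRule (a b e : α) : UDef 𝒞 (fun c v => (D c).hRule (v a) (v b) (v e)) :=
  ((UDef.all1 (P := fun c v y' => (D c).inS (v a) y' → ¬ (D c).below y' (v b))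
      ((h.inS (Sum.inl a) (Sum.inr ())).imp (h.below (Sum.inr ()) (Sum.inl b)).not)).and
    (h.isMin e)).or
  (UDef.ex2 (P := fun c v y' z' => (D c).predY (v a) y' (v b) ∧ (D c).hgt (v a) y' z' ∧
      (D c).cov z' (v e))
    ((h.predY (Sum.inl a) (Sum.inr 0) (Sum.inl b)).and
      ((h.hgt (Sum.inl a) (Sum.inr 0) (Sum.inr 1)).and (h.cov (Sum.inr 1) (Sum.inl e)))))

theorem cRule (a e : α) : UDef 𝒞 (fun c v => (D c).cRule (v a) (v e)) :=
  ((UDef.all1 (P := fun c v x' => (D c).ne0 x' → ¬ (D c).left x' (v a))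
      ((h.ne0 (Sum.inr ())).imp (h.left (Sum.inr ()) (Sum.inl a)).not)).and
    (h.isMin e)).or
  (UDef.ex2 (P := fun c v x' z' => (D c).predX x' (v a) ∧ (D c).cn x' z' ∧
      (D c).cov z' (v e))
    ((h.predX (Sum.inr 0) (Sum.inl a)).and
      ((h.cn (Sum.inr 0) (Sum.inr 1)).and (h.cov (Sum.inr 1) (Sum.inl e)))))

theorem hOK : UDef 𝒞 (fun c (_ : α → 𝒞.car c) => (D c).hOK) :=
  (UDef.all3 (P := fun c _ x y z => (D c).hgt x y z → (D c).inS x y ∧ (D c).hRule x y z)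
    ((h.hgt (Sum.inr 0) (Sum.inr 1) (Sum.inr 2)).imp
      ((h.inS (Sum.inr 0) (Sum.inr 1)).and
        (h.hRule (Sum.inr 0) (Sum.inr 1) (Sum.inr 2))))).and
  (UDef.all2 (P := fun c _ x y => (D c).inS x y → ∃ z, (D c).hgt x y z)
    ((h.inS (Sum.inr 0) (Sum.inr 1)).imp
      (UDef.ex1 (P := fun c u z => (D c).hgt (u (Sum.inr 0)) (u (Sum.inr 1)) z)
        (h.hgt (Sum.inl (Sum.inr 0)) (Sum.inl (Sum.inr 1)) (Sum.inr ())))))

theorem cOK : UDef 𝒞 (fun c (_ : α → 𝒞.car c) => (D c).cOK) :=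
  (UDef.all2 (P := fun c _ x z => (D c).cn x z → (D c).ne0 x ∧ (D c).cRule x z)
    ((h.cn (Sum.inr 0) (Sum.inr 1)).imp
      ((h.ne0 (Sum.inr 0)).and
        (h.cRule (Sum.inr 0) (Sum.inr 1))))).and
  (UDef.all1 (P := fun c _ x => (D c).ne0 x → ∃ z, (D c).cn x z)
    ((h.ne0 (Sum.inr ())).imp
      (UDef.ex1 (P := fun c u z => (D c).cn (u (Sum.inr ())) z)
        (h.cn (Sum.inl (Sum.inr ())) (Sum.inr ())))))

theorem adjD (x y x' y' : α) :
    UDef 𝒞 (fun c v => (D c).adjD (v x) (v y) (v x') (v y')) :=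
  (h.inS x y).and ((h.inS x' y').and
    (UDef.ex4 (P := fun c v z z' w w' => (D c).cn (v x) z ∧ (D c).cn (v x') z' ∧
        (D c).hgt (v x) (v y) w ∧ (D c).hgt (v x') (v y') w' ∧
        ((z = z' ∧ ((D c).cov w' w ∨ (D c).cov w w')) ∨
          (w = w' ∧ ((D c).cov z' z ∨ (D c).cov z z'))))
      ((h.cn (Sum.inl x) (Sum.inr 0)).and ((h.cn (Sum.inl x') (Sum.inr 1)).and
        ((h.hgt (Sum.inl x) (Sum.inl y) (Sum.inr 2)).and
          ((h.hgt (Sum.inl x') (Sum.inl y') (Sum.inr 3)).and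
            (((UDef.eq (Sum.inr 0) (Sum.inr 1)).and
                ((h.cov (Sum.inr 3) (Sum.inr 2)).or (h.cov (Sum.inr 2) (Sum.inr 3)))).or
              ((UDef.eq (Sum.inr 2) (Sum.inr 3)).and
                ((h.cov (Sum.inr 1) (Sum.inr 0)).or (h.cov (Sum.inr 0) (Sum.inr 1)))))))))))

theorem lkD (x y x' y' : α) :
    UDef 𝒞 (fun c v => (D c).lkD (v x) (v y) (v x') (v y')) :=
  (h.adjD x y x' y').and (h.same x y x' y')

theorem ordOK : UDef 𝒞 (fun c (_ : α → 𝒞.car c) => (D c).ordOK) :=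
  (UDef.all2 (P := fun c _ x y => ¬ (D c).ord x y x y)
    (h.ord (Sum.inr 0) (Sum.inr 1) (Sum.inr 0) (Sum.inr 1)).not).and
  (UDef.all6 (P := fun c _ x y x' y' x'' y'' => (D c).ord x y x' y' →
      (D c).ord x' y' x'' y'' → (D c).ord x y x'' y'')
    ((h.ord (Sum.inr 0) (Sum.inr 1) (Sum.inr 2) (Sum.inr 3)).imp
      ((h.ord (Sum.inr 2) (Sum.inr 3) (Sum.inr 4) (Sum.inr 5)).imp
        (h.ord (Sum.inr 0) (Sum.inr 1) (Sum.inr 4) (Sum.inr 5)))))

theorem subOK : UDef 𝒞 (fun c (_ : α → 𝒞.car c) => (D c).subOK) :=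
  UDef.all2 (P := fun c _ x y => (D c).col x → (D c).row y → (D c).del x y → (D c).del' x y)
    ((h.col (Sum.inr 0)).imp ((h.row (Sum.inr 1)).imp
      ((h.del (Sum.inr 0) (Sum.inr 1)).imp (h.del' (Sum.inr 0) (Sum.inr 1)))))

theorem reach (x0 y0 : α) : UDef 𝒞 (fun c v => (D c).reach (v x0) (v y0)) :=
  UDef.all2 (P := fun c v x y => (D c).inG x y → (x = v x0 ∧ y = v y0) ∨
      ∃ x' y', (D c).inG x' y' ∧ (D c).ord x' y' x y ∧ (D c).lkD x' y' x y)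
    ((h.inG (Sum.inr 0) (Sum.inr 1)).imp
      (((UDef.eq (Sum.inr 0) (Sum.inl x0)).and (UDef.eq (Sum.inr 1) (Sum.inl y0))).or
        (UDef.ex2 (P := fun c u x' y' => (D c).inG x' y' ∧
            (D c).ord x' y' (u (Sum.inr 0)) (u (Sum.inr 1)) ∧
            (D c).lkD x' y' (u (Sum.inr 0)) (u (Sum.inr 1)))
          ((h.inG (Sum.inr 0) (Sum.inr 1)).and
            ((h.ord (Sum.inr 0) (Sum.inr 1) (Sum.inl (Sum.inr 0)) (Sum.inl (Sum.inr 1))).and
              (h.lkD (Sum.inr 0) (Sum.inr 1) (Sum.inl (Sum.inr 0))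
                (Sum.inl (Sum.inr 1))))))))

theorem closed : UDef 𝒞 (fun c (_ : α → 𝒞.car c) => (D c).closed) :=
  UDef.all4 (P := fun c _ x y x' y' => (D c).inG x y → (D c).lkD x y x' y' →
      (D c).inG x' y')
    ((h.inG (Sum.inr 0) (Sum.inr 1)).imp
      ((h.lkD (Sum.inr 0) (Sum.inr 1) (Sum.inr 2) (Sum.inr 3)).imp
        (h.inG (Sum.inr 2) (Sum.inr 3))))

theorem grpOK : UDef 𝒞 (fun c (_ : α → 𝒞.car c) => (D c).grpOK) :=
  UDef.ex2 (P := fun c _ x0 y0 => (D c).inG x0 y0 ∧ (D c).reach x0 y0 ∧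
      ∃ x y, (D c).inG x y ∧ ¬ (x = x0 ∧ y = y0))
    ((h.inG (Sum.inr 0) (Sum.inr 1)).and
      ((h.reach (Sum.inr 0) (Sum.inr 1)).and
        (UDef.ex2 (P := fun c u x y => (D c).inG x y ∧
            ¬ (x = u (Sum.inr 0) ∧ y = u (Sum.inr 1)))
          ((h.inG (Sum.inr 0) (Sum.inr 1)).and
            ((UDef.eq (Sum.inr 0) (Sum.inl (Sum.inr 0))).and
              (UDef.eq (Sum.inr 1) (Sum.inl (Sum.inr 1)))).not))))

omit h in
theorem linOK {V : ∀ c, 𝒞.car c → Prop} {r : ∀ c, 𝒞.car c → 𝒞.car c → Prop}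
    (hV : ∀ {α : Type} (a : α), UDef 𝒞 (fun c v => V c (v a)))
    (hr : ∀ {α : Type} (a b : α), UDef 𝒞 (fun c v => r c (v a) (v b))) :
    UDef 𝒞 (fun c (_ : α → 𝒞.car c) => Dat.linOK (V c) (r c)) := by
  refine UDef.and ?_ (UDef.and ?_ ?_)
  · exact UDef.all1 (P := fun c _ a => V c a → ¬ r c a a)
      ((hV (Sum.inr ())).imp (hr (Sum.inr ()) (Sum.inr ())).not)
  · refine (UDef.all3 (P := fun c _ x y z => V c x → V c y → V c z → r c x y → r c y z →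
        r c x z)
      ((hV (Sum.inr 0)).imp ((hV (Sum.inr 1)).imp ((hV (Sum.inr 2)).imp
        ((hr (Sum.inr 0) (Sum.inr 1)).imp ((hr (Sum.inr 1) (Sum.inr 2)).imp
          (hr (Sum.inr 0) (Sum.inr 2)))))))).congr fun c v => ?_
    exact ⟨fun h a ha b hb c hc => h a b c ha hb hc, fun h a b c ha hb hc =>
      h a ha b hb c hc⟩
  · refine (UDef.all2 (P := fun c _ x y => V c x → V c y → (r c x y ∨ x = y ∨ r c y x))
      ((hV (Sum.inr 0)).imp ((hV (Sum.inr 1)).imp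
        ((hr (Sum.inr 0) (Sum.inr 1)).or ((UDef.eq (Sum.inr 0) (Sum.inr 1)).or
          (hr (Sum.inr 1) (Sum.inr 0))))))).congr fun c v => ?_
    exact ⟨fun h a ha b hb => h a b ha hb, fun h a b ha hb => h a ha b hb⟩

theorem blk (a b : α) : UDef 𝒞 (fun c v => (D c).blk (v a) (v b)) := (h.col a).and (h.row b)

theorem sameOK : UDef 𝒞 (fun c (_ : α → 𝒞.car c) => (D c).sameOK) := by
  refine UDef.and ?_ (UDef.and ?_ ?_)
  · exact UDef.all2 (P := fun c _ x y => (D c).blk x y → (D c).same x y x y)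
      ((h.blk (Sum.inr 0) (Sum.inr 1)).imp
        (h.same (Sum.inr 0) (Sum.inr 1) (Sum.inr 0) (Sum.inr 1)))
  · refine (UDef.all4 (P := fun c _ x y x' y' => (D c).blk x y → (D c).blk x' y' →
        (D c).same x y x' y' → (D c).same x' y' x y)
      ((h.blk (Sum.inr 0) (Sum.inr 1)).imp ((h.blk (Sum.inr 2) (Sum.inr 3)).imp
        ((h.same (Sum.inr 0) (Sum.inr 1) (Sum.inr 2) (Sum.inr 3)).imp
          (h.same (Sum.inr 2) (Sum.inr 3) (Sum.inr 0) (Sum.inr 1)))))).congr fun c v => ?_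
    exact ⟨fun h x y h1 x' y' h2 => h x y x' y' h1 h2, fun h x y x' y' h1 h2 =>
      h x y h1 x' y' h2⟩
  · refine (UDef.all6 (P := fun c _ x y x' y' x'' y'' => (D c).blk x y → (D c).blk x' y' →
        (D c).blk x'' y'' →
        (D c).same x y x' y' → (D c).same x' y' x'' y'' → (D c).same x y x'' y'')
      ((h.blk (Sum.inr 0) (Sum.inr 1)).imp ((h.blk (Sum.inr 2) (Sum.inr 3)).imp
        ((h.blk (Sum.inr 4) (Sum.inr 5)).imp
        ((h.same (Sum.inr 0) (Sum.inr 1) (Sum.inr 2) (Sum.inr 3)).imp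
          ((h.same (Sum.inr 2) (Sum.inr 3) (Sum.inr 4) (Sum.inr 5)).imp
            (h.same (Sum.inr 0) (Sum.inr 1) (Sum.inr 4) (Sum.inr 5)))))))).congr fun c v => ?_
    exact ⟨fun h x y h1 x' y' h2 x'' y'' h3 => h x y x' y' x'' y'' h1 h2 h3,
      fun h x y x' y' x'' y'' h1 h2 h3 => h x y h1 x' y' h2 x'' y'' h3⟩

theorem posOK : UDef 𝒞 (fun c (_ : α → 𝒞.car c) => (D c).posOK) :=
  (linOK h.col h.left).and ((linOK h.row h.below).and h.sameOK)

/-- certified moves are definable -/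
theorem step : UDef 𝒞 (fun c (_ : α → 𝒞.car c) => (D c).step) :=
  h.posOK.and (h.subOK.and (h.hOK.and (h.cOK.and (h.ordOK.and (h.closed.and h.grpOK)))))

end DatDef

end Pool.Agent.H92.Click
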