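import Pool.Agent.H92.Click.Geo4
import Pool.Agent.H92.Desc.Calc

/-!
The Clickomania board of a graph with coded rows.
-/

set_option linter.unusedSectionVars false
set_option linter.unusedSimpArgs false

namespace Pool.Agent.H92.Click

open Classical Desc

section rank

variable {X : Type} [Fintype X] {r : X → X → Prop} (hr : SLO r)
include hr

theorem SLO.rank_lt_iff (x y : X) :
    r x y ↔ SLO.rank r Set.univ x < SLO.rank r Set.univ y := by
  constructor
  · exact hr.rank_lt Set.univ trivial
  · intro h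
    rcases hr.tri x y with h1 | h1 | h1
    · exact h1
    · rw [h1] at h
      exact absurd h (lt_irrefl _)
    · exact absurd (h.trans (hr.rank_lt Set.univ trivial h1)) (lt_irrefl _)

theorem SLO.rank_lt_card (x : X) : SLO.rank r Set.univ x < Fintype.card X := by
  unfold SLO.rank
  rw [← Nat.card_eq_fintype_card, ← Set.ncard_univ]
  refine Set.ncard_lt_ncard ⟨Set.subset_univ _, fun h => ?_⟩ (Set.toFinite _)
  exact hr.irr x (h (Set.mem_univ x)).2

theorem SLO.rank_injective : Function.Injective (SLO.rank r Set.univ) :=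
  fun _ _ h => hr.rank_inj Set.univ trivial trivial h

theorem SLO.rank_surj {n : ℕ} (hn : n < Fintype.card X) : ∃ x, SLO.rank r Set.univ x = n := by
  let f : X → Fin (Fintype.card X) := fun x => ⟨SLO.rank r Set.univ x, hr.rank_lt_card x⟩
  have hf : Function.Injective f := fun x y h => hr.rank_injective (congrArg Fin.val h)
  have hb : Function.Bijective f := by
    rw [Fintype.bijective_iff_injective_and_card]
    exact ⟨hf, by simp⟩
  obtain ⟨x, hx⟩ := hb.2 ⟨n, hn⟩
  exact ⟨x, congrArg Fin.val hx⟩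

end rank

/-- coded rows -/
abbrev RW (W DT DZ : Type) :=
  ((W × W) × (DT ⊕ (Fin 2 ⊕ DZ))) ⊕ ((W × (DT ⊕ Fin 2)) ⊕ Fin 3)

/-- the order of `Bool` -/
def blLt (b b' : Bool) : Prop := b = false ∧ b' = true

theorem slo_blLt : SLO blLt := by
  refine ⟨?_, ?_, ?_⟩
  · rintro b ⟨rfl, h⟩
    simp at h
  · rintro _ _ _ ⟨rfl, rfl⟩ ⟨h, _⟩
    simp at h
  · intro b b'
    cases b <;> cases b' <;> simp [blLt]

theorem slo_fin (n : ℕ) : SLO (fun i j : Fin n => i < j) :=
  ⟨fun x => lt_irrefl x, fun _ _ _ h h' => lt_trans h h', fun x y => lt_trichotomy x y⟩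

section

variable {W DT DZ : Type} [Fintype W] [Fintype DT] [Fintype DZ] (wl : W → W → Prop)
  (tl : DT → DT → Prop) (zl : DZ → DZ → Prop) (ok : W → Prop) (adj : W → W → Prop)

/-- order of the columns -/
def colLt : Col W → Col W → Prop :=
  sumLt blLt (prodLt (prodLt wl wl) (fun i j : Fin 3 => i < j))

/-- order of the bands -/
def bandLt : Band W → Band W → Prop :=
  sumLt (prodLt wl wl) (sumLt wl (fun _ _ : Unit => False))

/-- order of the coded rows -/
def rowLt : RW W DT DZ → RW W DT DZ → Prop :=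
  sumLt (prodLt (prodLt wl wl) (sumLt tl (sumLt (fun i j : Fin 2 => i < j) zl)))
    (sumLt (prodLt wl (sumLt tl (fun i j : Fin 2 => i < j))) (fun i j : Fin 3 => i < j))

/-- valid columns -/
def colOk : Col W → Prop
  | .inl _ => True
  | .inr (e, _) => adj e.1 e.2

/-- valid coded rows -/
def rowOk : RW W DT DZ → Prop
  | .inl (e, _) => adj e.1 e.2
  | .inr (.inl (w, _)) => ok w
  | .inr (.inr _) => True

/-- the cell is in the slab of the edge `e` -/
def rY : Col W → RW W DT DZ → W × W → Prop
  | _, .inl (e', .inl _), e => e' = e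
  | .inl b, .inl (e', .inr (.inl _)), e => e' = e ∧ b = false
  | .inr (e'', k), .inl (e', .inr (.inl _)), e => e' = e ∧ e'' = e ∧ k ≠ 1
  | .inl b, .inl (e', .inr (.inr _)), e => e' = e ∧ b = false
  | .inr _, .inl (_, .inr (.inr _)), _ => False
  | _, .inr _, _ => False

/-- the cell is in the slab of the vertex `w` -/
def rB : Col W → RW W DT DZ → W → Prop
  | _, .inr (.inl (w', .inl _)), w => w' = w
  | .inl _, .inr (.inl (_, .inr _)), _ => False
  | .inr (e, k), .inr (.inl (w', .inr i)), w => w' = w ∧ i = 0 ∧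
      ((k = 0 ∧ e.1 = w') ∨ (k = 2 ∧ e.2 = w'))
  | _, .inr (.inr _), _ => False
  | _, .inl _, _ => False

/-- the cell is a test cell of the edge `e` -/
def rT : Col W → RW W DT DZ → W × W → Prop
  | .inr (e', k), .inr (.inr i), e => e' = e ∧ ((k = 1 ∧ i = 0) ∨ (k ≠ 1 ∧ i = 2))
  | _, _, _ => False

/-- same colour -/
def sameC (b b' : Col W × RW W DT DZ) : Prop :=
  b = b' ∨ (∃ e, rY b.1 b.2 e ∧ rY b'.1 b'.2 e) ∨
    ((∃ w, rB b.1 b.2 w) ∧ ∃ w, rB b'.1 b'.2 w) ∨ ∃ e, rT b.1 b.2 e ∧ rT b'.1 b'.2 e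

/-- the coded board -/
def cboard : Board (Col W) (RW W DT DZ) where
  left := colLt wl
  below := rowLt wl tl zl
  same := sameC

/-- the coded full grid -/
def cfull : Set (Col W × RW W DT DZ) := {b | colOk adj b.1 ∧ rowOk ok adj b.2}

/-- the data -/
noncomputable def cdata (DT DZ : Type) [Fintype DT] [Fintype DZ] (wl : W → W → Prop)
    (ok : W → Prop) (adj : W → W → Prop) : Data W where
  T := Fintype.card DT
  Z := Fintype.card DZ
  isV := ok
  adj := adj
  clt := colLt wl
  blt := bandLt wl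

/-- decoding the rows -/
noncomputable def psi : RW W DT DZ → Band W × ℕ
  | .inl (e, .inl t) => (.inl e, SLO.rank tl Set.univ t)
  | .inl (e, .inr (.inl i)) => (.inl e, Fintype.card DT + i.1)
  | .inl (e, .inr (.inr z)) => (.inl e, Fintype.card DT + 2 + SLO.rank zl Set.univ z)
  | .inr (.inl (w, .inl t)) => (.inr (.inl w), SLO.rank tl Set.univ t)
  | .inr (.inl (w, .inr i)) => (.inr (.inl w), Fintype.card DT + i.1)
  | .inr (.inr i) => (.inr (.inr ()), i.1)

variable {wl tl zl ok adj} (hw : SLO wl) (ht : SLO tl) (hz : SLO zl)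

include ht hz in
theorem psi_inj : Function.Injective (psi (W := W) tl zl) := by
  intro y y' h
  rcases y with ⟨e, t | i | z⟩ | ⟨w, t | i⟩ | i <;>
    rcases y' with ⟨e', t' | i' | z'⟩ | ⟨w', t' | i'⟩ | i' <;>
    simp only [psi, Prod.mk.injEq, Sum.inl.injEq, Sum.inr.injEq, reduceCtorEq, false_and] at h
  · rw [h.1, ht.rank_injective h.2]
  · have := ht.rank_lt_card t
    omega
  · have := ht.rank_lt_card t
    omega
  · have := ht.rank_lt_card t'
    omega
  · rw [h.1, Fin.ext (Nat.add_left_cancel h.2)]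
  · have := i.2
    omega
  · have := ht.rank_lt_card t'
    omega
  · have := i'.2
    omega
  · rw [h.1, hz.rank_injective (Nat.add_left_cancel h.2)]
  · rw [h.1, ht.rank_injective h.2]
  · have := ht.rank_lt_card t
    omega
  · have := ht.rank_lt_card t'
    omega
  · rw [h.1, Fin.ext (Nat.add_left_cancel h.2)]
  · rw [Fin.ext h.2]

include ht hz in
theorem psi_lt (y y' : RW W DT DZ) :
    (cdata DT DZ wl ok adj).board.below (psi tl zl y) (psi tl zl y') ↔ rowLt wl tl zl y y' := by
  rcases y with ⟨e, t | i | z⟩ | ⟨w, t | i⟩ | i <;>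
    rcases y' with ⟨e', t' | i' | z'⟩ | ⟨w', t' | i'⟩ | i' <;>
    simp only [psi, Data.board, cdata, bandLt, rowLt, sumLt, prodLt, Sum.inl.injEq,
      Sum.inr.injEq, reduceCtorEq, false_and, or_false, false_or, true_or, true_and, and_true,
      ht.rank_lt_iff, hz.rank_lt_iff, add_lt_add_iff_left, Fin.lt_def]
  · have := ht.rank_lt_card t
    have h : SLO.rank tl Set.univ t < Fintype.card DT + i'.1 := by omega
    simp [h]
  · have := ht.rank_lt_card t
    have h : SLO.rank tl Set.univ t < Fintype.card DT + 2 + SLO.rank zl Set.univ z' := by omega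
    simp [h]
  · have := ht.rank_lt_card t'
    have h : ¬ (Fintype.card DT + i.1 < SLO.rank tl Set.univ t') := by omega
    simp [h]
  · have := i.2
    have h : Fintype.card DT + i.1 < Fintype.card DT + 2 + SLO.rank zl Set.univ z' := by omega
    simp [h]
  · have := ht.rank_lt_card t'
    have h : ¬ (Fintype.card DT + 2 + SLO.rank zl Set.univ z < SLO.rank tl Set.univ t') := by
      omega
    simp [h]
  · have := i'.2
    have h : ¬ (Fintype.card DT + 2 + SLO.rank zl Set.univ z < Fintype.card DT + i'.1) := by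
      omega
    simp [h]
  · have := ht.rank_lt_card t
    have h : SLO.rank tl Set.univ t < Fintype.card DT + i'.1 := by omega
    simp [h]
  · have := ht.rank_lt_card t'
    have h : ¬ (Fintype.card DT + i.1 < SLO.rank tl Set.univ t') := by omega
    simp [h]

theorem colOk_iff (x : Col W) : colOk adj x ↔ (cdata DT DZ wl ok adj).vc x := by
  rcases x with x | ⟨e, k⟩ <;> exact Iff.rfl

include ht hz in
/-- the valid rows -/
theorem rowOk_iff (y : RW W DT DZ) : rowOk ok adj y ↔
    (psi tl zl y).2 < (cdata DT DZ wl ok adj).len (psi tl zl y).1 := by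
  rcases y with ⟨e, t | i | z⟩ | ⟨w, t | i⟩ | i
  · have := ht.rank_lt_card t
    by_cases h : adj e.1 e.2
    · simp only [rowOk, psi, Data.len, cdata, h, if_true, true_iff]
      omega
    · simp [rowOk, psi, Data.len, cdata, h]
  · have := i.2
    by_cases h : adj e.1 e.2
    · simp only [rowOk, psi, Data.len, cdata, h, if_true, true_iff]
      omega
    · simp [rowOk, psi, Data.len, cdata, h]
  · have := hz.rank_lt_card z
    by_cases h : adj e.1 e.2
    · simp only [rowOk, psi, Data.len, cdata, h, if_true, true_iff]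
      omega
    · simp [rowOk, psi, Data.len, cdata, h]
  · have := ht.rank_lt_card t
    by_cases h : ok w
    · simp only [rowOk, psi, Data.len, cdata, h, if_true, true_iff]
      omega
    · simp [rowOk, psi, Data.len, cdata, h]
  · have := i.2
    by_cases h : ok w
    · simp only [rowOk, psi, Data.len, cdata, h, if_true, true_iff]
      omega
    · simp [rowOk, psi, Data.len, cdata, h]
  · have := i.2
    simp only [rowOk, psi, Data.len, cdata, true_iff]
    omega

include ht hz in
theorem psi_surj (b : Band W) (o : ℕ) (h : o < (cdata DT DZ wl ok adj).len b) :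
    ∃ y, psi tl zl y = (b, o) := by
  rcases b with e | w | u
  · have h1 : o < Fintype.card DT + Fintype.card DZ + 2 := by
      simp only [Data.len, cdata] at h
      split_ifs at h
      · exact h
      · omega
    by_cases h2 : o < Fintype.card DT
    · obtain ⟨t, ht'⟩ := ht.rank_surj h2
      exact ⟨.inl (e, .inl t), by simp [psi, ht']⟩
    · by_cases h3 : o < Fintype.card DT + 2
      · refine ⟨.inl (e, .inr (.inl ⟨o - Fintype.card DT, by omega⟩)), ?_⟩
        simp only [psi, Prod.mk.injEq, true_and]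
        omega
      · obtain ⟨z, hz'⟩ := hz.rank_surj (n := o - (Fintype.card DT + 2)) (by omega)
        refine ⟨.inl (e, .inr (.inr z)), ?_⟩
        simp only [psi, Prod.mk.injEq, true_and, hz']
        omega
  · have h1 : o < Fintype.card DT + 2 := by
      simp only [Data.len, cdata] at h
      split_ifs at h
      · exact h
      · omega
    by_cases h2 : o < Fintype.card DT
    · obtain ⟨t, ht'⟩ := ht.rank_surj h2
      exact ⟨.inr (.inl (w, .inl t)), by simp [psi, ht']⟩
    · refine ⟨.inr (.inl (w, .inr ⟨o - Fintype.card DT, by omega⟩)), ?_⟩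
      simp only [psi, Prod.mk.injEq, true_and]
      omega
  · exact ⟨.inr (.inr ⟨o, h⟩), rfl⟩

include ht hz in
theorem image_cfull : Prod.map _root_.id (psi tl zl) '' cfull ok adj =
    (cdata DT DZ wl ok adj).full := by
  ext ⟨x, b, o⟩
  constructor
  · rintro ⟨⟨x', y⟩, ⟨h1, h2⟩, h3⟩
    simp only [Prod.map_apply, _root_.id, Prod.mk.injEq] at h3
    obtain ⟨rfl, h3⟩ := h3
    have h4 := (rowOk_iff (wl := wl) (ok := ok) (adj := adj) ht hz y).1 h2
    rw [h3] at h4
    exact ⟨(colOk_iff x').1 h1, h4⟩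
  · rintro ⟨h1, h2⟩
    obtain ⟨y, hy⟩ := psi_surj (wl := wl) (ok := ok) (adj := adj) ht hz b o h2
    refine ⟨(x, y), ⟨(colOk_iff x).2 h1, ?_⟩, ?_⟩
    · rw [rowOk_iff (wl := wl) (ok := ok) (adj := adj) ht hz y, hy]
      exact h2
    · simp [hy]

/-! colours -/

include ht hz in
theorem id_Y (x : Col W) (y : RW W DT DZ) (e : W × W) :
    (cdata DT DZ wl ok adj).id (x, psi tl zl y) = some (.Y e) ↔ rY x y e := by
  rcases y with ⟨e', t | i | z⟩ | ⟨w, t | i⟩ | i
  · have := ht.rank_lt_card t
    have h : SLO.rank tl Set.univ t < (cdata DT DZ wl ok adj).T +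
        (cdata DT DZ wl ok adj).ex x (.inl e') := by
      change SLO.rank tl Set.univ t < Fintype.card DT + (cdata DT DZ wl ok adj).ex x (.inl e')
      omega
    simp only [psi, Data.id]
    rw [if_pos h]
    simp [rY]
  · have hi := i.2
    rcases x with (_ | _) | ⟨e'', k⟩
    · simp only [psi, Data.id, Data.ex, cdata]
      rw [if_pos (by omega)]
      simp [rY]
    · simp only [psi, Data.id, Data.ex, cdata]
      rw [if_neg (by omega)]
      simp [rY]
    · simp only [psi, Data.id, Data.ex, cdata]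
      have h1 : ∀ w : W, ¬ ((Sum.inl e' : Band W) = .inr (.inl w)) := fun w h => by simp at h
      simp only [h1, and_false, or_false, if_false, add_zero]
      by_cases h2 : (Sum.inl e' : Band W) = .inl e'' ∧ k ≠ 1
      · rw [if_pos h2, if_pos (by omega)]
        have h3 : e' = e'' := Sum.inl.inj h2.1
        subst h3
        simp [rY, h2.2]
      · rw [if_neg h2, if_neg (by omega)]
        simp only [reduceCtorEq, rY, false_iff, not_and]
        rintro rfl rfl h4
        exact h2 ⟨rfl, h4⟩
  · have hzz := hz.rank_lt_card z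
    rcases x with (_ | _) | ⟨e'', k⟩
    · simp only [psi, Data.id, Data.ex, cdata]
      rw [if_pos (by omega)]
      simp [rY]
    · simp only [psi, Data.id, Data.ex, cdata]
      rw [if_neg (by omega)]
      simp [rY]
    · simp only [psi, Data.id, Data.ex, cdata]
      rw [if_neg]
      · simp [rY]
      · have h1 : ∀ w : W, ¬ ((Sum.inl e' : Band W) = .inr (.inl w)) := fun w h => by simp at h
        simp only [h1, and_false, or_false, if_false, add_zero]
        split_ifs <;> omega
  · simp only [psi, Data.id]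
    split_ifs <;> simp [rY]
  · simp only [psi, Data.id]
    split_ifs <;> simp [rY]
  · rcases x with x | ⟨e', k⟩
    · simp [psi, Data.id, rY]
    · simp only [psi, Data.id]
      split_ifs <;> simp [rY]

include ht in
theorem id_B (x : Col W) (y : RW W DT DZ) (w : W) :
    (cdata DT DZ wl ok adj).id (x, psi tl zl y) = some (.B w) ↔ rB x y w := by
  rcases y with ⟨e', t | i | z⟩ | ⟨w', t | i⟩ | i
  · simp only [psi, Data.id]
    split_ifs <;> simp [rB]
  · simp only [psi, Data.id]
    split_ifs <;> simp [rB]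
  · simp only [psi, Data.id]
    split_ifs <;> simp [rB]
  · have := ht.rank_lt_card t
    have h : SLO.rank tl Set.univ t < (cdata DT DZ wl ok adj).T +
        (cdata DT DZ wl ok adj).ex x (.inr (.inl w')) := by
      change SLO.rank tl Set.univ t < Fintype.card DT +
        (cdata DT DZ wl ok adj).ex x (.inr (.inl w'))
      omega
    simp only [psi, Data.id]
    rw [if_pos h]
    simp [rB]
  · have hi := i.2
    rcases x with (_ | _) | ⟨e'', k⟩
    · simp only [psi, Data.id, Data.ex, cdata]
      rw [if_neg (by omega)]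
      simp [rB]
    · simp only [psi, Data.id, Data.ex, cdata]
      rw [if_neg (by omega)]
      simp [rB]
    · have h1 : ¬ ((Sum.inr (Sum.inl w') : Band W) = .inl e'') := fun h => by simp at h
      have h2 : ∀ w : W, ((Sum.inr (Sum.inl w') : Band W) = .inr (.inl w)) ↔ w = w' := by
        intro w
        simp only [Sum.inr.injEq, Sum.inl.injEq]
        exact eq_comm
      simp only [psi, Data.id, Data.ex, cdata, h1, false_and, if_false, zero_add, h2]
      by_cases h3 : (k = 0 ∧ e''.1 = w') ∨ (k = 2 ∧ e''.2 = w')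
      · rw [if_pos h3]
        by_cases h4 : i = 0
        · subst h4
          rw [if_pos (by simp)]
          simp only [Option.some.injEq, Id.B.injEq, rB, true_and]
          exact ⟨fun h => ⟨h, h3⟩, fun h => h.1⟩
        · have h5 : i.1 ≠ 0 := fun h => h4 (Fin.ext h)
          rw [if_neg (by omega)]
          simp [rB, h4]
      · rw [if_neg h3, if_neg (by omega)]
        simp only [reduceCtorEq, rB, false_iff]
        exact fun h => h3 h.2.2
  · rcases x with x | ⟨e', k⟩
    · simp [psi, Data.id, rB]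
    · simp only [psi, Data.id]
      split_ifs <;> simp [rB]

theorem id_T (x : Col W) (y : RW W DT DZ) (e : W × W) :
    (∃ k, (cdata DT DZ wl ok adj).id (x, psi tl zl y) = some (.T e k)) ↔ rT x y e := by
  rcases y with ⟨e', t | i | z⟩ | ⟨w', t | i⟩ | i
  · simp only [psi, Data.id]
    split_ifs <;> simp [rT]
  · simp only [psi, Data.id]
    split_ifs <;> simp [rT]
  · simp only [psi, Data.id]
    split_ifs <;> simp [rT]
  · simp only [psi, Data.id]
    split_ifs <;> simp [rT]
  · simp only [psi, Data.id]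
    split_ifs <;> simp [rT]
  · rcases x with x | ⟨e', k⟩
    · simp [psi, Data.id, rT]
    · simp only [psi, Data.id]
      have h1 : ∀ n : Fin 3, i = n ↔ i.1 = n.1 := fun n => Fin.ext_iff
      have h0 := h1 0
      have h2 := h1 2
      by_cases h : (k = 1 ∧ i.1 = 0) ∨ (k ≠ 1 ∧ i.1 = 2)
      · rw [if_pos h]
        simp only [Option.some.injEq, Id.T.injEq, rT]
        constructor
        · rintro ⟨k', h3, rfl⟩
          exact ⟨h3, by rw [h0, h2]; exact h⟩
        · rintro ⟨h3, _⟩
          exact ⟨k, h3, rfl⟩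
      · rw [if_neg h]
        simp only [reduceCtorEq, exists_false, rT, false_iff, not_and]
        intro _ h4
        rw [h0, h2] at h4
        exact h h4

include ht hz in
theorem same_iff (b b' : Col W × RW W DT DZ) :
    (cdata DT DZ wl ok adj).board.same (b.1, psi tl zl b.2) (b'.1, psi tl zl b'.2) ↔
      sameC b b' := by
  have hinj := psi_inj (W := W) ht hz
  change ((b.1, psi tl zl b.2) = (b'.1, psi tl zl b'.2) ∨ ∃ i i' : Id W,
    (cdata DT DZ wl ok adj).id (b.1, psi tl zl b.2) = some i ∧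
    (cdata DT DZ wl ok adj).id (b'.1, psi tl zl b'.2) = some i' ∧ i.hue = i'.hue) ↔ _
  unfold sameC
  refine or_congr ?_ ?_
  · simp only [Prod.ext_iff, hinj.eq_iff]
  · constructor
    · rintro ⟨i, i', h1, h2, h3⟩
      rcases i with e | w | ⟨e, k⟩ <;> rcases i' with e' | w' | ⟨e', k'⟩ <;>
        simp only [Id.hue, Sum.inl.injEq, Sum.inr.injEq, reduceCtorEq] at h3
      · subst h3
        exact Or.inl ⟨e, (id_Y ht hz _ _ _).1 h1, (id_Y ht hz _ _ _).1 h2⟩
      · exact Or.inr (Or.inl ⟨⟨w, (id_B ht _ _ _).1 h1⟩, ⟨w', (id_B ht _ _ _).1 h2⟩⟩)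
      · subst h3
        exact Or.inr (Or.inr ⟨e, (id_T _ _ _).1 ⟨k, h1⟩, (id_T _ _ _).1 ⟨k', h2⟩⟩)
    · rintro (⟨e, h1, h2⟩ | ⟨⟨w, h1⟩, ⟨w', h2⟩⟩ | ⟨e, h1, h2⟩)
      · exact ⟨_, _, (id_Y ht hz _ _ _).2 h1, (id_Y ht hz _ _ _).2 h2, rfl⟩
      · exact ⟨_, _, (id_B ht _ _ _).2 h1, (id_B ht _ _ _).2 h2, rfl⟩
      · obtain ⟨k, h1⟩ := (id_T _ _ _).2 h1
        obtain ⟨k', h2⟩ := (id_T _ _ _).2 h2
        exact ⟨_, _, h1, h2, rfl⟩

include hw in
theorem cdata_ok (hadj : ∀ u v, adj u v → ok u) (hsymm : ∀ u v, adj u v → adj v u)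
    (hirr : ∀ u, ¬ adj u u) (hZ : 2 * Fintype.card W + 1 ≤ Fintype.card DZ)
    (hT : (Fintype.card DZ + 2) * (Fintype.card W * Fintype.card W) + 4 ≤ Fintype.card DT) :
    (cdata DT DZ wl ok adj).Ok := by
  have hww := slo_prodLt hw hw
  have hc : SLO (colLt wl) := slo_sumLt slo_blLt (slo_prodLt hww (slo_fin 3))
  have hu : SLO (fun _ _ : Unit => False) := ⟨fun _ h => h, fun _ _ _ h => h.elim,
    fun _ _ => Or.inr (Or.inl rfl)⟩
  have hgap : ∀ (e : W × W) (k k' : Fin 3) (x : Col W), (∀ k'', ¬ (k < k'' ∧ k'' < k')) →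
      ¬ (colLt wl (.inr (e, k)) x ∧ colLt wl x (.inr (e, k'))) := by
    rintro e k k' (x | ⟨e', k''⟩) hk ⟨h1, h2⟩
    · exact h1
    · rcases h1 with h1 | ⟨h1, h1'⟩ <;> rcases h2 with h2 | ⟨h2, h2'⟩
      · exact hww.irr _ (hww.tr _ _ _ h1 h2)
      · exact hww.irr _ (by simp only at h1 h2; rw [h2] at h1; exact h1)
      · exact hww.irr _ (by simp only at h1 h2; rw [h1] at h2; exact h2)
      · exact hk k'' ⟨h1', h2'⟩
  refine
    { clt := hc
      blt := slo_sumLt hww (slo_sumLt hw hu)
      bY := fun e b => trivial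
      bB := fun w => trivial
      c0 := ⟨rfl, rfl⟩
      g0 := ?_
      c1 := fun e => Or.inr ⟨rfl, show (0 : Fin 3) < 1 by decide⟩
      g1 := fun e x => hgap e 0 1 x (by decide)
      c2 := fun e => Or.inr ⟨rfl, show (1 : Fin 3) < 2 by decide⟩
      g2 := fun e x => hgap e 1 2 x (by decide)
      adjV := hadj
      symm := hsymm
      irr := hirr
      hZ := hZ
      hT := hT }
  rintro (x | x) ⟨h1, h2⟩
  · obtain ⟨_, h1⟩ := h1
    obtain ⟨h2, _⟩ := h2
    rw [h1] at h2
    simp at h2
  · exact h2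

include hw ht hz in
/-- The coded board plays as Node Kayles. -/
theorem wins_cboard (hadj : ∀ u v, adj u v → ok u) (hsymm : ∀ u v, adj u v → adj v u)
    (hirr : ∀ u, ¬ adj u u) (hZ : 2 * Fintype.card W + 1 ≤ Fintype.card DZ)
    (hT : (Fintype.card DZ + 2) * (Fintype.card W * Fintype.card W) + 4 ≤ Fintype.card DT)
    (hind : ∀ I : Finset W, (∀ u ∈ I, ∀ v ∈ I, ¬ adj u v) → ∀ w, ∃ z, ok z ∧ z ≠ w ∧ z ∉ I) :
    Wins (cboard wl tl zl).Move (cfull ok adj) ↔ Wins (NK ok adj) ∅ := by
  have hok := cdata_ok (DT := DT) (DZ := DZ) (ok := ok) hw hadj hsymm hirr hZ hT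
  have h1 := Data.wins_full hok (fun I hI w => by
    obtain ⟨z, h1, h2, h3⟩ := hind I hI w
    exact ⟨z, h1, by simp [h2, h3]⟩)
  refine Iff.trans ?_ h1
  rw [← image_cfull ht hz]
  exact (Board.wins_transfer (B := (cdata DT DZ wl ok adj).board) (B' := cboard wl tl zl)
      (_root_.id : Col W → Col W) (psi tl zl) Function.injective_id (psi_inj ht hz)
      (cfull ok adj) (fun _ _ _ _ => Iff.rfl) (fun b _ b' _ => psi_lt ht hz b.2 b'.2)
      (fun b _ b' _ => same_iff ht hz b b')).symm

end

end Pool.Agent.H92.Click
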