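import Pool.Agent.H92.Click.Coded

/-!
Uniform definability of the coded board of a uniformly definable graph.
-/

set_option linter.unusedSectionVars false

namespace Pool.Agent.H92.Click

open FirstOrder FirstOrder.Language Desc

section

variable {σ : FirstOrder.Language.{0, 0}} {W DT DZ : (ordCls σ).ι → Type} {cW : Cd σ W}
  {cT : Cd σ DT} {cZ : Cd σ DZ} (dW : DLO cW) (dT : DLO cT) (dZ : DLO cZ)
  {ok : ∀ c, W c → Prop} {adj : ∀ c, W c → W c → Prop} (hok : DDef cW ok)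
  (hadj : DDef (cW.prod cW) (fun c p => adj c p.1 p.2))

/-- code of the columns -/
abbrev cCol (cW : Cd σ W) : Cd σ (fun c => Col (W c)) :=
  (Cd.const σ Bool).sum ((cW.prod cW).prod (Cd.const σ (Fin 3)))

/-- code of the rows -/
abbrev cRow (cW : Cd σ W) (cT : Cd σ DT) (cZ : Cd σ DZ) :
    Cd σ (fun c => RW (W c) (DT c) (DZ c)) :=
  ((cW.prod cW).prod (cT.sum ((Cd.const σ (Fin 2)).sum cZ))).sum
    ((cW.prod (cT.sum (Cd.const σ (Fin 2)))).sum (Cd.const σ (Fin 3)))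

/-- the order of the columns -/
def dCol : DLO (cCol cW) :=
  (DLO.const σ slo_blLt).sum ((dW.prod dW).prod (DLO.const σ (slo_fin 3)))

theorem dCol_r (c : (ordCls σ).ι) : (dCol dW).r c = colLt (dW.r c) := rfl

/-- the order of the rows -/
def dRow : DLO (cRow cW cT cZ) :=
  ((dW.prod dW).prod (dT.sum ((DLO.const σ (slo_fin 2)).sum dZ))).sum
    ((dW.prod (dT.sum (DLO.const σ (slo_fin 2)))).sum (DLO.const σ (slo_fin 3)))

theorem dRow_r (c : (ordCls σ).ι) :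
    (dRow dW dT dZ).r c = rowLt (dW.r c) (dT.r c) (dZ.r c) := rfl

include hadj in
theorem ddef_colOk : DDef (cCol cW) (fun c x => colOk (adj c) x) := by
  refine DDef.sumU ((DDef.const True).congr fun c x => Iff.rfl) ?_
  exact (hadj.comp (TM.fst (D := cW.prod cW) (E := Cd.const σ (Fin 3)))).congr
    fun c x => Iff.rfl

include hadj hok in
theorem ddef_rowOk : DDef (cRow cW cT cZ) (fun c x => rowOk (ok c) (adj c) x) := by
  refine DDef.sumU ?_ (DDef.sumU ?_ ((DDef.const True).congr fun c x => Iff.rfl))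
  · exact (hadj.comp (TM.fst (D := cW.prod cW))).congr fun c x => Iff.rfl
  · exact (hok.comp (TM.fst (D := cW))).congr fun c x => Iff.rfl

/-- context of a cell and an edge -/
abbrev cCE (cW : Cd σ W) (cT : Cd σ DT) (cZ : Cd σ DZ) :=
  ((cCol cW).prod (cRow cW cT cZ)).prod (cW.prod cW)

theorem ddef_rY : DDef (cCE cW cT cZ) (fun _ p => rY p.1.1 p.1.2 p.2) := by
  -- variables, below one further variable
  have x0 : TM (cCE cW cT cZ) (cCol cW) _ := TM.fst.comp TM.fst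
  have y0 : TM (cCE cW cT cZ) (cRow cW cT cZ) _ := TM.snd.comp TM.fst
  have e0 : TM (cCE cW cT cZ) (cW.prod cW) _ := TM.snd
  have h1 := (DDef.eq (E := cRow cW cT cZ) (y0.comp (TM.fst (E := cT)))
    (TM.inl.comp ((e0.comp TM.fst).pair (TM.inl.comp TM.snd)))).exQ
  have h2 := (DDef.eq (E := cRow cW cT cZ) (y0.comp (TM.fst (E := Cd.const σ (Fin 2))))
    (TM.inl.comp ((e0.comp TM.fst).pair (TM.inr.comp (TM.inl.comp TM.snd))))).exQ
  have h3 := (DDef.eq (E := cRow cW cT cZ) (y0.comp (TM.fst (E := cZ)))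
    (TM.inl.comp ((e0.comp TM.fst).pair (TM.inr.comp (TM.inr.comp TM.snd))))).exQ
  have h4 := DDef.eq (E := cCol cW) x0 (TM.inl.comp (TM.const (D := cCE cW cT cZ) false))
  have h5 := (DDef.and (DDef.eq (E := cCol cW) (x0.comp (TM.fst (E := Cd.const σ (Fin 3))))
    (TM.inr.comp ((e0.comp TM.fst).pair TM.snd)))
    (DDef.eq (E := Cd.const σ (Fin 3)) (TM.snd (D := cCE cW cT cZ)) (TM.const 1)).not).exQ
  refine (h1.or ((h2.and (h4.or h5)).or (h3.and h4))).congr ?_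
  rintro c ⟨⟨x, y⟩, e⟩
  rcases x with (_ | _) | ⟨e'', k⟩ <;> rcases y with ⟨e', t | i | z⟩ | ⟨w, t | i⟩ | i <;>
    simp [rY]

theorem ddef_rB : DDef (((cCol cW).prod (cRow cW cT cZ)).prod cW)
    (fun _ p => rB p.1.1 p.1.2 p.2) := by
  have h1 := (DDef.eq (E := cRow cW cT cZ)
    ((TM.snd.comp TM.fst).comp (TM.fst (D := ((cCol cW).prod (cRow cW cT cZ)).prod cW) (E := cT)))
    (TM.inr.comp (TM.inl.comp ((TM.snd.comp TM.fst).pair (TM.inl.comp TM.snd))))).exQ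
  -- context: cell, `w`, `e`, `k`
  let Γ := ((((cCol cW).prod (cRow cW cT cZ)).prod cW).prod (cW.prod cW)).prod (Cd.const σ (Fin 3))
  have xx : TM Γ (cCol cW) _ := TM.fst.comp (TM.fst.comp (TM.fst.comp TM.fst))
  have yy : TM Γ (cRow cW cT cZ) _ := TM.snd.comp (TM.fst.comp (TM.fst.comp TM.fst))
  have ww : TM Γ cW _ := TM.snd.comp (TM.fst.comp TM.fst)
  have ee : TM Γ (cW.prod cW) _ := TM.snd.comp TM.fst
  have kk : TM Γ (Cd.const σ (Fin 3)) _ := TM.snd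
  have g1 := DDef.eq (E := cCol cW) xx (TM.inr.comp (ee.pair kk))
  have g2 := DDef.eq (E := cRow cW cT cZ) yy (TM.inr.comp (TM.inl.comp (ww.pair
    (TM.inr.comp (TM.const (D := Γ) (0 : Fin 2))))))
  have g3 := DDef.eq (E := Cd.const σ (Fin 3)) kk (TM.const 0)
  have g4 := DDef.eq (E := Cd.const σ (Fin 3)) kk (TM.const 2)
  have g5 := DDef.eq (E := cW) (TM.fst.comp ee) ww
  have g6 := DDef.eq (E := cW) (TM.snd.comp ee) ww
  have h2 := (g1.and (g2.and ((g3.and g5).or (g4.and g6)))).exQ.exQ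
  refine (h1.or h2).congr ?_
  rintro c ⟨⟨x, y⟩, w⟩
  rcases x with x | ⟨e, k⟩ <;> rcases y with ⟨e', t | i | z⟩ | ⟨w', t | i⟩ | i <;>
    simp [rB]
  constructor
  · rintro ⟨⟨rfl, h1⟩, h⟩
    exact ⟨rfl, h1, h⟩
  · rintro ⟨rfl, h1, h⟩
    exact ⟨⟨rfl, h1⟩, h⟩

theorem ddef_rT : DDef (cCE cW cT cZ) (fun _ p => rT p.1.1 p.1.2 p.2) := by
  let Γ := ((cCE cW cT cZ).prod (Cd.const σ (Fin 3))).prod (Cd.const σ (Fin 3))
  have xx : TM Γ (cCol cW) _ := TM.fst.comp (TM.fst.comp (TM.fst.comp TM.fst))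
  have yy : TM Γ (cRow cW cT cZ) _ := TM.snd.comp (TM.fst.comp (TM.fst.comp TM.fst))
  have ee : TM Γ (cW.prod cW) _ := TM.snd.comp (TM.fst.comp TM.fst)
  have kk : TM Γ (Cd.const σ (Fin 3)) _ := TM.snd.comp TM.fst
  have ii : TM Γ (Cd.const σ (Fin 3)) _ := TM.snd
  have g1 := DDef.eq (E := cCol cW) xx (TM.inr.comp (ee.pair kk))
  have g2 := DDef.eq (E := cRow cW cT cZ) yy (TM.inr.comp (TM.inr.comp ii))
  have g3 := DDef.eq (E := Cd.const σ (Fin 3)) kk (TM.const 1)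
  have g4 := DDef.eq (E := Cd.const σ (Fin 3)) ii (TM.const 0)
  have g5 := DDef.eq (E := Cd.const σ (Fin 3)) ii (TM.const 2)
  have h := (g1.and (g2.and ((g3.and g4).or (g3.not.and g5)))).exQ.exQ
  refine h.congr ?_
  rintro c ⟨⟨x, y⟩, e⟩
  rcases x with x | ⟨e', k⟩ <;> rcases y with ⟨e'', t | i | z⟩ | ⟨w', t | i⟩ | i <;>
    simp [rT]

theorem ddef_sameC : DDef (((cCol cW).prod (cRow cW cT cZ)).prod ((cCol cW).prod (cRow cW cT cZ)))
    (fun _ p => sameC p.1 p.2) := by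
  refine (DDef.eq TM.fst TM.snd).or (DDef.or ?_ (DDef.or (DDef.and ?_ ?_) ?_))
  · exact (DDef.and (ddef_rY.comp ((TM.fst.comp TM.fst).pair TM.snd))
      (ddef_rY.comp ((TM.snd.comp TM.fst).pair TM.snd))).exQ
  · exact (ddef_rB.comp ((TM.fst.comp TM.fst).pair TM.snd)).exQ
  · exact (ddef_rB.comp ((TM.snd.comp TM.fst).pair TM.snd)).exQ
  · exact (DDef.and (ddef_rT.comp ((TM.fst.comp TM.fst).pair TM.snd))
      (ddef_rT.comp ((TM.snd.comp TM.fst).pair TM.snd))).exQ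

end

end Pool.Agent.H92.Click
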