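import Pool.Agent.H92.Click.Formula

/-!
Every PSPACE problem as a uniform Node Kayles problem.
-/

set_option linter.unusedSectionVars false

namespace Pool.Agent.H92.Click

open FirstOrder FirstOrder.Language Desc Desc.V Classical

/-- the clauses of a uniform CNF -/
def Cl {σ : FirstOrder.Language.{0, 0}} {ν K J : Type} (lit : J → Fin 3 → V.LitF σ ν K)
    (c : (ordCls σ).ι) : (J × (ν → (ordCls σ).car c)) → (K × (ν → (ordCls σ).car c)) → Bool →
    Prop := fun x p b => ∃ q, lit x.1 q c x.2 = (p, b)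

theorem pspace_kayles {σ : FirstOrder.Language.{0, 0}} (hσ : σ.IsRelational) {K' : Prob σ}
    (hK : InPSPACE K') :
    ∃ (σ' : FirstOrder.Language.{0, 0}) (hσ' : FinRel σ') (m s : ℕ) (I J : Type) (_ : Finite I)
      (_ : Finite J) (lit : J → Fin 3 → V.LitF σ (Nu m s) (BS σ' ⊕ I)),
      (∀ j p, V.DefLit (lit j p)) ∧ ∀ c : (ordCls σ).ι, K' c.1 ↔
        Wins (Sch.Mv (tlt (@vlt σ' m s I _ hσ'.2 ((ordCls σ).car c) _))
          (litR (side m s) (Cl lit c))) ∅ := by
  obtain ⟨σ', hσ', s, φ, hφ⟩ := hK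
  have hfin : Finite (Σ n, σ'.Relations n) := hσ'.2
  have hfin' := Fintype.ofFinite (Σ n, σ'.Relations n)
  let m := max (bd φ) (Finset.univ.sup (fun r : Σ n, σ'.Relations n => r.1))
  have hm1 : bd φ ≤ m := le_max_left _ _
  have hm2 : ∀ n (_ : σ'.Relations n), n ≤ m := fun n R =>
    (Finset.le_sup (f := fun r : Σ n, σ'.Relations n => r.1)
      (Finset.mem_univ (⟨n, R⟩ : Σ n, σ'.Relations n))).trans (le_max_right _ _)
  obtain ⟨I, J, hI, hJ, lit, ref, h1, h2, h3⟩ := enc_WT hσ'.1 m s φ hσ hm1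
  refine ⟨σ', hσ', m, s, I, J ⊕ Unit, hI, inferInstance, Sum.elim lit (fun _ _ => ref), ?_, ?_⟩
  · rintro (j | j) p
    · exact h1 j p
    · exact h2
  intro c
  have hne : Nonempty (Nu m s → (ordCls σ).car c) := inferInstance
  -- the matrix
  have hsat : ∀ γ, V.SatF (Sum.elim lit (fun (_ : Unit) _ => ref)) c γ ↔
      (V.SatF lit c γ ∧ ∀ v, V.holds γ (ref c v)) := by
    intro γ
    unfold V.SatF
    rw [Sum.forall]
    refine and_congr Iff.rfl ?_
    constructor
    · intro h v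
      obtain ⟨p, hp⟩ := h () v
      exact hp
    · intro h u v
      exact ⟨0, h v⟩
  have hP : ∀ γ₀, WT hσ'.1 m s φ c γ₀ ↔ ∃ γ, V.pull Sum.inl γ = γ₀ ∧
      V.SatF (Sum.elim lit (fun (_ : Unit) _ => ref)) c γ := by
    intro γ₀
    constructor
    · intro h
      obtain ⟨γ, hγ, hs⟩ := (h3 c).1 γ₀
      refine ⟨γ, hγ, (hsat γ).2 ⟨hs, fun v => ((h3 c).2 γ hs v).2 ?_⟩⟩
      rw [hγ]
      exact h
    · rintro ⟨γ, hγ, hs⟩
      obtain ⟨s1, s2⟩ := (hsat γ).1 hs
      obtain ⟨v⟩ := hne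
      have := ((h3 c).2 γ s1 v).1 (s2 v)
      rw [hγ] at this
      exact this
  -- the lists
  have hv := slo_vlt (σ' := σ') (m := m) (s := s) (I := I) (A := (ordCls σ).car c)
  have hl := slo_lexLt (s := s) (A := (ordCls σ).car c)
  obtain ⟨js, hjs1, hjs2⟩ := exists_list hl Set.univ
  choose L hLp hL using fun (x : Bool × (Fin s → (ordCls σ).car c)) =>
    exists_list hv {p | ∃ R w, p = (.inl (R, x.1), w) ∧ blk 0 w = x.2}
  obtain ⟨LA, hLA1, hLA2⟩ := exists_list hv {p | ∃ i w, p = (.inr i, w)}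
  have hround := rounds hσ'.1 m s φ (I := I) hm2 c (fun h j => L (h, j))
    (fun h j p => hL (h, j) p) js hjs1 (fun i hi => absurd ((hjs2 i).2 trivial) hi)
  set P := (js.flatMap fun j => L (false, j) ++ L (true, j)) ++ LA with hPdef
  have hPall : ∀ p, p ∈ P := by
    rintro ⟨⟨R, h⟩ | i, w⟩
    · rw [hPdef, List.mem_append, List.mem_flatMap]
      refine Or.inl ⟨blk 0 w, (hjs2 _).2 trivial, ?_⟩
      rw [List.mem_append, hL, hL]
      cases h
      · exact Or.inl ⟨R, w, rfl, rfl⟩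
      · exact Or.inr ⟨R, w, rfl, rfl⟩
    · rw [hPdef, List.mem_append]
      exact Or.inr ((hLA2 _).2 ⟨i, w, rfl⟩)
  have hPp : P.Pairwise vlt := by
    rw [hPdef, List.pairwise_append]
    refine ⟨?_, hLA1, ?_⟩
    · rw [List.pairwise_flatMap]
      refine ⟨fun j _ => ?_, hjs1.imp fun {a b} hab x hx y hy => ?_⟩
      · rw [List.pairwise_append]
        refine ⟨hLp _, hLp _, fun x hx y hy => ?_⟩
        obtain ⟨R, w, rfl, h4⟩ := (hL _ _).1 hx
        obtain ⟨R', w', rfl, h5⟩ := (hL _ _).1 hy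
        exact Or.inr ⟨h4.trans h5.symm, Or.inl ⟨rfl, rfl⟩⟩
      · have hx' : ∃ R h w, x = (.inl (R, h), w) ∧ blk 0 w = a := by
          rcases List.mem_append.1 hx with hx | hx
          · obtain ⟨R, w, rfl, h4⟩ := (hL _ _).1 hx
            exact ⟨R, false, w, rfl, h4⟩
          · obtain ⟨R, w, rfl, h4⟩ := (hL _ _).1 hx
            exact ⟨R, true, w, rfl, h4⟩
        have hy' : ∃ R h w, y = (.inl (R, h), w) ∧ blk 0 w = b := by
          rcases List.mem_append.1 hy with hy | hy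
          · obtain ⟨R, w, rfl, h4⟩ := (hL _ _).1 hy
            exact ⟨R, false, w, rfl, h4⟩
          · obtain ⟨R, w, rfl, h4⟩ := (hL _ _).1 hy
            exact ⟨R, true, w, rfl, h4⟩
        obtain ⟨R, h, w, rfl, h4⟩ := hx'
        obtain ⟨R', h', w', rfl, h5⟩ := hy'
        refine Or.inl ?_
        rw [h4, h5]
        exact hab
    · intro x hx y hy
      obtain ⟨i, w', rfl⟩ := (hLA2 _).1 hy
      rw [List.mem_flatMap] at hx
      obtain ⟨j, _, hx⟩ := hx
      rcases List.mem_append.1 hx with hx | hx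
      · obtain ⟨R, w, rfl, h4⟩ := (hL _ _).1 hx
        trivial
      · obtain ⟨R, w, rfl, h4⟩ := (hL _ _).1 hx
        trivial
  -- the formula game
  let γ0 : (BS σ' ⊕ I) × (Nu m s → (ordCls σ).car c) → Bool := fun _ => false
  have hfT : Fintype (((BS σ' ⊕ I) × (Nu m s → (ordCls σ).car c)) × Bool ⊕ Unit) :=
    Fintype.ofFinite _
  have hfJ : Fintype (((J ⊕ Unit) × (Nu m s → (ordCls σ).car c)) ⊕ Unit) := Fintype.ofFinite _
  have hmax : ∀ t : (((BS σ' ⊕ I) × (Nu m s → (ordCls σ).car c)) × Bool) ⊕ Unit,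
      t ≠ .inr () → tlt vlt t (.inr ()) := by
    rintro (t | t) ht
    · trivial
    · exact absurd rfl ht
  have hj₀ : ∀ (t : (((BS σ' ⊕ I) × (Nu m s → (ordCls σ).car c)) × Bool) ⊕ Unit) (b : Bool),
      litR (side m s) (Cl (Sum.elim lit (fun (_ : Unit) _ => ref)) c) (.inr ()) t b →
        t = .inr () := by
    rintro (t | t) b h
    · exact h.elim
    · rfl
  rw [Sch.wins_empty (slo_tlt hv) hmax hj₀ (mem_slotsOf hPall) (slotsOf_pairwise hPp)
    (fun _ => false), MM_slots, hφ c.1 c.2]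
  have hF : ∀ γ : (BS σ' ⊕ I) × (Nu m s → (ordCls σ).car c) → Bool,
      (∀ j, ∃ p b, Cl (Sum.elim lit (fun (_ : Unit) _ => ref)) c j p b ∧ γ p = b) ↔
      V.SatF (Sum.elim lit (fun (_ : Unit) _ => ref)) c γ := by
    intro γ
    constructor
    · intro h j v
      obtain ⟨p, b, ⟨q, hq⟩, hb⟩ := h (j, v)
      refine ⟨q, ?_⟩
      unfold V.holds
      rw [hq]
      exact hb
    · rintro h ⟨j, v⟩
      obtain ⟨q, hq⟩ := h j v
      exact ⟨_, _, ⟨q, rfl⟩, hq⟩
  rw [QQ_congr hF, hPdef, QQ_append]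
  have hA : ∀ γ, QQ (side m s) (V.SatF (Sum.elim lit (fun (_ : Unit) _ => ref)) c) LA γ ↔
      WT hσ'.1 m s φ c (V.pull Sum.inl γ) := by
    intro γ
    rw [QQ_ex, hP]
    · constructor
      · rintro ⟨γ', h4, h5⟩
        refine ⟨γ', ?_, h5⟩
        funext x
        refine h4 (.inl x.1, x.2) fun hc => ?_
        obtain ⟨i, w, h6⟩ := (hLA2 _).1 hc
        simp at h6
      · rintro ⟨γ', h4, h5⟩
        refine ⟨γ', ?_, h5⟩
        rintro ⟨x | i, w⟩ hp
        · exact congrFun h4 (x, w)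
        · exact absurd ((hLA2 _).2 ⟨i, w, rfl⟩) hp
    · intro p hp
      obtain ⟨i, w, rfl⟩ := (hLA2 _).1 hp
      rfl
  rw [QQ_congr hA]
  have hlen : js.length = Nat.card c.1.carrier ^ s := by
    have hnd : js.Nodup := by
      refine hjs1.imp fun {a b} hab h => ?_
      subst h
      exact hl.irr _ hab
    have hfr : Fintype (Fin s → (ordCls σ).car c) := Fintype.ofFinite _
    have h4 : js.toFinset = Finset.univ := by
      ext x
      simp [hjs2]
    have h5 := List.toFinset_card_of_nodup hnd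
    rw [h4, Finset.card_univ, ← Nat.card_eq_fintype_card, Nat.card_fun] at h5
    rw [← h5]
    simp
    rfl
  refine Iff.trans ?_ ((hround _).2.2 (fun i hi => absurd ((hjs2 i).2 trivial) hi)
    (emptyStr hσ'.1 _) ?_).symm
  · rw [hlen]
    exact Iff.rfl
  · intro j js' hjs
    have hmin : ∀ z, ¬ lexLt z j := by
      intro z hz
      have hz' : z ∈ js := (hjs2 z).2 trivial
      rw [hjs] at hz' hjs1
      rcases List.mem_cons.1 hz' with rfl | h
      · exact hl.irr _ hz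
      · exact hl.irr _ (hl.tr _ _ _ ((List.pairwise_cons.1 hjs1).1 z h) hz)
    exact ⟨fun _ => rfl, fun i hi => absurd hi.1 (hmin i)⟩

end Pool.Agent.H92.Click
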