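import Pool.Agent.H92.Click.DefB
import Pool.Agent.H92.Click.Hard1

/-!
Uniform definability of the Node Kayles graph of a formula game.
-/

set_option linter.unusedSectionVars false

namespace Pool.Agent.H92.Click

open FirstOrder FirstOrder.Language Desc Desc.V

section sch

variable {σ : FirstOrder.Language.{0, 0}} {T J : (ordCls σ).ι → Type} {cT : Cd σ T} {cJ : Cd σ J}
  {lt : ∀ c, T c → T c → Prop} (hlt : DDef (cT.prod cT) (fun c p => lt c p.1 p.2))
  {lit : ∀ c, J c → T c → Bool → Prop}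
  (hlit : DDef (cJ.prod (cT.prod (Cd.const σ Bool))) (fun c p => lit c p.1 p.2.1 p.2.2))

/-- code of the vertices -/
abbrev cSW (cT : Cd σ T) (cJ : Cd σ J) : Cd σ (fun c => SW (T c) (J c)) :=
  (cT.prod (Cd.const σ Bool)).sum ((cT.prod cT).sum (cT.sum cJ))

include hlt in
theorem ddef_schOk : DDef (cSW cT cJ) (fun c w => Sch.ok (lt c) w) := by
  refine DDef.sumU ((DDef.const True).congr fun c x => Iff.rfl) (DDef.sumU ?_
    (DDef.sumU ((DDef.const True).congr fun c x => Iff.rfl)
      ((DDef.const True).congr fun c x => Iff.rfl)))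
  exact hlt.congr fun c x => Iff.rfl

include hlt hlit in
theorem ddef_dd : DDef ((cSW cT cJ).prod (cSW cT cJ))
    (fun c p => Sch.dd (lt c) (lit c) p.1 p.2) := by
  -- literals
  have l1 : DDef ((cT.prod (Cd.const σ Bool)).prod (cSW cT cJ)) (fun c p =>
      Sch.dd (lt c) (lit c) (.inl p.1) p.2) := by
    refine DDef.sumR (P := fun c x w => Sch.dd (lt c) (lit c) (.inl x) w) ?_ (DDef.sumR
      (P := fun c x w => Sch.dd (lt c) (lit c) (.inl x) (.inr w)) ?_ (DDef.sumR
      (P := fun c x w => Sch.dd (lt c) (lit c) (.inl x) (.inr (.inr w))) ?_ ?_))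
    · exact (DDef.and (DDef.eq (TM.fst.comp TM.fst) (TM.fst.comp TM.snd))
        (DDef.eq (TM.snd.comp TM.fst) (TM.snd.comp TM.snd)).not).congr fun c x => Iff.rfl
    · exact (DDef.const False).congr fun c x => Iff.rfl
    · exact (DDef.const False).congr fun c x => Iff.rfl
    · exact (hlit.comp (TM.snd.pair TM.fst)).congr fun c x => Iff.rfl
  -- inner punishing vertices
  have l2 : DDef ((cT.prod cT).prod (cSW cT cJ)) (fun c p =>
      Sch.dd (lt c) (lit c) (.inr (.inl p.1)) p.2) := by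
    refine DDef.sumR (P := fun c x w => Sch.dd (lt c) (lit c) (.inr (.inl x)) w) ?_ (DDef.sumR
      (P := fun c x w => Sch.dd (lt c) (lit c) (.inr (.inl x)) (.inr w)) ?_ (DDef.sumR
      (P := fun c x w => Sch.dd (lt c) (lit c) (.inr (.inl x)) (.inr (.inr w))) ?_ ?_))
    · exact (DDef.and (DDef.or (hlt.comp ((TM.fst.comp TM.fst).pair (TM.fst.comp TM.snd)))
        (DDef.eq (TM.fst.comp TM.fst) (TM.fst.comp TM.snd)))
        (DDef.eq (TM.fst.comp TM.snd) (TM.snd.comp TM.fst)).not).congr fun c x => Iff.rfl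
    · exact (DDef.or (DDef.and (hlt.comp ((TM.fst.comp TM.fst).pair (TM.fst.comp TM.snd)))
        (DDef.eq (TM.fst.comp TM.snd) (TM.snd.comp TM.fst)).not)
        (DDef.and (DDef.eq (TM.fst.comp TM.fst) (TM.fst.comp TM.snd))
        (DDef.eq (TM.snd.comp TM.fst) (TM.snd.comp TM.snd)).not)).congr fun c x => Iff.rfl
    · exact (DDef.or (DDef.and (hlt.comp ((TM.fst.comp TM.fst).pair TM.snd))
        (DDef.eq TM.snd (TM.snd.comp TM.fst)).not)
        (DDef.eq (TM.fst.comp TM.fst) TM.snd)).congr fun c x => Iff.rfl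
    · exact (DDef.const True).congr fun c x => Iff.rfl
  -- the other punishing vertices
  have l3 : DDef (cT.prod (cSW cT cJ)) (fun c p =>
      Sch.dd (lt c) (lit c) (.inr (.inr (.inl p.1))) p.2) := by
    refine DDef.sumR (P := fun c x w => Sch.dd (lt c) (lit c) (.inr (.inr (.inl x))) w) ?_
      (DDef.sumR
      (P := fun c x w => Sch.dd (lt c) (lit c) (.inr (.inr (.inl x))) (.inr w)) ?_ (DDef.sumR
      (P := fun c x w => Sch.dd (lt c) (lit c) (.inr (.inr (.inl x))) (.inr (.inr w))) ?_ ?_))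
    · exact (DDef.or (hlt.comp (TM.fst.pair (TM.fst.comp TM.snd)))
        (DDef.eq TM.fst (TM.fst.comp TM.snd))).congr fun c x => Iff.rfl
    · exact (hlt.comp (TM.fst.pair (TM.fst.comp TM.snd))).congr fun c x => Iff.rfl
    · exact hlt.congr fun c x => Iff.rfl
    · exact (DDef.const False).congr fun c x => Iff.rfl
  -- clauses
  have l4 : DDef (cJ.prod (cSW cT cJ)) (fun c p =>
      Sch.dd (lt c) (lit c) (.inr (.inr (.inr p.1))) p.2) := by
    refine DDef.sumR (P := fun c x w => Sch.dd (lt c) (lit c) (.inr (.inr (.inr x))) w) ?_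
      (DDef.sumR
      (P := fun c x w => Sch.dd (lt c) (lit c) (.inr (.inr (.inr x))) (.inr w)) ?_ (DDef.sumR
      (P := fun c x w => Sch.dd (lt c) (lit c) (.inr (.inr (.inr x))) (.inr (.inr w))) ?_ ?_))
    · exact (DDef.const False).congr fun c x => Iff.rfl
    · exact (DDef.const False).congr fun c x => Iff.rfl
    · exact (DDef.const False).congr fun c x => Iff.rfl
    · exact (DDef.eq TM.fst TM.snd).not.congr fun c x => Iff.rfl
  exact DDef.sumL (P := fun c w w' => Sch.dd (lt c) (lit c) w w') l1 (DDef.sumL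
    (P := fun c w w' => Sch.dd (lt c) (lit c) (.inr w) w') l2 (DDef.sumL
    (P := fun c w w' => Sch.dd (lt c) (lit c) (.inr (.inr w)) w') l3 l4))

include hlt hlit in
theorem ddef_adj : DDef ((cSW cT cJ).prod (cSW cT cJ))
    (fun c p => Sch.adj (lt c) (lit c) p.1 p.2) := by
  have h1 := ddef_schOk (cJ := cJ) hlt
  have h2 := ddef_dd hlt hlit
  exact (DDef.and (h1.comp TM.fst) (DDef.and (h1.comp TM.snd)
    (DDef.or h2 (h2.comp (TM.snd.pair TM.fst))))).congr fun c x => Iff.rfl

end sch

end Pool.Agent.H92.Click
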