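import Pool.Agent.H92.Click.DefS

/-!
Uniform definability of the formula game of a PSPACE problem.
-/

set_option linter.unusedSectionVars false

namespace Pool.Agent.H92.Click

open FirstOrder FirstOrder.Language Desc Desc.V

variable {σ : FirstOrder.Language.{0, 0}}

theorem ddef_lexLt (s : ℕ) : DDef ((Cd.pow σ (Fin s)).prod (Cd.pow σ (Fin s)))
    (fun _ p => lexLt p.1 p.2) := fun _ => UDef_lexLt (σ := σ) Sum.inl Sum.inr

theorem ddef_tupLt (ν : Type) [Finite ν] : DDef ((Cd.pow σ ν).prod (Cd.pow σ ν))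
    (fun _ p => tupLt p.1 p.2) :=
  ((ddef_lexLt (σ := σ) _).comp (((TM.tup (enu ν)).comp TM.fst).pair
    ((TM.tup (enu ν)).comp TM.snd))).congr fun _ _ => Iff.rfl

/-- the order of tuples -/
def dPow (ν : Type) [Finite ν] : DLO (Cd.pow σ ν) where
  r _ := tupLt
  slo _ := slo_tupLt
  df := ddef_tupLt ν

section vars

variable {σ' : FirstOrder.Language.{0, 0}} {m s : ℕ} {I J : Type} [Finite I] [Finite J]
  [Finite (Σ n, σ'.Relations n)]

/-- code of the variables -/
abbrev cV (σ σ' : FirstOrder.Language.{0, 0}) (m s : ℕ) (I : Type) [Finite I]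
    [Finite (Σ n, σ'.Relations n)] :
    Cd σ (fun c => (BS σ' ⊕ I) × (Nu m s → (ordCls σ).car c)) :=
  (Cd.const σ (BS σ' ⊕ I)).prod (Cd.pow σ (Nu m s))

theorem ddef_vlt : DDef ((cV σ σ' m s I).prod (cV σ σ' m s I)) (fun _ p => vlt p.1 p.2) := by
  have h1 : ∀ a b : BS σ' ⊕ I, DDef ((cV σ σ' m s I).prod (cV σ σ' m s I))
      (fun _ p => vlt (a, p.1.2) (b, p.2.2)) := by
    have tt : DDef ((cV σ σ' m s I).prod (cV σ σ' m s I)) (fun _ p => tupLt p.1.2 p.2.2) :=
      (ddef_tupLt (σ := σ) (Nu m s)).comp ((TM.snd.comp TM.fst).pair (TM.snd.comp TM.snd))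
    rintro (⟨R, h⟩ | i) (⟨R', h'⟩ | i')
    · have b1 : TM ((cV σ σ' m s I).prod (cV σ σ' m s I)) (Cd.pow σ (Fin s))
          (fun _ p => blk 0 p.1.2) :=
        (TM.tup (σ := σ) (fun i : Fin s => (Sum.inr ((0 : Fin 3), i) : Nu m s))).comp
          (TM.snd.comp TM.fst)
      have b2 : TM ((cV σ σ' m s I).prod (cV σ σ' m s I)) (Cd.pow σ (Fin s))
          (fun _ p => blk 0 p.2.2) :=
        (TM.tup (σ := σ) (fun i : Fin s => (Sum.inr ((0 : Fin 3), i) : Nu m s))).comp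
          (TM.snd.comp TM.snd)
      exact (DDef.or ((ddef_lexLt s).comp (b1.pair b2)) (DDef.and (DDef.eq b1 b2)
        (DDef.or (DDef.const (h = false ∧ h' = true)) (DDef.and (DDef.const (h = h'))
          (DDef.or (DDef.const (someLt (Σ n, σ'.Relations n) R R'))
            (DDef.and (DDef.const (R = R')) tt)))))).congr fun c p => Iff.rfl
    · exact (DDef.const True).congr fun c p => Iff.rfl
    · exact (DDef.const False).congr fun c p => Iff.rfl
    · exact (DDef.or (DDef.const (someLt I i i')) (DDef.and (DDef.const (i = i')) tt)).congr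
        fun c p => Iff.rfl
  have h2 : ∀ a : BS σ' ⊕ I, DDef ((cV σ σ' m s I).prod (cV σ σ' m s I))
      (fun _ p => vlt (a, p.1.2) p.2) := fun a =>
    (DDef.casesF (F := BS σ' ⊕ I) (TM.fst.comp TM.snd) (h1 a)).congr fun c p => Iff.rfl
  exact (DDef.casesF (F := BS σ' ⊕ I) (TM.fst.comp TM.fst) h2).congr fun c p => Iff.rfl

/-- the order of the variables -/
def dV : DLO (cV σ σ' m s I) where
  r _ := vlt
  slo _ := slo_vlt
  df := ddef_vlt

/-- code of the slots -/
abbrev cTT (σ σ' : FirstOrder.Language.{0, 0}) (m s : ℕ) (I : Type) [Finite I]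
    [Finite (Σ n, σ'.Relations n)] :
    Cd σ (fun c => (((BS σ' ⊕ I) × (Nu m s → (ordCls σ).car c)) × Bool) ⊕ Unit) :=
  ((cV σ σ' m s I).prod (Cd.const σ Bool)).sum (Cd.const σ Unit)

theorem ddef_tlt : DDef ((cTT σ σ' m s I).prod (cTT σ σ' m s I)) (fun _ p => tlt vlt p.1 p.2) := by
  refine DDef.sumL (P := fun _ x y => tlt vlt x y) (DDef.sumR
    (P := fun _ x y => tlt vlt (.inl x) y) ?_ ?_) ?_
  · exact (DDef.or (ddef_vlt.comp ((TM.fst.comp TM.fst).pair (TM.fst.comp TM.snd)))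
      (DDef.and (DDef.eq (TM.fst.comp TM.fst) (TM.fst.comp TM.snd))
      (DDef.and (DDef.eq (E := Cd.const σ Bool) (TM.snd.comp TM.fst) (TM.const false))
        (DDef.eq (E := Cd.const σ Bool) (TM.snd.comp TM.snd) (TM.const true))))).congr
      fun c x => Iff.rfl
  · exact (DDef.const True).congr fun c x => Iff.rfl
  · exact (DDef.const False).congr fun c x => Iff.rfl

/-- code of the clauses -/
abbrev cJJ (σ : FirstOrder.Language.{0, 0}) (m s : ℕ) (J : Type) [Finite J] :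
    Cd σ (fun c => (J × (Nu m s → (ordCls σ).car c)) ⊕ Unit) :=
  ((Cd.const σ J).prod (Cd.pow σ (Nu m s))).sum (Cd.const σ Unit)

variable {lit : J → Fin 3 → V.LitF σ (Nu m s) (BS σ' ⊕ I)} (hlit : ∀ j p, V.DefLit (lit j p))

include hlit in
theorem ddef_Cl : DDef (((Cd.const σ J).prod (Cd.pow σ (Nu m s))).prod
    ((cV σ σ' m s I).prod (Cd.const σ Bool))) (fun c q => Cl lit c q.1 q.2.1 q.2.2) := by
  have h0 : ∀ (j : J) (q : Fin 3) (k : BS σ' ⊕ I) (b : Bool),
      DDef ((Cd.pow σ (Nu m s)).prod (Cd.pow σ (Nu m s)))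
        (fun c x => lit j q c x.1 = ((k, x.2), b)) := fun j q k b _ => hlit j q k b
  have h1 : ∀ (j : J) (k : BS σ' ⊕ I) (b : Bool),
      DDef (((Cd.const σ J).prod (Cd.pow σ (Nu m s))).prod
        ((cV σ σ' m s I).prod (Cd.const σ Bool)))
        (fun c x => ∃ q, lit j q c x.1.2 = ((k, x.2.1.2), b)) := fun j k b =>
    DDef.existsFin fun q => (h0 j q k b).comp ((TM.snd.comp TM.fst).pair
      (TM.snd.comp (TM.fst.comp TM.snd)))
  have h2 : ∀ (j : J) (k : BS σ' ⊕ I),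
      DDef (((Cd.const σ J).prod (Cd.pow σ (Nu m s))).prod
        ((cV σ σ' m s I).prod (Cd.const σ Bool)))
        (fun c x => ∃ q, lit j q c x.1.2 = ((k, x.2.1.2), x.2.2)) := fun j k =>
    (DDef.casesF (F := Bool) (TM.snd.comp TM.snd) (h1 j k)).congr fun c p => Iff.rfl
  have h3 : ∀ (j : J),
      DDef (((Cd.const σ J).prod (Cd.pow σ (Nu m s))).prod
        ((cV σ σ' m s I).prod (Cd.const σ Bool)))
        (fun c x => ∃ q, lit j q c x.1.2 = ((x.2.1.1, x.2.1.2), x.2.2)) := fun j =>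
    (DDef.casesF (F := BS σ' ⊕ I) (TM.fst.comp (TM.fst.comp TM.snd)) (h2 j)).congr
      fun c p => Iff.rfl
  exact (DDef.casesF (F := J) (TM.fst.comp TM.fst) h3).congr fun c p => Iff.rfl

/-- the owner of a variable depends only on its sort -/
def sideK : BS σ' ⊕ I → Bool
  | .inl (_, h) => h
  | .inr _ => false

theorem tm_side : TM (cV σ σ' m s I) (Cd.const σ Bool) (fun _ p => side m s p) := by
  have h : (fun (c : (ordCls σ).ι) (p : (BS σ' ⊕ I) × (Nu m s → (ordCls σ).car c)) =>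
      side m s p) = fun c p => sideK p.1 := by
    funext c p
    obtain ⟨⟨R, h⟩ | i, w⟩ := p <;> rfl
  rw [h]
  exact (TM.fn sideK).comp TM.fst

include hlit in
theorem ddef_litR : DDef ((cJJ σ m s J).prod ((cTT σ σ' m s I).prod (Cd.const σ Bool)))
    (fun c p => litR (side m s) (Cl lit c) p.1 p.2.1 p.2.2) := by
  let Γ0 := (cJJ σ m s J).prod ((cTT σ σ' m s I).prod (Cd.const σ Bool))
  let Γ := (((Γ0.prod ((Cd.const σ J).prod (Cd.pow σ (Nu m s)))).prod (cV σ σ' m s I)).prod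
    (Cd.const σ Bool))
  have jj : TM Γ (cJJ σ m s J) _ := TM.fst.comp (TM.fst.comp (TM.fst.comp TM.fst))
  have tt : TM Γ (cTT σ σ' m s I) _ :=
    TM.fst.comp (TM.snd.comp (TM.fst.comp (TM.fst.comp TM.fst)))
  have bb : TM Γ (Cd.const σ Bool) _ :=
    TM.snd.comp (TM.snd.comp (TM.fst.comp (TM.fst.comp TM.fst)))
  have j' : TM Γ ((Cd.const σ J).prod (Cd.pow σ (Nu m s))) _ := TM.snd.comp (TM.fst.comp TM.fst)
  have p' : TM Γ (cV σ σ' m s I) _ := TM.snd.comp TM.fst
  have h' : TM Γ (Cd.const σ Bool) _ := TM.snd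
  have g1 := DDef.eq (E := cJJ σ m s J) jj (TM.inl.comp j')
  have g2 := DDef.eq (E := cTT σ σ' m s I) tt (TM.inl.comp (p'.pair h'))
  have g3 := DDef.eq (E := Cd.const σ Bool) h' (tm_side.comp p')
  have g4 := (ddef_Cl hlit).comp (j'.pair (p'.pair bb))
  have h1 := (g1.and (g2.and (g3.and g4))).exQ.exQ.exQ
  let Δ := (Γ0.prod (Cd.const σ Unit)).prod (Cd.const σ Unit)
  have jj2 : TM Δ (cJJ σ m s J) _ := TM.fst.comp (TM.fst.comp TM.fst)
  have tt2 : TM Δ (cTT σ σ' m s I) _ := TM.fst.comp (TM.snd.comp (TM.fst.comp TM.fst))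
  have g5 := DDef.eq (E := cJJ σ m s J) jj2 (TM.inr.comp (TM.snd.comp TM.fst))
  have g6 := DDef.eq (E := cTT σ σ' m s I) tt2 (TM.inr.comp TM.snd)
  have h2 := (g5.and g6).exQ.exQ
  refine (h1.or h2).congr ?_
  rintro c ⟨j, t, b⟩
  rcases j with j | u <;> rcases t with ⟨p, h⟩ | u'
  · constructor
    · rintro (⟨j', p', h', h1, h2, h3, h4⟩ | ⟨u, u', h1, h2⟩)
      · simp only [Sum.inl.injEq, Prod.mk.injEq] at h1 h2 h3 h4
        obtain rfl := h1
        obtain ⟨rfl, rfl⟩ := h2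
        exact ⟨h3, h4⟩
      · simp at h1
    · rintro ⟨h1, h2⟩
      exact Or.inl ⟨j, p, h, rfl, rfl, h1, h2⟩
  · constructor
    · rintro (⟨j', p', h', h1, h2, h3, h4⟩ | ⟨u, u', h1, h2⟩)
      · simp at h2
      · simp at h1
    · exact fun h => h.elim
  · constructor
    · rintro (⟨j', p', h', h1, h2, h3, h4⟩ | ⟨u, u', h1, h2⟩)
      · simp at h1
      · simp at h2
    · exact fun h => h.elim
  · constructor
    · exact fun _ => trivial
    · exact fun _ => Or.inr ⟨u, u', rfl, rfl⟩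

end vars

/-- the order of the unit type -/
theorem slo_unit : SLO (fun _ _ : Unit => False) :=
  ⟨fun _ h => h, fun _ _ _ h => h.elim, fun _ _ => Or.inr (Or.inl rfl)⟩

end Pool.Agent.H92.Click
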