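import Pool.Agent.H92.Desc.Defs

/-!
Two-player Clickomania.
-/

namespace Pool.Agent.H92.Click

open FirstOrder FirstOrder.Language Desc

/-- Normal play: the player to move wins at `a` iff there is a move to some `b` such that she
wins again after every reply of the opponent. (A player without a legal move loses.) -/
inductive Wins {α : Type*} (Mv : α → α → Prop) : α → Prop
  | intro (a b : α) : Mv a b → (∀ c, Mv b c → Wins Mv c) → Wins Mv a

/-- A Clickomania board. The blocks are pairs (column, row) of the starting grid. -/
structure Board (X Y : Type) where
  /-- the first column is to the left of the second -/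
  left : X → X → Prop
  /-- the first row is below the second -/
  below : Y → Y → Prop
  /-- the two blocks have the same colour -/
  same : X × Y → X × Y → Prop

namespace Board

variable {X Y : Type} (B : Board X Y)

/-! A position is the set `S` of the blocks that are still on the board. -/

/-- Number of nonempty columns to the left of the block `b`: the column in which `b` stands after
the empty columns have been deleted. -/
noncomputable def colNo (S : Set (X × Y)) (b : X × Y) : ℕ :=
  {x | B.left x b.1 ∧ ∃ y, (x, y) ∈ S}.ncard

/-- Number of blocks below the block `b` in its column: the height of `b` after the blocks have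
fallen down. -/
noncomputable def height (S : Set (X × Y)) (b : X × Y) : ℕ :=
  {y | B.below y b.2 ∧ (b.1, y) ∈ S}.ncard

/-- Two blocks are adjacent: they share a horizontal or vertical side. -/
def Adj (S : Set (X × Y)) (b b' : X × Y) : Prop :=
  b ∈ S ∧ b' ∈ S ∧
    ((B.colNo S b = B.colNo S b' ∧
        (B.height S b = B.height S b' + 1 ∨ B.height S b' = B.height S b + 1)) ∨
      (B.height S b = B.height S b' ∧
        (B.colNo S b = B.colNo S b' + 1 ∨ B.colNo S b' = B.colNo S b + 1)))

/-- The group of the block `b`: all blocks that are reached from `b` by steps between adjacent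
blocks of the same colour. -/
def group (S : Set (X × Y)) (b : X × Y) : Set (X × Y) :=
  {b' | Relation.ReflTransGen (fun c c' => B.Adj S c c' ∧ B.same c c') b b'}

/-- A move: a group with at least two blocks is deleted. -/
def Move (S S' : Set (X × Y)) : Prop :=
  ∃ b ∈ S, (B.group S b).Nontrivial ∧ S' = S \ B.group S b

end Board

/-- Relation symbols. -/
inductive ClickRel : ℕ → Type
  | col : ClickRel 1
  | row : ClickRel 1
  | left : ClickRel 2
  | below : ClickRel 2
  | same : ClickRel 4

/-- The vocabulary of Clickomania positions. -/
def clickLang : FirstOrder.Language.{0, 0} := ⟨fun _ => Empty, ClickRel⟩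

theorem clickLang_rel : clickLang.IsRelational := fun _ => inferInstanceAs (IsEmpty Empty)

section

variable (A : FinStr clickLang)

/-- `a` is a column -/
def isCol (a : A.carrier) : Prop := @Structure.RelMap clickLang A.carrier A.str 1 ClickRel.col ![a]

/-- `a` is a row -/
def isRow (a : A.carrier) : Prop := @Structure.RelMap clickLang A.carrier A.str 1 ClickRel.row ![a]

/-- The board coded by the structure `A`. -/
def boardOf : Board A.carrier A.carrier where
  left a b := @Structure.RelMap clickLang A.carrier A.str 2 ClickRel.left ![a, b]
  below a b := @Structure.RelMap clickLang A.carrier A.str 2 ClickRel.below ![a, b]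
  same b b' := @Structure.RelMap clickLang A.carrier A.str 4 ClickRel.same ![b.1, b.2, b'.1, b'.2]

/-- The full grid. -/
def grid : Set (A.carrier × A.carrier) := {b | isCol A b.1 ∧ isRow A b.2}

end

/-- `r` is a strict linear order on the set `V`. -/
def StrictLin {X : Type} (V : Set X) (r : X → X → Prop) : Prop :=
  (∀ a ∈ V, ¬ r a a) ∧ (∀ a ∈ V, ∀ b ∈ V, ∀ c ∈ V, r a b → r b c → r a c) ∧
    ∀ a ∈ V, ∀ b ∈ V, r a b ∨ a = b ∨ r b a

/-- The structure codes a starting position: `left` is a strict linear order of the columns,
`below` is a strict linear order of the rows and `same` is an equivalence relation on the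
blocks of the full grid. -/
def IsPosition (A : FinStr clickLang) : Prop :=
  StrictLin {a | isCol A a} (boardOf A).left ∧ StrictLin {a | isRow A a} (boardOf A).below ∧
    (∀ b ∈ grid A, (boardOf A).same b b) ∧
    (∀ b ∈ grid A, ∀ b' ∈ grid A, (boardOf A).same b b' → (boardOf A).same b' b) ∧
    ∀ b ∈ grid A, ∀ b' ∈ grid A, ∀ b'' ∈ grid A,
      (boardOf A).same b b' → (boardOf A).same b' b'' → (boardOf A).same b b''

/-- The decision problem: does the first player win two-player Clickomania from the given
starting position? -/
def Clickomania : Prob clickLang := fun A => IsPosition A ∧ Wins (boardOf A).Move (grid A)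

end Pool.Agent.H92.Click
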