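import Pool.Agent.H92.Click.Geo4

/-!
Schaefer's reduction: quantified Boolean formulas as Node Kayles positions.
-/

namespace Pool.Agent.H92.Click

open Classical

/-- the player to move wins the formula game with remaining slots `l` -/
def MM {T J : Type} (lit : J → T → Bool → Prop) : List T → (T → Bool) → Prop
  | [], β => ∃ j, ∀ t b, lit j t b → β t ≠ b
  | t :: l, β => ∃ b, ¬ MM lit l (Function.update β t b)

/-- vertices of the graph: literals, inner punishing vertices, punishing vertices for the
clause layer, clauses -/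
abbrev SW (T J : Type) := (T × Bool) ⊕ ((T × T) ⊕ (T ⊕ J))

namespace Sch

variable {T J : Type} (lt : T → T → Prop) (lit : J → T → Bool → Prop)

/-- valid vertices -/
def ok : SW T J → Prop
  | .inr (.inl (t, s)) => lt t s
  | _ => True

/-- half of the adjacency relation -/
def dd : SW T J → SW T J → Prop
  | .inl (t, b), .inl (t', b') => t = t' ∧ b ≠ b'
  | .inl (t, b), .inr (.inr (.inr j)) => lit j t b
  | .inr (.inl (t, s)), .inl (t', _) => (lt t t' ∨ t = t') ∧ t' ≠ s
  | .inr (.inl (t, s)), .inr (.inl (t', s')) => (lt t t' ∧ t' ≠ s) ∨ (t = t' ∧ s ≠ s')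
  | .inr (.inl (t, s)), .inr (.inr (.inl t')) => (lt t t' ∧ t' ≠ s) ∨ t = t'
  | .inr (.inl _), .inr (.inr (.inr _)) => True
  | .inr (.inr (.inl t)), .inl (t', _) => lt t t' ∨ t = t'
  | .inr (.inr (.inl t)), .inr (.inl (t', _)) => lt t t'
  | .inr (.inr (.inl t)), .inr (.inr (.inl t')) => lt t t'
  | .inr (.inr (.inr j)), .inr (.inr (.inr j')) => j ≠ j'
  | _, _ => False

/-- adjacency -/
def adj (w w' : SW T J) : Prop := ok lt w ∧ ok lt w' ∧ (dd lt lit w w' ∨ dd lt lit w' w)

variable {lt lit}

theorem adj_symm {w w' : SW T J} (h : adj lt lit w w') : adj lt lit w' w :=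
  ⟨h.2.1, h.1, h.2.2.symm⟩

theorem adj_irr (hlt : SLO lt) (w : SW T J) : ¬ adj lt lit w w := by
  rintro ⟨_, _, h⟩
  have h1 : dd lt lit w w := h.elim _root_.id _root_.id
  rcases w with ⟨t, b⟩ | ⟨t, s⟩ | t | j
  · exact h1.2 rfl
  · rcases h1 with h1 | h1
    · exact hlt.irr _ h1.1
    · exact h1.2 rfl
  · exact hlt.irr _ h1
  · exact h1 rfl

/-- the layer of a vertex -/
def layer : SW T J → Option T
  | .inl (t, _) => some t
  | .inr (.inl (t, _)) => some t
  | .inr (.inr (.inl t)) => some t
  | .inr (.inr (.inr _)) => none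

/-- the vertex of layer `t` that spares the layer `a` -/
def yn (J : Type) (t : T) : Option T → SW T J
  | some s => .inr (.inl (t, s))
  | none => .inr (.inr (.inl t))

/-- strict order on layers -/
def ltL (lt : T → T → Prop) (t : T) : Option T → Prop
  | some s => lt t s
  | none => True

theorem ok_yn {t : T} {a : Option T} (h : ltL lt t a) : ok lt (yn J t a) := by
  rcases a with _ | s
  · trivial
  · exact h

theorem layer_yn (t : T) (a : Option T) : layer (yn J t a) = some t := by
  rcases a with _ | s <;> rfl

/-- layers are cliques -/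
theorem clique (hlt : SLO lt) {w w' : SW T J} (hw : ok lt w) (hw' : ok lt w') (hne : w ≠ w')
    (h : layer w = layer w') : adj lt lit w w' := by
  refine ⟨hw, hw', ?_⟩
  have hirr : ∀ t s : T, lt t s → t ≠ s := by
    rintro t s h rfl
    exact hlt.irr _ h
  rcases w with ⟨t, b⟩ | ⟨t, s⟩ | t | j <;> rcases w' with ⟨t', b'⟩ | ⟨t', s'⟩ | t' | j'
  all_goals simp only [layer, Option.some.injEq, reduceCtorEq] at h
  · subst h
    exact Or.inl ⟨rfl, fun h => hne (by rw [h])⟩
  · subst h
    exact Or.inr ⟨Or.inr rfl, hirr _ _ hw'⟩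
  · subst h
    exact Or.inr (Or.inr rfl)
  · subst h
    exact Or.inl ⟨Or.inr rfl, hirr _ _ hw⟩
  · subst h
    exact Or.inl (Or.inr ⟨rfl, fun h => hne (by rw [h])⟩)
  · subst h
    exact Or.inl (Or.inr rfl)
  · subst h
    exact Or.inl (Or.inr rfl)
  · subst h
    exact Or.inr (Or.inr rfl)
  · subst h
    exact absurd rfl hne
  · exact Or.inl fun h => hne (by rw [h])

theorem adj_yn {t : T} {a : Option T} (ha : ltL lt t a) {w : SW T J} (hw : ok lt w)
    (h : ltL lt t (layer w)) (hne : layer w ≠ a) : adj lt lit (yn J t a) w := by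
  refine ⟨ok_yn ha, hw, Or.inl ?_⟩
  rcases a with _ | s <;> rcases w with ⟨t', b'⟩ | ⟨t', s'⟩ | t' | j'
  · exact Or.inl h
  · exact h
  · exact h
  · exact absurd rfl hne
  · exact ⟨Or.inl h, fun h' => hne (by rw [← h']; rfl)⟩
  · exact Or.inl ⟨h, fun h' => hne (by rw [← h']; rfl)⟩
  · exact Or.inl ⟨h, fun h' => hne (by rw [← h']; rfl)⟩
  · trivial

theorem not_adj_yn (hlt : SLO lt) {t : T} {a : Option T} (ha : ltL lt t a) {w : SW T J}
    (h : layer w = a) : ¬ adj lt lit (yn J t a) w := by
  rintro ⟨_, _, hh⟩
  subst h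
  have hirr : ∀ t s : T, lt t s → t ≠ s := by
    rintro t s h rfl
    exact hlt.irr _ h
  have hasym : ∀ t s : T, lt t s → ¬ lt s t := fun t s h h' => hlt.irr _ (hlt.tr _ _ _ h h')
  rcases w with ⟨t', b'⟩ | ⟨t', s'⟩ | t' | j'
  · rcases hh with hh | hh
    · exact hh.2 rfl
    · exact hh
  · rcases hh with hh | hh
    · rcases hh with hh | hh
      · exact hh.2 rfl
      · exact hirr _ _ ha hh.1
    · rcases hh with hh | hh
      · exact hasym _ _ ha hh.1
      · exact hirr _ _ ha hh.1.symm
  · rcases hh with hh | hh
    · rcases hh with hh | hh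
      · exact hh.2 rfl
      · exact hirr _ _ ha hh
    · exact hasym _ _ ha hh
  · rcases hh with hh | hh
    · exact hh
    · exact hh

/-- a literal of a lower layer is adjacent only to clauses -/
theorem not_adj_low (hlt : SLO lt) {t : T} {b : Bool} {w : SW T J} (h : ltL lt t (layer w))
    (hj : ∀ j, w = .inr (.inr (.inr j)) → ¬ lit j t b) : ¬ adj lt lit (.inl (t, b)) w := by
  rintro ⟨_, _, hh⟩
  have hirr : ∀ t s : T, lt t s → t ≠ s := by
    rintro t s h rfl
    exact hlt.irr _ h
  have hasym : ∀ t s : T, lt t s → ¬ lt s t := fun t s h h' => hlt.irr _ (hlt.tr _ _ _ h h')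
  rcases w with ⟨t', b'⟩ | ⟨t', s'⟩ | t' | j'
  · rcases hh with hh | hh
    · exact hirr _ _ h hh.1
    · exact hirr _ _ h hh.1.symm
  · rcases hh with hh | hh
    · exact hh
    · rcases hh.1 with h1 | h1
      · exact hasym _ _ h h1
      · exact hirr _ _ h h1.symm
  · rcases hh with hh | hh
    · exact hh
    · rcases hh with h1 | h1
      · exact hasym _ _ h h1
      · exact hirr _ _ h h1.symm
  · rcases hh with hh | hh
    · exact hj _ rfl hh
    · exact hh

variable [Fintype T] [Fintype J]

/-- the chosen vertices when the slots `l` remain -/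
noncomputable def st (J : Type) [Fintype J] (l : List T) (β : T → Bool) : Finset (SW T J) :=
  Finset.univ.filter (fun w => ∃ t, t ∉ l ∧ w = .inl (t, β t))

theorem mem_st {l : List T} {β : T → Bool} {w : SW T J} :
    w ∈ st J l β ↔ ∃ t, t ∉ l ∧ w = .inl (t, β t) := by
  simp [st]

/-- legal vertices -/
theorem legal_iff (hlt : SLO lt) {l : List T} (hl : ∀ t, t ∉ l → ∀ t' ∈ l, lt t t')
    {β : T → Bool} {w : SW T J} (hw : ok lt w) :
    (w ∉ st J l β ∧ ∀ u ∈ st J l β, ¬ adj lt lit u w) ↔
      ((∀ t, layer w = some t → t ∈ l) ∧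
        ∀ j, w = .inr (.inr (.inr j)) → ∀ t, t ∉ l → ¬ lit j t (β t)) := by
  constructor
  · rintro ⟨h1, h2⟩
    constructor
    · intro t ht
      by_contra hcon
      have h3 : (.inl (t, β t) : SW T J) ∈ st J l β := mem_st.2 ⟨t, hcon, rfl⟩
      by_cases h4 : (.inl (t, β t) : SW T J) = w
      · exact h1 (h4 ▸ h3)
      · exact h2 _ h3 (clique hlt trivial hw h4 ht.symm)
    · rintro j rfl t ht hlit
      exact h2 _ (mem_st.2 ⟨t, ht, rfl⟩) ⟨trivial, trivial, Or.inl hlit⟩
  · rintro ⟨h1, h2⟩
    constructor
    · intro h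
      obtain ⟨t, ht, rfl⟩ := mem_st.1 h
      exact ht (h1 t rfl)
    · intro u hu
      obtain ⟨t, ht, rfl⟩ := mem_st.1 hu
      refine not_adj_low hlt ?_ fun j hj => h2 j hj t ht
      cases hlay : layer w with
      | none => trivial
      | some t' => exact hl t ht t' (h1 t' hlay)

/-- the move relation -/
abbrev Mv (lt : T → T → Prop) (lit : J → T → Bool → Prop) :
    Finset (SW T J) → Finset (SW T J) → Prop := NK (ok lt) (adj lt lit)

theorem win_iff (I : Finset (SW T J)) :
    Wins (Mv lt lit) I ↔ ∃ w, ok lt w ∧ w ∉ I ∧ (∀ u ∈ I, ¬ adj lt lit u w) ∧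
      ¬ Wins (Mv lt lit) (insert w I) := by
  have h := wins_iff_not (Mv := Mv lt lit) (fun I : Finset (SW T J) => Iᶜ.card)
    (fun I I' => nk_card I I') I
  rw [h]
  constructor
  · rintro ⟨I', h1, h2⟩
    obtain ⟨w, h3, h4, h5, rfl⟩ := nk_iff.1 h1
    exact ⟨w, h3, h4, h5, h2⟩
  · rintro ⟨w, h3, h4, h5, h2⟩
    exact ⟨_, nk_iff.2 ⟨w, h3, h4, h5, rfl⟩, h2⟩

/-- a punishing vertex and a vertex of the spared layer leave no move -/
theorem kill (hlt : SLO lt) {t : T} {l : List T} (hl : ∀ t', t' ∉ t :: l → lt t' t)
    (hl' : ∀ t' ∈ l, lt t t') {β : T → Bool} {a : Option T} (ha : ltL lt t a) {z : SW T J}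
    (hz : ok lt z) (hza : layer z = a) {I : Finset (SW T J)} (hI : st J (t :: l) β ⊆ I)
    (h1 : yn J t a ∈ I) (h2 : z ∈ I) : ¬ Wins (Mv lt lit) I := by
  rw [win_iff]
  rintro ⟨w, hw, hw1, hw2, _⟩
  have hall : ∀ t', t' ∉ t :: l → ∀ t'' ∈ t :: l, lt t' t'' := by
    intro t' ht' t'' ht''
    rcases List.mem_cons.1 ht'' with rfl | h3
    · exact hl _ ht'
    · exact hlt.tr _ _ _ (hl _ ht') (hl' _ h3)
  have hleg := (legal_iff (lit := lit) hlt hall (β := β) hw).1
    ⟨fun h => hw1 (hI h), fun u hu => hw2 u (hI hu)⟩
  by_cases e1 : layer w = a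
  · exact hw2 z h2 (clique hlt hz hw (fun h => hw1 (h ▸ h2)) (hza.trans e1.symm))
  · by_cases e2 : layer w = some t
    · exact hw2 _ h1 (clique hlt (ok_yn ha) hw (fun h => hw1 (h ▸ h1))
        ((layer_yn t a).trans e2.symm))
    · refine hw2 _ h1 (adj_yn ha hw ?_ e1)
      cases hlay : layer w with
      | none => trivial
      | some t' =>
        have h3 := hleg.1 t' hlay
        rcases List.mem_cons.1 h3 with rfl | h3
        · exact absurd hlay e2
        · exact hl' _ h3

theorem st_update {t : T} {l : List T} (ht : t ∉ l) (β : T → Bool) (b : Bool) :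
    insert (.inl (t, b)) (st J (t :: l) β) = st J l (Function.update β t b) := by
  ext w
  rw [Finset.mem_insert, mem_st, mem_st]
  constructor
  · rintro (rfl | ⟨t', h1, rfl⟩)
    · exact ⟨t, ht, by rw [Function.update_self]⟩
    · rw [List.mem_cons, not_or] at h1
      exact ⟨t', h1.2, by rw [Function.update_of_ne h1.1]⟩
  · rintro ⟨t', h1, rfl⟩
    by_cases h2 : t' = t
    · subst h2
      exact Or.inl (by rw [Function.update_self])
    · exact Or.inr ⟨t', by simp [h1, h2], by rw [Function.update_of_ne h2]⟩

/-- The Node Kayles position with the remaining slots `l`. -/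
theorem wins_st (hlt : SLO lt) {last : T} (hmax : ∀ t, t ≠ last → lt t last) {j₀ : J}
    (hj₀ : ∀ t b, lit j₀ t b → t = last) :
    ∀ (l : List T), (∀ t, t ∉ l → ∀ t' ∈ l, lt t t') → l.Pairwise lt → ∀ β : T → Bool,
      (Wins (Mv lt lit) (st J l β) ↔ MM lit l β)
  | [], hl, _, β => by
    rw [win_iff]
    constructor
    · rintro ⟨w, hw, hw1, hw2, _⟩
      have hleg := (legal_iff (lit := lit) hlt hl (β := β) hw).1 ⟨hw1, hw2⟩
      cases hlay : layer w with
      | some t => exact absurd (hleg.1 t hlay) (by simp)
      | none =>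
        rcases w with ⟨t', b'⟩ | ⟨t', s'⟩ | t' | j
        · simp [layer] at hlay
        · simp [layer] at hlay
        · simp [layer] at hlay
        · exact ⟨j, fun t b h1 h2 => hleg.2 j rfl t (by simp) (by rw [h2]; exact h1)⟩
    · rintro ⟨j, hj⟩
      have hok : ok lt (.inr (.inr (.inr j)) : SW T J) := trivial
      have hleg := (legal_iff (lit := lit) hlt hl (β := β) hok).2 ⟨by simp [layer], by
          intro j' hj' t _ h
          simp only [Sum.inr.injEq] at hj'
          subst hj'
          exact hj t _ h rfl⟩
      refine ⟨_, hok, hleg.1, hleg.2, ?_⟩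
      rw [win_iff]
      rintro ⟨w, hw, hw1, hw2, _⟩
      have hleg' := (legal_iff (lit := lit) hlt hl (β := β) hw).1
        ⟨fun h => hw1 (Finset.mem_insert_of_mem h), fun u hu => hw2 u (Finset.mem_insert_of_mem hu)⟩
      cases hlay : layer w with
      | some t => exact absurd (hleg'.1 t hlay) (by simp)
      | none =>
        refine hw2 _ (Finset.mem_insert_self _ _) (clique hlt hok hw ?_ hlay.symm)
        intro h
        exact hw1 (h ▸ Finset.mem_insert_self _ _)
  | t :: l, hl, hp, β => by
    have hl1 : ∀ t', t' ∉ t :: l → lt t' t := fun t' h => hl t' h t (by simp)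
    have hl2 : ∀ t' ∈ l, lt t t' := (List.pairwise_cons.1 hp).1
    have hnot : t ∉ l := fun h => hlt.irr _ (hl2 t h)
    have hlast : last ∈ t :: l := by
      by_contra hcon
      have h1 := hl1 _ hcon
      by_cases h2 : t = last
      · rw [h2] at h1
        exact hlt.irr _ h1
      · exact hlt.irr _ (hlt.tr _ _ _ h1 (hmax _ h2))
    have ih := wins_st hlt hmax hj₀ l (by
      intro t' ht' t'' ht''
      by_cases h : t' = t
      · rw [h]
        exact hl2 _ ht''
      · exact hl t' (by simp [h, ht']) t'' (by simp [ht''])) (List.pairwise_cons.1 hp).2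
    rw [win_iff]
    constructor
    · rintro ⟨w, hw, hw1, hw2, hlose⟩
      have hleg := (legal_iff (lit := lit) hlt hl (β := β) hw).1 ⟨hw1, hw2⟩
      by_contra hcon
      apply hlose
      rw [win_iff]
      -- the vertex that punishes `w`
      have hreply : ∀ a : Option T, ltL lt t a → layer w = a → ∃ w', ok lt w' ∧
          w' ∉ insert w (st J (t :: l) β) ∧
          (∀ u ∈ insert w (st J (t :: l) β), ¬ adj lt lit u w') ∧
          ¬ Wins (Mv lt lit) (insert w' (insert w (st J (t :: l) β))) := by
        intro a ha hwa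
        have h1 := (legal_iff (lit := lit) hlt hl (β := β) (ok_yn (J := J) ha)).2 ⟨by
          intro t' ht'
          rw [layer_yn] at ht'
          obtain rfl := Option.some.inj ht'
          simp, by
          intro j hj
          have := congrArg layer hj
          rw [layer_yn] at this
          simp [layer] at this⟩
        have hne : yn J t a ≠ w := by
          intro h
          have := congrArg layer h
          rw [layer_yn, hwa] at this
          subst this
          exact hlt.irr _ ha
        refine ⟨yn J t a, ok_yn ha, ?_, ?_, ?_⟩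
        · rw [Finset.mem_insert, not_or]
          exact ⟨hne, h1.1⟩
        · intro u hu
          rcases Finset.mem_insert.1 hu with rfl | hu
          · exact fun h => not_adj_yn hlt ha hwa (adj_symm h)
          · exact h1.2 u hu
        · refine kill hlt hl1 hl2 (β := β) ha hw hwa ?_ ?_ ?_
          · exact (Finset.subset_insert _ _).trans (Finset.subset_insert _ _)
          · exact Finset.mem_insert_self _ _
          · exact Finset.mem_insert_of_mem (Finset.mem_insert_self _ _)
      cases hlay : layer w with
      | none => exact hreply none trivial hlay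
      | some t' =>
        rcases List.mem_cons.1 (hleg.1 t' hlay) with rfl | h3
        · -- `w` is in the current layer
          have hspare : ∀ a : Option T, ltL lt t' a → w = yn J t' a → ∃ w', ok lt w' ∧
              w' ∉ insert w (st J (t' :: l) β) ∧
              (∀ u ∈ insert w (st J (t' :: l) β), ¬ adj lt lit u w') ∧
              ¬ Wins (Mv lt lit) (insert w' (insert w (st J (t' :: l) β))) := by
            intro a ha hwa
            -- a vertex of the spared layer
            obtain ⟨z, hz, hza, hzl, hzj⟩ : ∃ z : SW T J, ok lt z ∧ layer z = a ∧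
                (∀ t, layer z = some t → t ∈ t' :: l) ∧
                ∀ j, z = .inr (.inr (.inr j)) → ∀ t, t ∉ t' :: l → ¬ lit j t (β t) := by
              rcases a with _ | s
              · refine ⟨.inr (.inr (.inr j₀)), trivial, rfl, by simp [layer], ?_⟩
                intro j hj t ht hlit
                simp only [Sum.inr.injEq] at hj
                subst hj
                rw [hj₀ _ _ hlit] at ht
                exact ht hlast
              · refine ⟨.inl (s, true), trivial, rfl, ?_, by simp⟩
                intro t ht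
                simp only [layer, Option.some.injEq] at ht
                subst ht
                by_contra hcon
                exact hlt.irr _ (hlt.tr _ _ _ ha (hl1 _ hcon))
            have h1 := (legal_iff (lit := lit) hlt hl (β := β) hz).2 ⟨hzl, hzj⟩
            have hne : z ≠ w := by
              intro h
              rw [h, hwa, layer_yn] at hza
              subst hza
              exact hlt.irr _ ha
            refine ⟨z, hz, ?_, ?_, ?_⟩
            · rw [Finset.mem_insert, not_or]
              exact ⟨hne, h1.1⟩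
            · intro u hu
              rcases Finset.mem_insert.1 hu with rfl | hu
              · rw [hwa]
                exact not_adj_yn hlt ha hza
              · exact h1.2 u hu
            · refine kill hlt hl1 hl2 (β := β) ha hz hza ?_ ?_ ?_
              · exact (Finset.subset_insert _ _).trans (Finset.subset_insert _ _)
              · rw [← hwa]
                exact Finset.mem_insert_of_mem (Finset.mem_insert_self _ _)
              · exact Finset.mem_insert_self _ _
          rcases w with ⟨t, b⟩ | ⟨t, s⟩ | t | j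
          · simp only [layer, Option.some.injEq] at hlay
            subst hlay
            exfalso
            apply hcon
            refine ⟨b, ?_⟩
            rw [← ih, ← st_update hnot]
            exact hlose
          · simp only [layer, Option.some.injEq] at hlay
            subst hlay
            exact hspare (some s) hw rfl
          · simp only [layer, Option.some.injEq] at hlay
            subst hlay
            exact hspare none trivial rfl
          · simp [layer] at hlay
        · exact hreply (some t') (hl2 _ h3) hlay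
    · rintro ⟨b, hb⟩
      rw [← ih] at hb
      have hok : ok lt (.inl (t, b) : SW T J) := trivial
      have hleg := (legal_iff (lit := lit) hlt hl (β := β) hok).2
        ⟨by simp [layer], by simp⟩
      refine ⟨_, hok, hleg.1, hleg.2, ?_⟩
      rwa [st_update hnot]

/-- The first player wins Node Kayles iff she wins the formula game. -/
theorem wins_empty (hlt : SLO lt) {last : T} (hmax : ∀ t, t ≠ last → lt t last) {j₀ : J}
    (hj₀ : ∀ t b, lit j₀ t b → t = last) {l : List T} (hl : ∀ t, t ∈ l) (hp : l.Pairwise lt)
    (β : T → Bool) : Wins (Mv lt lit) (∅ : Finset (SW T J)) ↔ MM lit l β := by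
  rw [← wins_st hlt hmax hj₀ l (fun t ht => absurd (hl t) ht) hp β]
  have : st J l β = ∅ := by
    ext w
    rw [mem_st]
    simp [hl]
  rw [this]

/-- there are always two more vertices -/
theorem spare (hlt : SLO lt) (t : T) (I : Finset (SW T J))
    (hI : ∀ u ∈ I, ∀ v ∈ I, ¬ adj lt lit u v) (w : SW T J) :
    ∃ z, ok lt z ∧ z ≠ w ∧ z ∉ I := by
  by_contra hcon
  push Not at hcon
  have h1 : adj lt lit (.inl (t, true) : SW T J) (.inl (t, false)) :=
    clique hlt trivial trivial (by simp) rfl
  have h2 : adj lt lit (.inl (t, true) : SW T J) (.inr (.inr (.inl t))) :=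
    clique hlt trivial trivial (by simp) rfl
  have h3 : adj lt lit (.inl (t, false) : SW T J) (.inr (.inr (.inl t))) :=
    clique hlt trivial trivial (by simp) rfl
  have k1 : (.inl (t, true) : SW T J) ≠ w → (.inl (t, true) : SW T J) ∈ I := hcon _ trivial
  have k2 : (.inl (t, false) : SW T J) ≠ w → (.inl (t, false) : SW T J) ∈ I := hcon _ trivial
  have k3 : (.inr (.inr (.inl t)) : SW T J) ≠ w → (.inr (.inr (.inl t)) : SW T J) ∈ I :=
    hcon _ trivial
  by_cases e1 : (.inl (t, true) : SW T J) = w
  · refine hI _ (k2 ?_) _ (k3 ?_) h3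
    · rw [← e1]; simp
    · rw [← e1]; simp
  · by_cases e2 : (.inl (t, false) : SW T J) = w
    · refine hI _ (k1 ?_) _ (k3 ?_) h2
      · rw [← e2]; simp
      · rw [← e2]; simp
    · exact hI _ (k1 e1) _ (k2 e2) h1

end Sch

end Pool.Agent.H92.Click
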