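import Pool.Agent.H92.Desc.AltGame
import Pool.Agent.H92.Click.Schaefer

/-!
Every PSPACE problem as a uniform formula game.
-/

set_option linter.unusedSectionVars false

namespace Pool.Agent.H92.Click

open FirstOrder FirstOrder.Language Desc Desc.V Classical

/-! lists from strict linear orders -/

theorem exists_list {X : Type} [Finite X] {r : X → X → Prop} (hr : SLO r) (V : Set X) :
    ∃ l : List X, l.Pairwise r ∧ ∀ x, x ∈ l ↔ x ∈ V := by
  have hfin := Fintype.ofFinite X
  have key : ∀ n, ∀ V : Finset X, V.card = n → ∃ l : List X, l.Pairwise r ∧ ∀ x, x ∈ l ↔ x ∈ V := by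
    intro n
    induction n with
    | zero =>
      intro V hV
      rw [Finset.card_eq_zero] at hV
      subst hV
      exact ⟨[], List.Pairwise.nil, by simp⟩
    | succ n ih =>
      intro V hV
      have hne : V.Nonempty := Finset.card_pos.1 (by omega)
      obtain ⟨x, hx, hmin⟩ := Finset.exists_min_image V (SLO.rank r (↑V : Set X)) hne
      obtain ⟨l, h1, h2⟩ := ih (V.erase x) (by rw [Finset.card_erase_of_mem hx]; omega)
      refine ⟨x :: l, List.pairwise_cons.2 ⟨fun y hy => ?_, h1⟩, fun y => ?_⟩
      · rw [h2, Finset.mem_erase] at hy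
        rcases hr.tri x y with h | h | h
        · exact h
        · exact absurd h.symm hy.1
        · exact absurd (hmin y hy.2) (not_le.2 (hr.rank_lt (↑V : Set X) hy.2 h))
      · rw [List.mem_cons, h2, Finset.mem_erase]
        constructor
        · rintro (rfl | h)
          · exact hx
          · exact h.2
        · intro hy
          by_cases h : y = x
          · exact Or.inl h
          · exact Or.inr ⟨h, hy⟩
  obtain ⟨l, h1, h2⟩ := key _ (Finset.univ.filter (· ∈ V)) rfl
  exact ⟨l, h1, fun x => by rw [h2]; simp⟩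

theorem slo_exists (X : Type) [Finite X] : ∃ r : X → X → Prop, SLO r := by
  obtain ⟨n, ⟨e⟩⟩ := Finite.exists_equiv_fin X
  refine ⟨fun x y => e x < e y, ⟨fun x => lt_irrefl _, fun _ _ _ h h' => lt_trans h h',
    fun x y => ?_⟩⟩
  rcases lt_trichotomy (e x) (e y) with h | h | h
  · exact Or.inl h
  · exact Or.inr (Or.inl (e.injective h))
  · exact Or.inr (Or.inr h)

/-- some strict linear order of a finite type -/
noncomputable def someLt (X : Type) [Finite X] : X → X → Prop := (slo_exists X).choose

theorem slo_someLt (X : Type) [Finite X] : SLO (someLt X) := (slo_exists X).choose_spec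

/-- an enumeration -/
noncomputable def enu (ν : Type) [Finite ν] : Fin (Finite.exists_equiv_fin ν).choose ≃ ν :=
  (Finite.exists_equiv_fin ν).choose_spec.some.symm

/-- a definable order of tuples -/
def tupLt {ν : Type} [Finite ν] {A : Type} [LinearOrder A] (x y : ν → A) : Prop :=
  lexLt (x ∘ enu ν) (y ∘ enu ν)

theorem slo_tupLt {ν : Type} [Finite ν] {A : Type} [LinearOrder A] :
    SLO (tupLt (ν := ν) (A := A)) := by
  refine ⟨fun x => slo_lexLt.irr _, fun x y z => slo_lexLt.tr _ _ _, fun x y => ?_⟩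
  rcases slo_lexLt.tri (x ∘ enu ν) (y ∘ enu ν) with h | h | h
  · exact Or.inl h
  · refine Or.inr (Or.inl (funext fun i => ?_))
    have := congrFun h ((enu ν).symm i)
    simpa using this
  · exact Or.inr (Or.inr h)

section order

variable {σ' : FirstOrder.Language.{0, 0}} {m s : ℕ} {I : Type} [Finite I]
  [Finite (Σ n, σ'.Relations n)]

/-- the order of the variables -/
def vlt {A : Type} [LinearOrder A] :
    (BS σ' ⊕ I) × (Nu m s → A) → (BS σ' ⊕ I) × (Nu m s → A) → Prop
  | (.inl (R, h), w), (.inl (R', h'), w') => lexLt (blk 0 w) (blk 0 w') ∨ (blk 0 w = blk 0 w' ∧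
      ((h = false ∧ h' = true) ∨ (h = h' ∧ (someLt (Σ n, σ'.Relations n) R R' ∨
        (R = R' ∧ tupLt w w')))))
  | (.inl _, _), (.inr _, _) => True
  | (.inr _, _), (.inl _, _) => False
  | (.inr i, w), (.inr i', w') => someLt I i i' ∨ (i = i' ∧ tupLt w w')

theorem slo_vlt {A : Type} [LinearOrder A] : SLO (vlt (σ' := σ') (m := m) (s := s) (I := I)
    (A := A)) := by
  have hl := slo_lexLt (s := s) (A := A)
  have ht := slo_tupLt (ν := Nu m s) (A := A)
  have hR := slo_someLt (Σ n, σ'.Relations n)
  have hI := slo_someLt I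
  refine ⟨?_, ?_, ?_⟩
  · rintro ⟨⟨R, h⟩ | i, w⟩
    · rintro (h1 | ⟨_, h1 | ⟨_, h1 | ⟨_, h1⟩⟩⟩)
      · exact hl.irr _ h1
      · rw [h1.1] at h1
        exact absurd h1.2 (by simp)
      · exact hR.irr _ h1
      · exact ht.irr _ h1
    · rintro (h1 | ⟨_, h1⟩)
      · exact hI.irr _ h1
      · exact ht.irr _ h1
  · rintro ⟨⟨R, h⟩ | i, w⟩ ⟨⟨R', h'⟩ | i', w'⟩ ⟨⟨R'', h''⟩ | i'', w''⟩
    · rintro (h1 | ⟨h1, h2⟩) (h3 | ⟨h3, h4⟩)
      · exact Or.inl (hl.tr _ _ _ h1 h3)
      · exact Or.inl (h3 ▸ h1)
      · exact Or.inl (h1 ▸ h3)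
      · refine Or.inr ⟨h1.trans h3, ?_⟩
        rcases h2 with ⟨rfl, rfl⟩ | ⟨rfl, h2⟩ <;> rcases h4 with ⟨h5, rfl⟩ | ⟨rfl, h4⟩
        · simp at h5
        · exact Or.inl ⟨rfl, rfl⟩
        · exact Or.inl ⟨h5, rfl⟩
        · refine Or.inr ⟨rfl, ?_⟩
          rcases h2 with h2 | ⟨rfl, h2⟩ <;> rcases h4 with h4 | ⟨rfl, h4⟩
          · exact Or.inl (hR.tr _ _ _ h2 h4)
          · exact Or.inl h2
          · exact Or.inl h4
          · exact Or.inr ⟨rfl, ht.tr _ _ _ h2 h4⟩
    · exact fun _ _ => trivial
    · exact fun _ h => h.elim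
    · exact fun _ _ => trivial
    · exact fun h _ => h.elim
    · exact fun h _ => h.elim
    · exact fun _ h => h.elim
    · rintro (h1 | ⟨rfl, h1⟩) (h3 | ⟨rfl, h3⟩)
      · exact Or.inl (hI.tr _ _ _ h1 h3)
      · exact Or.inl h1
      · exact Or.inl h3
      · exact Or.inr ⟨rfl, ht.tr _ _ _ h1 h3⟩
  · rintro ⟨⟨R, h⟩ | i, w⟩ ⟨⟨R', h'⟩ | i', w'⟩
    · rcases hl.tri (blk 0 w) (blk 0 w') with h1 | h1 | h1
      · exact Or.inl (Or.inl h1)
      · by_cases hh : h = h'
        · subst hh
          rcases hR.tri R R' with h2 | h2 | h2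
          · exact Or.inl (Or.inr ⟨h1, Or.inr ⟨rfl, Or.inl h2⟩⟩)
          · subst h2
            rcases ht.tri w w' with h3 | h3 | h3
            · exact Or.inl (Or.inr ⟨h1, Or.inr ⟨rfl, Or.inr ⟨rfl, h3⟩⟩⟩)
            · exact Or.inr (Or.inl (by rw [h3]))
            · exact Or.inr (Or.inr (Or.inr ⟨h1.symm, Or.inr ⟨rfl, Or.inr ⟨rfl, h3⟩⟩⟩))
          · exact Or.inr (Or.inr (Or.inr ⟨h1.symm, Or.inr ⟨rfl, Or.inl h2⟩⟩))
        · cases h <;> cases h'
          · exact absurd rfl hh
          · exact Or.inl (Or.inr ⟨h1, Or.inl ⟨rfl, rfl⟩⟩)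
          · exact Or.inr (Or.inr (Or.inr ⟨h1.symm, Or.inl ⟨rfl, rfl⟩⟩))
          · exact absurd rfl hh
      · exact Or.inr (Or.inr (Or.inl h1))
    · exact Or.inl trivial
    · exact Or.inr (Or.inr trivial)
    · rcases hI.tri i i' with h1 | h1 | h1
      · exact Or.inl (Or.inl h1)
      · subst h1
        rcases ht.tri w w' with h3 | h3 | h3
        · exact Or.inl (Or.inr ⟨rfl, h3⟩)
        · exact Or.inr (Or.inl (by rw [h3]))
        · exact Or.inr (Or.inr (Or.inr ⟨rfl, h3⟩))
      · exact Or.inr (Or.inr (Or.inl h1))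

end order

/-! slots -/

section slots

variable {V J : Type} {vl : V → V → Prop}

/-- the order of the slots: each variable has a slot for each player, and there is a last slot -/
def tlt (vl : V → V → Prop) : (V × Bool) ⊕ Unit → (V × Bool) ⊕ Unit → Prop
  | .inl (p, b), .inl (p', b') => vl p p' ∨ (p = p' ∧ b = false ∧ b' = true)
  | .inl _, .inr _ => True
  | .inr _, _ => False

theorem slo_tlt (h : SLO vl) : SLO (tlt vl) := by
  refine ⟨?_, ?_, ?_⟩
  · rintro (⟨p, b⟩ | u)
    · rintro (h1 | ⟨_, rfl, h2⟩)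
      · exact h.irr _ h1
      · simp at h2
    · exact fun h => h
  · rintro (⟨p, b⟩ | u) (⟨p', b'⟩ | u') (⟨p'', b''⟩ | u'')
    · rintro (h1 | ⟨rfl, rfl, rfl⟩) (h2 | ⟨rfl, h2, h3⟩)
      · exact Or.inl (h.tr _ _ _ h1 h2)
      · exact Or.inl h1
      · exact Or.inl h2
      · simp at h2
    · exact fun _ _ => trivial
    · exact fun _ h => h.elim
    · exact fun _ _ => trivial
    · exact fun h _ => h.elim
    · exact fun h _ => h.elim
    · exact fun _ h => h.elim
    · exact fun h _ => h.elim
  · rintro (⟨p, b⟩ | u) (⟨p', b'⟩ | u')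
    · rcases h.tri p p' with h1 | h1 | h1
      · exact Or.inl (Or.inl h1)
      · subst h1
        cases b <;> cases b'
        · exact Or.inr (Or.inl rfl)
        · exact Or.inl (Or.inr ⟨rfl, rfl, rfl⟩)
        · exact Or.inr (Or.inr (Or.inr ⟨rfl, rfl, rfl⟩))
        · exact Or.inr (Or.inl rfl)
      · exact Or.inr (Or.inr (Or.inl h1))
    · exact Or.inl trivial
    · exact Or.inr (Or.inr trivial)
    · exact Or.inr (Or.inl rfl)

/-- the slots of a list of variables -/
def slotsOf (P : List V) : List ((V × Bool) ⊕ Unit) :=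
  P.flatMap (fun p => [.inl (p, false), .inl (p, true)]) ++ [.inr ()]

theorem slotsOf_pairwise {P : List V} (h : P.Pairwise vl) : (slotsOf P).Pairwise (tlt vl) := by
  unfold slotsOf
  rw [List.pairwise_append]
  refine ⟨?_, by simp, ?_⟩
  · rw [List.pairwise_flatMap]
    refine ⟨fun p _ => ?_, h.imp fun {a b} hab x hx y hy => ?_⟩
    · simp [tlt]
    · simp only [List.mem_cons, List.not_mem_nil, or_false] at hx hy
      rcases hx with rfl | rfl <;> rcases hy with rfl | rfl <;> exact Or.inl hab
  · rintro x hx y hy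
    simp only [List.mem_cons, List.not_mem_nil, or_false] at hy
    subst hy
    rw [List.mem_flatMap] at hx
    obtain ⟨p, _, hx⟩ := hx
    simp only [List.mem_cons, List.not_mem_nil, or_false] at hx
    rcases hx with rfl | rfl <;> trivial

theorem mem_slotsOf {P : List V} (h : ∀ p, p ∈ P) (t : (V × Bool) ⊕ Unit) : t ∈ slotsOf P := by
  unfold slotsOf
  rcases t with ⟨p, b⟩ | u
  · rw [List.mem_append, List.mem_flatMap]
    refine Or.inl ⟨p, h p, ?_⟩
    cases b <;> simp
  · simp

/-- the clauses: `C j p b` says that the clause `j` contains the literal `(p, b)` -/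
def litR (side : V → Bool) (C : J → V → Bool → Prop) :
    (J ⊕ Unit) → ((V × Bool) ⊕ Unit) → Bool → Prop
  | .inl j, .inl (p, h), b => h = side p ∧ C j p b
  | .inr _, .inr _, _ => True
  | _, _, _ => False

theorem MM_cons {T J : Type} [inst : DecidableEq T] (lit : J → T → Bool → Prop) (t : T)
    (l : List T) (β : T → Bool) :
    MM lit (t :: l) β ↔ ∃ b, ¬ MM lit l (Function.update β t b) := by
  have : inst = fun a b => propDecidable (a = b) := Subsingleton.elim _ _
  subst this
  exact Iff.rfl

theorem MM_nil {T J : Type} (lit : J → T → Bool → Prop) (β : T → Bool) :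
    MM lit [] β ↔ ∃ j, ∀ t b, lit j t b → β t ≠ b := Iff.rfl

theorem QQ_nil {V : Type} (side : V → Bool) (F : (V → Bool) → Prop) (γ : V → Bool) :
    QQ side F [] γ ↔ F γ := Iff.rfl

theorem QQ_cons {V : Type} [inst : DecidableEq V] (side : V → Bool) (F : (V → Bool) → Prop)
    (p : V) (P : List V) (γ : V → Bool) :
    QQ side F (p :: P) γ ↔ if side p = true then ∀ b, QQ side F P (Function.update γ p b)
      else ∃ b, QQ side F P (Function.update γ p b) := by
  have : inst = fun a b => propDecidable (a = b) := Subsingleton.elim _ _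
  subst this
  exact Iff.rfl

theorem MM_slots (side : V → Bool) (C : J → V → Bool → Prop) (P : List V)
    (β : (V × Bool) ⊕ Unit → Bool) :
    MM (litR side C) (slotsOf P) β ↔
      QQ side (fun γ => ∀ j, ∃ p b, C j p b ∧ γ p = b) P (fun p => β (.inl (p, side p))) := by
  induction P generalizing β with
  | nil =>
    change MM (litR side C) [.inr ()] β ↔ _
    rw [MM_cons, QQ_nil]
    simp only [MM_nil]
    push Not
    constructor
    · rintro ⟨b, hb⟩ j
      obtain ⟨t, b', h1, h2⟩ := hb (.inl j)
      rcases t with ⟨p, h⟩ | u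
      · obtain ⟨rfl, h1⟩ := h1
        exact ⟨p, b', h1, by rwa [Function.update_of_ne (by simp)] at h2⟩
      · exact h1.elim
    · intro h
      refine ⟨true, ?_⟩
      rintro (j | u)
      · obtain ⟨p, b, h1, h2⟩ := h j
        exact ⟨.inl (p, side p), b, ⟨rfl, h1⟩, by rwa [Function.update_of_ne (by simp)]⟩
      · exact ⟨.inr (), true, trivial, by rw [Function.update_self]⟩
  | cons p P ih =>
    have hl : slotsOf (p :: P) = .inl (p, false) :: .inl (p, true) :: slotsOf P := by
      simp [slotsOf]
    rw [hl, MM_cons]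
    simp only [MM_cons, ih, not_exists, not_not]
    have hupd : ∀ b b', (fun p' => Function.update (Function.update β (.inl (p, false)) b)
        (.inl (p, true)) b' (.inl (p', side p'))) =
        Function.update (fun p => β (.inl (p, side p))) p (if side p = true then b' else b) := by
      intro b b'
      funext p'
      by_cases h : p' = p
      · subst h
        rw [Function.update_self]
        cases hs : side p'
        · rw [Function.update_of_ne (by simp), Function.update_self]
          simp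
        · rw [Function.update_self]
          simp
      · rw [Function.update_of_ne h, Function.update_of_ne, Function.update_of_ne]
        · simp [h]
        · simp [h]
    simp only [hupd]
    rw [QQ_cons]
    cases hs : side p
    · simp
    · simp

end slots

end Pool.Agent.H92.Click
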