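import Pool.Agent.H92.Click.Defs
import Pool.Agent.H92.Desc.PSpace

/-!
General facts about normal play games.
-/

namespace Pool.Agent.H92.Click

open Desc

variable {α α' : Type*} {Mv : α → α → Prop} {Mv' : α' → α' → Prop}

theorem wins_iff {a : α} : Wins Mv a ↔ ∃ b, Mv a b ∧ ∀ c, Mv b c → Wins Mv c :=
  ⟨fun ⟨_, b, h, h'⟩ => ⟨b, h, h'⟩, fun ⟨b, h, h'⟩ => .intro a b h h'⟩

theorem not_wins_iff (m : α → ℕ) (hm : ∀ a b, Mv a b → m b < m a) (a : α) :
    ¬ Wins Mv a ↔ ∀ b, Mv a b → Wins Mv b := by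
  induction h : m a using Nat.strong_induction_on generalizing a with
  | _ n ih =>
    subst h
    constructor
    · intro h b hb
      have h1 : ¬ ∀ c, Mv b c → Wins Mv c := fun hc => h (.intro a b hb hc)
      push Not at h1
      obtain ⟨c, hc, hc'⟩ := h1
      exact .intro b c hc ((ih _ ((hm _ _ hc).trans (hm _ _ hb)) c rfl).1 hc')
    · rintro h ⟨_, b, hb, hb'⟩
      obtain ⟨_, c, hc, hc'⟩ := h b hb
      exact (ih _ ((hm _ _ hc).trans (hm _ _ hb)) c rfl).2 hc' (hb' c hc)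

/-- In a terminating game, the player to move wins iff she can move to a lost position. -/
theorem wins_iff_not (m : α → ℕ) (hm : ∀ a b, Mv a b → m b < m a) (a : α) :
    Wins Mv a ↔ ∃ b, Mv a b ∧ ¬ Wins Mv b := by
  rw [wins_iff]
  refine exists_congr fun b => and_congr_right fun _ => ?_
  exact (not_wins_iff m hm b).symm

/-- Bisimulation. -/
theorem wins_bisim (f : α' → α) (Inv : α' → Prop)
    (h1 : ∀ a b, Inv a → Mv' a b → Inv b ∧ Mv (f a) (f b))
    (h2 : ∀ a b, Inv a → Mv (f a) b → ∃ b', Mv' a b' ∧ b = f b') (a : α') (ha : Inv a) :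
    Wins Mv (f a) ↔ Wins Mv' a := by
  constructor
  · intro h
    generalize hx : f a = x at h
    induction h generalizing a with
    | intro x y hxy _ ih =>
      subst hx
      obtain ⟨b, hb, rfl⟩ := h2 a y ha hxy
      refine .intro a b hb fun c hc => ?_
      exact ih _ (h1 b c (h1 a b ha hb).1 hc).2 c (h1 b c (h1 a b ha hb).1 hc).1 rfl
  · intro h
    induction h with
    | intro a b hab _ ih =>
      refine .intro _ _ (h1 a b ha hab).2 fun y hy => ?_
      obtain ⟨c, hc, rfl⟩ := h2 b y (h1 a b ha hab).1 hy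
      exact ih c hc (h1 b c (h1 a b ha hab).1 hc).1

theorem GWin.wins {α : Type} {Mv : α → α → Prop} {t : ℕ} {a : α} (h : GWin Mv t a) : Wins Mv a := by
  induction t generalizing a with
  | zero => exact h.elim
  | succ t ih =>
    obtain ⟨b, hb, hb'⟩ := h
    exact .intro a b hb fun c hc => ih (hb' c hc)

theorem Wins.gwin {α : Type} {Mv : α → α → Prop} (m : α → ℕ) (hm : ∀ a b, Mv a b → m b < m a)
    {t : ℕ} {a : α} (h : Wins Mv a) (ht : m a ≤ t) : GWin Mv t a := by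
  induction h generalizing t with
  | intro a b hab _ ih =>
    have := hm _ _ hab
    obtain ⟨t, rfl⟩ : ∃ k, t = k + 1 := ⟨t - 1, by omega⟩
    refine ⟨b, hab, fun c hc => ih c hc ?_⟩
    have := hm _ _ hc
    omega

namespace Board

variable {X Y X' Y' : Type} {B : Board X Y} {B' : Board X' Y'}

theorem group_subset {S : Set (X × Y)} {b : X × Y} (hb : b ∈ S) : B.group S b ⊆ S := by
  intro c hc
  rcases Relation.ReflTransGen.cases_tail hc with rfl | ⟨d, _, h⟩
  · exact hb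
  · exact h.1.2.1

theorem Move.subset {S S' : Set (X × Y)} (h : B.Move S S') : S' ⊆ S := by
  obtain ⟨b, _, _, rfl⟩ := h
  exact Set.sdiff_subset

theorem Move.ssubset {S S' : Set (X × Y)} (h : B.Move S S') : S' ⊂ S := by
  obtain ⟨b, hb, _, rfl⟩ := h
  refine ⟨Set.sdiff_subset, fun h => ?_⟩
  exact (h hb).2 Relation.ReflTransGen.refl

/-- Transfer along injections that preserve the structure. -/
theorem wins_transfer (f : X' → X) (g : Y' → Y) (hf : Function.Injective f)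
    (hg : Function.Injective g) (S₀ : Set (X' × Y'))
    (hl : ∀ b ∈ S₀, ∀ b' ∈ S₀, (B.left (f b.1) (f b'.1) ↔ B'.left b.1 b'.1))
    (hbl : ∀ b ∈ S₀, ∀ b' ∈ S₀, (B.below (g b.2) (g b'.2) ↔ B'.below b.2 b'.2))
    (hs : ∀ b ∈ S₀, ∀ b' ∈ S₀, (B.same (f b.1, g b.2) (f b'.1, g b'.2) ↔ B'.same b b')) :
    Wins B.Move (Prod.map f g '' S₀) ↔ Wins B'.Move S₀ := by
  have hfg : Function.Injective (Prod.map f g) := hf.prodMap hg
  have hcol : ∀ S ⊆ S₀, ∀ b ∈ S, B.colNo (Prod.map f g '' S) (Prod.map f g b) = B'.colNo S b := by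
    intro S hS b hb
    unfold colNo
    rw [← Set.ncard_image_of_injective _ hf]
    congr 1
    ext x
    constructor
    · rintro ⟨h1, y, ⟨⟨x', y'⟩, h2, h3⟩⟩
      simp only [Prod.map_apply, Prod.mk.injEq] at h3
      obtain ⟨rfl, rfl⟩ := h3
      exact ⟨x', ⟨(hl _ (hS h2) _ (hS hb)).1 h1, y', h2⟩, rfl⟩
    · rintro ⟨x', ⟨h1, y', h2⟩, rfl⟩
      exact ⟨(hl _ (hS h2) _ (hS hb)).2 h1, g y', ⟨(x', y'), h2, rfl⟩⟩
  have hrow : ∀ S ⊆ S₀, ∀ b ∈ S, B.height (Prod.map f g '' S) (Prod.map f g b) =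
      B'.height S b := by
    intro S hS b hb
    unfold height
    rw [← Set.ncard_image_of_injective _ hg]
    congr 1
    ext y
    constructor
    · rintro ⟨h1, ⟨⟨x', y'⟩, h2, h3⟩⟩
      simp only [Prod.map_apply, Prod.mk.injEq, Prod.map_fst] at h3
      obtain ⟨h3, rfl⟩ := h3
      have := hf h3
      subst this
      exact ⟨y', ⟨(hbl _ (hS h2) _ (hS hb)).1 h1, h2⟩, rfl⟩
    · rintro ⟨y', ⟨h1, h2⟩, rfl⟩
      exact ⟨(hbl _ (hS h2) _ (hS hb)).2 h1, ⟨(b.1, y'), h2, rfl⟩⟩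
  have hadj : ∀ S ⊆ S₀, ∀ b ∈ S, ∀ b' ∈ S,
      (B.Adj (Prod.map f g '' S) (Prod.map f g b) (Prod.map f g b') ↔ B'.Adj S b b') := by
    intro S hS b hb b' hb'
    unfold Adj
    rw [hcol S hS b hb, hcol S hS b' hb', hrow S hS b hb, hrow S hS b' hb',
      hfg.mem_set_image, hfg.mem_set_image]
  have hgrp : ∀ S ⊆ S₀, ∀ b ∈ S,
      B.group (Prod.map f g '' S) (Prod.map f g b) = Prod.map f g '' B'.group S b := by
    intro S hS b hb
    ext z
    constructor
    · intro hz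
      change Relation.ReflTransGen _ _ _ at hz
      induction hz with
      | refl => exact ⟨b, Relation.ReflTransGen.refl, rfl⟩
      | @tail c d _ h ih =>
        obtain ⟨c, hc, rfl⟩ := ih
        obtain ⟨d, hd, rfl⟩ := h.1.2.1
        have hc' := group_subset hb hc
        exact ⟨d, hc.tail ⟨(hadj S hS c hc' d hd).1 h.1, (hs _ (hS hc') _ (hS hd)).1 h.2⟩, rfl⟩
    · rintro ⟨z, hz, rfl⟩
      change Relation.ReflTransGen _ _ _ at hz
      change Relation.ReflTransGen _ _ _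
      induction hz with
      | refl => exact Relation.ReflTransGen.refl
      | @tail c d _ h ih =>
        have hc' := h.1.1
        have hd := h.1.2.1
        exact ih.tail ⟨(hadj S hS c hc' d hd).2 h.1, (hs _ (hS hc') _ (hS hd)).2 h.2⟩
  refine wins_bisim (Mv := B.Move) (Mv' := B'.Move) (fun S => Prod.map f g '' S)
    (fun S => S ⊆ S₀) ?_ ?_ S₀ (Set.Subset.refl _)
  · rintro S S' hS h
    refine ⟨h.subset.trans hS, ?_⟩
    obtain ⟨b, hb, h1, rfl⟩ := h
    refine ⟨Prod.map f g b, ⟨b, hb, rfl⟩, ?_, ?_⟩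
    · rw [hgrp S hS b hb]
      exact h1.image hfg
    · rw [hgrp S hS b hb, Set.image_sdiff hfg]
  · rintro S T hS ⟨_, ⟨b, hb, rfl⟩, h1, rfl⟩
    rw [hgrp S hS b hb] at h1 ⊢
    refine ⟨S \ B'.group S b, ⟨b, hb, ?_, rfl⟩, (Set.image_sdiff hfg _ _).symm⟩
    obtain ⟨_, ⟨p, hp, rfl⟩, _, ⟨q, hq, rfl⟩, hne⟩ := h1
    exact ⟨p, hp, q, hq, fun h => hne (by rw [h])⟩

end Board

end Pool.Agent.H92.Click
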