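import Mathlib

/-!
Ranks in finite strict linear orders.
-/

namespace Pool.Agent.H92.Click

/-- strict linear order -/
structure SLO {X : Type*} (r : X → X → Prop) : Prop where
  irr : ∀ x, ¬ r x x
  tr : ∀ x y z, r x y → r y z → r x z
  tri : ∀ x y, r x y ∨ x = y ∨ r y x

namespace SLO

variable {X : Type*} [Finite X] {r : X → X → Prop} (hr : SLO r) (V : Set X)

/-- number of elements of `V` below `x` -/
noncomputable def rank (r : X → X → Prop) (V : Set X) (x : X) : ℕ := {x' | x' ∈ V ∧ r x' x}.ncard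

include hr

theorem rank_lt {x y : X} (hx : x ∈ V) (h : r x y) : rank r V x < rank r V y := by
  refine Set.ncard_lt_ncard ?_ (Set.toFinite _)
  refine ⟨fun z hz => ⟨hz.1, hr.tr _ _ _ hz.2 h⟩, fun hsub => ?_⟩
  exact hr.irr x (hsub (show x ∈ {x' | x' ∈ V ∧ r x' y} from ⟨hx, h⟩)).2

theorem rank_inj {x y : X} (hx : x ∈ V) (hy : y ∈ V) (h : rank r V x = rank r V y) : x = y := by
  rcases hr.tri x y with h' | h' | h'
  · exact absurd h (hr.rank_lt V hx h').ne
  · exact h'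
  · exact absurd h (hr.rank_lt V hy h').ne'

theorem rank_succ {x y : X} (hx : x ∈ V) (h : r x y) (hg : ∀ z ∈ V, ¬ (r x z ∧ r z y)) :
    rank r V y = rank r V x + 1 := by
  have : {x' | x' ∈ V ∧ r x' y} = insert x {x' | x' ∈ V ∧ r x' x} := by
    ext z
    constructor
    · rintro ⟨h1, h2⟩
      rcases hr.tri x z with h3 | h3 | h3
      · exact absurd ⟨h3, h2⟩ (hg z h1)
      · exact Or.inl h3.symm
      · exact Or.inr ⟨h1, h3⟩
    · rintro (rfl | ⟨h1, h2⟩)
      · exact ⟨hx, h⟩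
      · exact ⟨h1, hr.tr _ _ _ h2 h⟩
  unfold rank
  rw [this, Set.ncard_insert_of_notMem _ (Set.toFinite _)]
  exact fun h => hr.irr x h.2

theorem exists_pred {y : X} (h : ∃ x ∈ V, r x y) :
    ∃ x ∈ V, r x y ∧ ∀ z ∈ V, ¬ (r x z ∧ r z y) := by
  obtain ⟨x0, hx0, hx0'⟩ := h
  obtain ⟨x, ⟨hx, hx'⟩, hmax⟩ := Set.exists_max_image {x' | x' ∈ V ∧ r x' y} (rank r V)
    (Set.toFinite _) ⟨x0, hx0, hx0'⟩
  refine ⟨x, hx, hx', fun z hz ⟨h1, h2⟩ => ?_⟩
  exact absurd (hmax z ⟨hz, h2⟩) (not_le.2 (hr.rank_lt V hx h1))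

/-- a chain argument -/
theorem chain {C : X → X → Prop} (refl : ∀ x ∈ V, C x x) (symm : ∀ x y, C x y → C y x)
    (trans : ∀ x y z, C x y → C y z → C x z)
    (step : ∀ x ∈ V, ∀ y ∈ V, r x y → (∀ z ∈ V, ¬ (r x z ∧ r z y)) → C x y) :
    ∀ x ∈ V, ∀ y ∈ V, C x y := by
  have key : ∀ n, ∀ x ∈ V, ∀ y ∈ V, rank r V y = n → r x y → C x y := by
    intro n
    induction n using Nat.strong_induction_on with
    | _ n ih =>
      intro x hx y hy hn hxy
      obtain ⟨z, hz, hzy, hg⟩ := hr.exists_pred V ⟨x, hx, hxy⟩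
      have h1 := step z hz y hy hzy hg
      rcases hr.tri x z with h2 | h2 | h2
      · refine trans _ _ _ (ih _ ?_ x hx z hz rfl h2) h1
        rw [← hn]
        exact hr.rank_lt V hz hzy
      · rw [h2]
        exact h1
      · exact absurd ⟨h2, hxy⟩ (hg x hx)
  intro x hx y hy
  rcases hr.tri x y with h | h | h
  · exact key _ x hx y hy rfl h
  · rw [h]
    exact refl y hy
  · exact symm _ _ (key _ y hy x hx rfl h)

end SLO

end Pool.Agent.H92.Click
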