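import Pool.Agent.H92.Click.Game
import Pool.Agent.H92.Click.Rank

/-!
The Clickomania board of a graph: definitions and heights.
-/

namespace Pool.Agent.H92.Click

open Classical

/-- columns: two auxiliary columns and three columns for each ordered edge -/
abbrev Col (W : Type) := Bool ⊕ ((W × W) × Fin 3)

/-- bands of rows: one for each ordered edge, one for each vertex and the top band -/
abbrev Band (W : Type) := (W × W) ⊕ (W ⊕ Unit)

/-- names of the coloured slabs -/
inductive Id (W : Type)
  | Y (e : W × W) : Id W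
  | B (w : W) : Id W
  | T (e : W × W) (k : Fin 3) : Id W

/-- colours -/
def Id.hue {W : Type} : Id W → (W × W) ⊕ (Unit ⊕ (W × W))
  | .Y e => .inl e
  | .B _ => .inr (.inl ())
  | .T e _ => .inr (.inr e)

/-- the data of the construction -/
structure Data (W : Type) where
  T : ℕ
  Z : ℕ
  isV : W → Prop
  adj : W → W → Prop
  clt : Col W → Col W → Prop
  blt : Band W → Band W → Prop

namespace Data

variable {W : Type} (D : Data W)

/-- valid columns -/
def vc : Col W → Prop
  | .inl _ => True
  | .inr (e, _) => D.adj e.1 e.2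

/-- number of rows of a band -/
noncomputable def len : Band W → ℕ
  | .inl e => if D.adj e.1 e.2 then D.T + D.Z + 2 else 0
  | .inr (.inl w) => if D.isV w then D.T + 2 else 0
  | .inr (.inr _) => 3

/-- extra thickness -/
noncomputable def ex : Col W → Band W → ℕ
  | .inl false, .inl _ => D.Z + 2
  | .inl false, .inr _ => 0
  | .inl true, _ => 0
  | .inr (e, k), b => (if b = .inl e ∧ k ≠ 1 then 2 else 0) +
      (if (k = 0 ∧ b = .inr (.inl e.1)) ∨ (k = 2 ∧ b = .inr (.inl e.2)) then 1 else 0)

/-- the slab of a cell (`none` for the inert cells) -/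
noncomputable def id : Col W × (Band W × ℕ) → Option (Id W)
  | (x, (.inl e, o)) => if o < D.T + D.ex x (.inl e) then some (.Y e) else none
  | (x, (.inr (.inl w), o)) => if o < D.T + D.ex x (.inr (.inl w)) then some (.B w) else none
  | (.inl _, (.inr (.inr _), _)) => none
  | (.inr (e, k), (.inr (.inr _), o)) =>
      if (k = 1 ∧ o = 0) ∨ (k ≠ 1 ∧ o = 2) then some (.T e k) else none

/-- the board -/
noncomputable def board : Board (Col W) (Band W × ℕ) where
  left := D.clt
  below y y' := D.blt y.1 y'.1 ∨ (y.1 = y'.1 ∧ y.2 < y'.2)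
  same c c' := c = c' ∨ ∃ i i', D.id c = some i ∧ D.id c' = some i' ∧ i.hue = i'.hue

/-- the full grid -/
def full : Set (Col W × (Band W × ℕ)) := {c | D.vc c.1 ∧ c.2.2 < D.len c.2.1}

/-- The hypotheses. -/
structure Ok [Fintype W] : Prop where
  clt : SLO D.clt
  blt : SLO D.blt
  bY : ∀ e b, D.blt (.inl e) (.inr b)
  bB : ∀ w, D.blt (.inr (.inl w)) (.inr (.inr ()))
  c0 : D.clt (.inl false) (.inl true)
  g0 : ∀ x, ¬ (D.clt (.inl false) x ∧ D.clt x (.inl true))
  c1 : ∀ e, D.clt (.inr (e, 0)) (.inr (e, 1))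
  g1 : ∀ e x, ¬ (D.clt (.inr (e, 0)) x ∧ D.clt x (.inr (e, 1)))
  c2 : ∀ e, D.clt (.inr (e, 1)) (.inr (e, 2))
  g2 : ∀ e x, ¬ (D.clt (.inr (e, 1)) x ∧ D.clt x (.inr (e, 2)))
  adjV : ∀ u v, D.adj u v → D.isV u
  symm : ∀ u v, D.adj u v → D.adj v u
  irr : ∀ u, ¬ D.adj u u
  hZ : 2 * Fintype.card W + 1 ≤ D.Z
  hT : (D.Z + 2) * (Fintype.card W * Fintype.card W) + 4 ≤ D.T

end Data

/-- abstract states: the deleted edge slabs, vertex slabs and test cells -/
structure St (W : Type) where
  F : Finset (W × W)
  X : Finset W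
  R : Finset ((W × W) × Fin 3)

/-- deleted slabs -/
def St.dead {W : Type} (s : St W) : Id W → Prop
  | .Y e => e ∈ s.F
  | .B w => w ∈ s.X
  | .T e k => (e, k) ∈ s.R

/-- deleted bands -/
def St.dl {W : Type} (s : St W) : Band W → Prop
  | .inl e => e ∈ s.F
  | .inr (.inl w) => w ∈ s.X
  | .inr (.inr _) => False

/-- the slab of a band -/
def slab {W : Type} : Band W → Option (Id W)
  | .inl e => some (.Y e)
  | .inr (.inl w) => some (.B w)
  | .inr (.inr _) => none

namespace Data

variable {W : Type} (D : Data W)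

/-- the set of blocks of an abstract state -/
def pres (s : St W) : Set (Col W × (Band W × ℕ)) :=
  {c | c ∈ D.full ∧ ∀ i, D.id c = some i → ¬ s.dead i}

/-- consistent abstract states -/
structure Inv (s : St W) : Prop where
  F : ∀ e ∈ s.F, D.adj e.1 e.2
  X : ∀ w ∈ s.X, D.isV w
  R : ∀ e k, (e, k) ∈ s.R → (e, 1) ∈ s.R

variable {D} [Fintype W] (hD : D.Ok)

/-- base contribution of a band to the height -/
noncomputable def pt (D : Data W) (s : St W) (b : Band W) : ℕ :=
  D.len b - if s.dl b then D.T else 0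

/-- base height of a band -/
noncomputable def bs (D : Data W) (s : St W) (b : Band W) : ℕ :=
  ∑ b' ∈ Finset.univ.filter (fun b' => D.blt b' b), D.pt s b'

/-- shift of a column at a band -/
noncomputable def exx (D : Data W) (s : St W) (x : Col W) (b : Band W) : ℕ :=
  ∑ b' ∈ Finset.univ.filter (fun b' => D.blt b' b), if s.dl b' then D.ex x b' else 0

include hD

theorem Ok.top_max (b : Band W) : ¬ D.blt (.inr (.inr ())) b := by
  intro h
  rcases b with e | w | u
  · exact hD.blt.irr _ (hD.blt.tr _ _ _ h (hD.bY e _))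
  · exact hD.blt.irr _ (hD.blt.tr _ _ _ h (hD.bB w))
  · exact hD.blt.irr _ h

omit [Fintype W] hD in
theorem ex_le (x : Col W) (b : Band W) : D.ex x b ≤ D.Z + 2 := by
  rcases x with (x | x) | ⟨e, k⟩
  · rcases b with b | b <;> simp [ex]
  · simp [ex]
  · simp only [ex]
    split_ifs with h1 h2 <;> try omega
    exfalso
    obtain ⟨rfl, -⟩ := h1
    rcases h2 with ⟨_, h⟩ | ⟨_, h⟩ <;> exact absurd h (by simp)

omit [Fintype W] hD in
theorem exB_le (x : Col W) (w : W) : D.ex x (.inr (.inl w)) ≤ 1 := by
  rcases x with (x | x) | ⟨e, k⟩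
  · simp [ex]
  · simp [ex]
  · have h1 : ¬ ((Sum.inr (Sum.inl w) : Band W) = .inl e ∧ k ≠ 1) := fun h => by simp at h
    simp only [ex, if_neg h1]
    split_ifs <;> omega

omit [Fintype W] hD in
/-- number of present cells of a band in a column, when the band is a slab band -/
theorem card_band {s : St W} (hs : D.Inv s) {x : Col W} (hx : D.vc x) {b : Band W}
    (hb : b ≠ .inr (.inr ())) :
    ((Finset.range (D.len b)).filter (fun o => (x, (b, o)) ∈ D.pres s)).card +
      (if s.dl b then D.ex x b else 0) = D.pt s b := by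
  have key : ∀ (i : Id W), (∀ o, D.id (x, (b, o)) = if o < D.T + D.ex x b then some i else none) →
      (s.dead i ↔ s.dl b) → (s.dl b → D.T + D.ex x b ≤ D.len b) →
      ((Finset.range (D.len b)).filter (fun o => (x, (b, o)) ∈ D.pres s)).card +
      (if s.dl b then D.ex x b else 0) = D.pt s b := by
    intro i hi hdead hle
    unfold pt
    by_cases hdl : s.dl b
    · have h1 : (Finset.range (D.len b)).filter (fun o => (x, (b, o)) ∈ D.pres s) =
          Finset.Ico (D.T + D.ex x b) (D.len b) := by
        ext o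
        simp only [Finset.mem_filter, Finset.mem_range, Finset.mem_Ico, pres, Set.mem_ofPred_eq,
          full, hi]
        constructor
        · rintro ⟨h1, h2, h3⟩
          refine ⟨?_, h1⟩
          by_contra hlt
          exact h3 i (if_pos (not_le.1 hlt)) (hdead.2 hdl)
        · rintro ⟨h1, h2⟩
          refine ⟨h2, ⟨hx, h2⟩, fun j hj => ?_⟩
          rw [if_neg (not_lt.2 h1)] at hj
          exact absurd hj (by simp)
      rw [h1, Nat.card_Ico, if_pos hdl, if_pos hdl]
      have := hle hdl
      omega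
    · have h1 : (Finset.range (D.len b)).filter (fun o => (x, (b, o)) ∈ D.pres s) =
          Finset.range (D.len b) := by
        ext o
        simp only [Finset.mem_filter, Finset.mem_range, pres, Set.mem_ofPred_eq, full, hi]
        refine ⟨fun h => h.1, fun h => ⟨h, ⟨hx, h⟩, fun j hj => ?_⟩⟩
        split_ifs at hj
        obtain rfl := Option.some.inj hj
        exact fun hcon => hdl (hdead.1 hcon)
      rw [h1, Finset.card_range, if_neg hdl, if_neg hdl]
      rfl
  rcases b with e | w | u
  · refine key (.Y e) (fun o => rfl) Iff.rfl fun h => ?_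
    have h1 := hs.F e h
    have h2 := ex_le (D := D) x (.inl e)
    simp only [len, if_pos h1]
    omega
  · refine key (.B w) (fun o => rfl) Iff.rfl fun h => ?_
    have h1 := hs.X w h
    have h2 := exB_le (D := D) x w
    simp only [len, if_pos h1]
    omega
  · exact absurd rfl hb

/-- The height of a cell in a band with no deleted cells below it in the same band. -/
theorem height_add {s : St W} (hs : D.Inv s) {x : Col W} (hx : D.vc x) {b : Band W} {o : ℕ}
    (ho : ∀ o' < o, (x, (b, o')) ∈ D.pres s) :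
    D.board.height (D.pres s) (x, (b, o)) + D.exx s x b = D.bs s b + o := by
  have h1 : {y : Band W × ℕ | D.board.below y (b, o) ∧ (x, y) ∈ D.pres s} =
      ↑(((Finset.univ.filter (fun b' => D.blt b' b)).sigma (fun b' =>
        (Finset.range (D.len b')).filter (fun o' => (x, (b', o')) ∈ D.pres s))).map
          (Equiv.sigmaEquivProd (Band W) ℕ).toEmbedding ∪
        (Finset.range o).map ⟨fun o' => (b, o'), fun o' o'' h => (Prod.mk.inj h).2⟩) := by
    ext ⟨b', o'⟩
    simp only [Set.mem_ofPred_eq, Finset.coe_union, Finset.coe_map, Set.mem_union, Set.mem_image,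
      Finset.mem_coe, Finset.mem_sigma, Finset.mem_filter, Finset.mem_univ, true_and,
      Finset.mem_range, Function.Embedding.coeFn_mk, Prod.mk.injEq]
    constructor
    · rintro ⟨h | ⟨h, h'⟩, hp⟩
      · exact Or.inl ⟨⟨b', o'⟩, ⟨h, hp.1.2, hp⟩, rfl⟩
      · exact Or.inr ⟨o', h', h.symm, rfl⟩
    · rintro (⟨⟨b'', o''⟩, ⟨h1, h2, h3⟩, h4⟩ | ⟨o'', h1, rfl, rfl⟩)
      · have e1 : b'' = b' := congrArg Prod.fst h4
        have e2 : o'' = o' := congrArg Prod.snd h4
        subst e1 e2
        exact ⟨Or.inl h1, h3⟩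
      · exact ⟨Or.inr ⟨rfl, h1⟩, ho _ h1⟩
  have h2 : D.board.height (D.pres s) (x, (b, o)) =
      (∑ b' ∈ Finset.univ.filter (fun b' => D.blt b' b),
        ((Finset.range (D.len b')).filter (fun o' => (x, (b', o')) ∈ D.pres s)).card) + o := by
    unfold Board.height
    change Set.ncard {y : Band W × ℕ | D.board.below y (b, o) ∧ (x, y) ∈ D.pres s} = _
    rw [h1, Set.ncard_coe_finset, Finset.card_union_of_disjoint, Finset.card_map,
      Finset.card_sigma, Finset.card_map, Finset.card_range]
    rw [Finset.disjoint_left]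
    rintro ⟨b', o'⟩ h3 h4
    simp only [Finset.mem_map, Finset.mem_sigma, Finset.mem_filter, Finset.mem_univ, true_and,
      Function.Embedding.coeFn_mk, Prod.mk.injEq] at h3 h4
    obtain ⟨⟨b'', o''⟩, ⟨h3, _⟩, h5⟩ := h3
    obtain ⟨_, _, rfl, _⟩ := h4
    have e1 : b'' = b := congrArg Prod.fst h5
    subst e1
    exact hD.blt.irr _ h3
  rw [h2]
  unfold exx bs
  rw [add_right_comm, ← Finset.sum_add_distrib]
  congr 1
  refine Finset.sum_congr rfl fun b' hb' => ?_
  refine card_band hs hx ?_
  rintro rfl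
  rw [Finset.mem_filter] at hb'
  exact hD.top_max _ hb'.2

end Data

end Pool.Agent.H92.Click
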