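import Pool.Agent.H92.Click.Geo

/-!
The Clickomania board of a graph: shifts, columns, connectivity.
-/

namespace Pool.Agent.H92.Click

open Classical

set_option linter.unusedSectionVars false

namespace Data

variable {W : Type} {D : Data W} [Fintype W]

/-! shifts -/

theorem exx_nrm (s : St W) (b : Band W) : D.exx s (.inl true) b = 0 := by
  unfold exx
  refine Finset.sum_eq_zero fun b' _ => ?_
  simp [ex]

theorem exx_star (s : St W) (b : Band W) :
    D.exx s (.inl false) b = (D.Z + 2) * (s.F.filter (fun e => D.blt (.inl e) b)).card := by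
  unfold exx
  rw [Finset.sum_filter, Fintype.sum_sum_type]
  have h1 : ∀ a : W ⊕ Unit, (if D.blt (Sum.inr a) b then
      (if s.dl (.inr a) then D.ex (.inl false) (.inr a) else 0) else 0) = 0 := by
    intro a
    simp [ex]
  rw [Finset.sum_congr rfl (fun a _ => h1 a), Finset.sum_const_zero, add_zero]
  have h2 : ∀ e : W × W, (if D.blt (Sum.inl e) b then
      (if s.dl (.inl e) then D.ex (.inl false) (.inl e) else 0) else 0) =
      if (D.blt (Sum.inl e) b ∧ e ∈ s.F) then D.Z + 2 else 0 := by
    intro e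
    simp only [ex, St.dl]
    split_ifs <;> simp_all
  rw [Finset.sum_congr rfl (fun e _ => h2 e), ← Finset.sum_filter, Finset.sum_const, smul_eq_mul,
    mul_comm]
  congr 2
  ext e
  simp only [Finset.mem_filter, Finset.mem_univ, true_and]
  exact and_comm

theorem exx_tri (s : St W) (e : W × W) (k : Fin 3) (b : Band W) :
    D.exx s (.inr (e, k)) b = (if k ≠ 1 ∧ D.blt (.inl e) b ∧ e ∈ s.F then 2 else 0) +
      ((if k = 0 ∧ D.blt (.inr (.inl e.1)) b ∧ e.1 ∈ s.X then 1 else 0) +
      (if k = 2 ∧ D.blt (.inr (.inl e.2)) b ∧ e.2 ∈ s.X then 1 else 0)) := by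
  have key : ∀ b' : Band W, (if D.blt b' b then
      (if s.dl b' then D.ex (.inr (e, k)) b' else 0) else 0) =
      (if b' = .inl e then (if k ≠ 1 ∧ D.blt (.inl e) b ∧ e ∈ s.F then 2 else 0) else 0) +
      ((if b' = .inr (.inl e.1) then
        (if k = 0 ∧ D.blt (.inr (.inl e.1)) b ∧ e.1 ∈ s.X then 1 else 0) else 0) +
      (if b' = .inr (.inl e.2) then
        (if k = 2 ∧ D.blt (.inr (.inl e.2)) b ∧ e.2 ∈ s.X then 1 else 0) else 0)) := by
    intro b'
    rcases b' with e' | w | u
    · have h2 : ∀ w : W, ¬ ((Sum.inl e' : Band W) = .inr (.inl w)) := fun w h => by simp at h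
      simp only [ex, St.dl, if_neg (h2 _)]
      by_cases he : e' = e
      · subst he
        by_cases h3 : D.blt (.inl e') b <;> by_cases h4 : e' ∈ s.F <;> by_cases h5 : k = 1 <;>
          simp [h3, h4, h5]
      · have h1 : ¬ ((Sum.inl e' : Band W) = .inl e) := fun h => he (Sum.inl.inj h)
        simp [h1]
    · have h1 : ¬ ((Sum.inr (Sum.inl w) : Band W) = .inl e) := fun h => by simp at h
      have h2 : ∀ w' : W, ((Sum.inr (Sum.inl w) : Band W) = .inr (.inl w')) ↔ w = w' := by
        intro w'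
        constructor
        · intro h
          exact Sum.inl.inj (Sum.inr.inj h)
        · rintro rfl
          rfl
      simp only [ex, St.dl, h2, h1, false_and, if_false, zero_add]
      by_cases hk0 : k = 0
      · have hk2 : ¬ k = 2 := by rw [hk0]; decide
        by_cases hw : w = e.1
        · subst hw
          by_cases h3 : D.blt (.inr (.inl e.1)) b <;> by_cases h4 : e.1 ∈ s.X <;>
            simp [h3, h4, hk0]
        · simp [hw, hk2]
      · by_cases hk2 : k = 2
        · by_cases hw : w = e.2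
          · subst hw
            by_cases h3 : D.blt (.inr (.inl e.2)) b <;> by_cases h4 : e.2 ∈ s.X <;>
              simp [h3, h4, hk2]
          · simp [hw, hk0]
        · simp [hk0, hk2]
    · have h1 : ¬ ((Sum.inr (Sum.inr u) : Band W) = .inl e) := fun h => by simp at h
      have h2 : ∀ w' : W, ¬ ((Sum.inr (Sum.inr u) : Band W) = .inr (.inl w')) :=
        fun w' h => by simp at h
      simp [St.dl, h2]
  unfold exx
  rw [Finset.sum_filter, Finset.sum_congr rfl (fun b' _ => key b'), Finset.sum_add_distrib,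
    Finset.sum_add_distrib, Finset.sum_ite_eq', Finset.sum_ite_eq', Finset.sum_ite_eq']
  simp

theorem card_F_le (s : St W) : s.F.card ≤ Fintype.card W * Fintype.card W := by
  have := Finset.card_le_univ s.F
  rwa [Fintype.card_prod] at this

variable (hD : D.Ok)
include hD

theorem exx_lt (s : St W) (x : Col W) (b : Band W) : D.exx s x b < D.T := by
  have hT := hD.hT
  rcases x with (x | x) | ⟨e, k⟩
  · rw [exx_star]
    have h1 : (s.F.filter (fun e => D.blt (.inl e) b)).card ≤
        Fintype.card W * Fintype.card W := (Finset.card_filter_le _ _).trans (card_F_le s)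
    have := Nat.mul_le_mul_left (D.Z + 2) h1
    omega
  · rw [exx_nrm]
    omega
  · rw [exx_tri]
    split_ifs <;> omega

theorem exx_le_one {s : St W} (hF : s.F = ∅) (x : Col W) (b : Band W) : D.exx s x b ≤ 1 := by
  rcases x with (x | x) | ⟨e, k⟩
  · rw [exx_star, hF]
    simp
  · rw [exx_nrm]
    omega
  · rw [exx_tri, hF]
    split_ifs with h1 h2 h3 h4 <;> simp_all

omit hD in
theorem exx_star_inr (hD : D.Ok) (s : St W) (b : W ⊕ Unit) :
    D.exx s (.inl false) (.inr b) = (D.Z + 2) * s.F.card := by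
  rw [exx_star]
  congr 2
  exact Finset.filter_true_of_mem fun e _ => hD.bY e b

/-! columns -/

/-- the rank of a column -/
noncomputable def rk (D : Data W) (x : Col W) : ℕ := SLO.rank D.clt {x | D.vc x} x

omit hD in
theorem mem_mid (s : St W) {x : Col W} (hx : D.vc x) : (x, (.inr (.inr ()), 1)) ∈ D.pres s := by
  refine ⟨⟨hx, by simp [len]⟩, fun i hi => ?_⟩
  rcases x with x | ⟨e, k⟩
  · simp [id] at hi
  · simp [id] at hi

omit hD in
theorem colNo_eq (s : St W) (c : Col W × (Band W × ℕ)) :
    D.board.colNo (D.pres s) c = D.rk c.1 := by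
  unfold Board.colNo rk SLO.rank
  congr 1
  ext x
  constructor
  · rintro ⟨h1, y, h2⟩
    exact ⟨h2.1.1, h1⟩
  · rintro ⟨h1, h2⟩
    exact ⟨h2, _, mem_mid s h1⟩

theorem rk_inj {x y : Col W} (hx : D.vc x) (hy : D.vc y) (h : D.rk x = D.rk y) : x = y :=
  hD.clt.rank_inj {x | D.vc x} hx hy h

/-- links -/
def Lk (D : Data W) (s : St W) (c c' : Col W × (Band W × ℕ)) : Prop :=
  D.board.Adj (D.pres s) c c' ∧ D.board.same c c'

/-- connectedness -/
def Cn (D : Data W) (s : St W) (c c' : Col W × (Band W × ℕ)) : Prop :=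
  Relation.ReflTransGen (D.Lk s) c c'

omit hD in
theorem Lk.symm {s : St W} {c c' : Col W × (Band W × ℕ)} (h : D.Lk s c c') : D.Lk s c' c := by
  obtain ⟨⟨h1, h2, h3⟩, h4⟩ := h
  refine ⟨⟨h2, h1, ?_⟩, ?_⟩
  · rcases h3 with ⟨h5, h6⟩ | ⟨h5, h6⟩
    · exact Or.inl ⟨h5.symm, h6.symm⟩
    · exact Or.inr ⟨h5.symm, h6.symm⟩
  · rcases h4 with h4 | ⟨i, i', h5, h6, h7⟩
    · exact Or.inl h4.symm
    · exact Or.inr ⟨i', i, h6, h5, h7.symm⟩

omit hD in
theorem Lk.ne {s : St W} {c c' : Col W × (Band W × ℕ)} (h : D.Lk s c c') : c ≠ c' := by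
  rintro rfl
  obtain ⟨⟨_, _, h | h⟩, _⟩ := h <;> omega

omit hD in
theorem Lk.ids {s : St W} {c c' : Col W × (Band W × ℕ)} (h : D.Lk s c c') :
    ∃ i i', D.id c = some i ∧ D.id c' = some i' ∧ i.hue = i'.hue :=
  h.2.resolve_left h.ne

omit hD in
theorem Cn.symm {s : St W} {c c' : Col W × (Band W × ℕ)} (h : D.Cn s c c') : D.Cn s c' c := by
  induction h with
  | refl => exact Relation.ReflTransGen.refl
  | tail _ h ih => exact Relation.ReflTransGen.head h.symm ih

omit hD in
theorem Cn.trans {s : St W} {c c' c'' : Col W × (Band W × ℕ)} (h : D.Cn s c c')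
    (h' : D.Cn s c' c'') : D.Cn s c c'' := Relation.ReflTransGen.trans h h'

/-! slab cells -/

/-- valid slab bands -/
def val (D : Data W) : Band W → Prop
  | .inl e => D.adj e.1 e.2
  | .inr (.inl w) => D.isV w
  | .inr (.inr _) => False

omit hD in
theorem id_slab {b : Band W} {i : Id W} (hb : slab b = some i) (x : Col W) (o : ℕ) :
    D.id (x, (b, o)) = if o < D.T + D.ex x b then some i else none := by
  rcases b with e | w | u
  · obtain rfl := Option.some.inj hb
    rfl
  · obtain rfl := Option.some.inj hb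
    rfl
  · simp [slab] at hb

omit hD in
theorem dead_iff {s : St W} {b : Band W} {i : Id W} (hb : slab b = some i) :
    s.dead i ↔ s.dl b := by
  rcases b with e | w | u
  · obtain rfl := Option.some.inj hb
    rfl
  · obtain rfl := Option.some.inj hb
    rfl
  · simp [slab] at hb

omit hD in
theorem le_len {b : Band W} (hv : D.val b) (x : Col W) : D.T + D.ex x b ≤ D.len b := by
  rcases b with e | w | u
  · have h2 := ex_le (D := D) x (.inl e)
    simp only [len, if_pos (show D.adj e.1 e.2 from hv)]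
    omega
  · have h2 := exB_le (D := D) x w
    simp only [len, if_pos (show D.isV w from hv)]
    omega
  · exact hv.elim

omit hD in
theorem exists_slab {b : Band W} (hv : D.val b) : ∃ i, slab b = some i := by
  rcases b with e | w | u
  · exact ⟨_, rfl⟩
  · exact ⟨_, rfl⟩
  · exact hv.elim

omit hD in
theorem mem_band {s : St W} {b : Band W} (hv : D.val b) (hd : ¬ s.dl b) {x : Col W}
    (hx : D.vc x) {o : ℕ} (ho : o < D.len b) : (x, (b, o)) ∈ D.pres s := by
  obtain ⟨i, hi⟩ := exists_slab hv
  refine ⟨⟨hx, ho⟩, fun j hj => ?_⟩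
  rw [id_slab hi] at hj
  split_ifs at hj
  obtain rfl := Option.some.inj hj
  rwa [dead_iff hi]

theorem height_band {s : St W} (hs : D.Inv s) {b : Band W} (hv : D.val b) (hd : ¬ s.dl b)
    {x : Col W} (hx : D.vc x) {o : ℕ} (ho : o ≤ D.len b) :
    D.board.height (D.pres s) (x, (b, o)) + D.exx s x b = D.bs s b + o :=
  height_add hD hs hx fun _ ho' => mem_band hv hd hx (ho'.trans_le ho)

theorem lk_vert {s : St W} (hs : D.Inv s) {b : Band W} (hv : D.val b) (hd : ¬ s.dl b)
    {x : Col W} (hx : D.vc x) {o : ℕ} (ho : o + 1 < D.T + D.ex x b) :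
    D.Lk s (x, (b, o)) (x, (b, o + 1)) := by
  have hl := le_len hv x
  obtain ⟨i, hi⟩ := exists_slab hv
  have h1 := height_band hD hs hv hd hx (o := o) (by omega)
  have h2 := height_band hD hs hv hd hx (o := o + 1) (by omega)
  refine ⟨⟨mem_band hv hd hx (by omega), mem_band hv hd hx (by omega), Or.inl ⟨?_, ?_⟩⟩,
    Or.inr ⟨i, i, ?_, ?_, rfl⟩⟩
  · rw [colNo_eq, colNo_eq]
  · right
    omega
  · rw [id_slab hi, if_pos (by omega)]
  · rw [id_slab hi, if_pos (by omega)]

theorem cn_vert {s : St W} (hs : D.Inv s) {b : Band W} (hv : D.val b) (hd : ¬ s.dl b)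
    {x : Col W} (hx : D.vc x) {o o' : ℕ} (ho : o < D.T + D.ex x b) (ho' : o' < D.T + D.ex x b) :
    D.Cn s (x, (b, o)) (x, (b, o')) := by
  have key : ∀ o, o < D.T + D.ex x b → D.Cn s (x, (b, 0)) (x, (b, o)) := by
    intro o
    induction o with
    | zero => exact fun _ => Relation.ReflTransGen.refl
    | succ o ih =>
      intro h
      exact (ih (by omega)).tail (lk_vert hD hs hv hd hx h)
  exact (key o ho).symm.trans (key o' ho')

theorem cn_slab {s : St W} (hs : D.Inv s) {b : Band W} (hv : D.val b) (hd : ¬ s.dl b)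
    {x x' : Col W} (hx : D.vc x) (hx' : D.vc x') {o o' : ℕ} (ho : o < D.T + D.ex x b)
    (ho' : o' < D.T + D.ex x' b) : D.Cn s (x, (b, o)) (x', (b, o')) := by
  have key : ∀ x ∈ {x | D.vc x}, ∀ y ∈ {x | D.vc x},
      D.Cn s (x, (b, D.exx s x b)) (y, (b, D.exx s y b)) := by
    refine hD.clt.chain {x | D.vc x} (C := fun x y => D.Cn s (x, (b, D.exx s x b))
      (y, (b, D.exx s y b))) (fun _ _ => Relation.ReflTransGen.refl) (fun _ _ h => h.symm)
      (fun _ _ _ h h' => h.trans h') ?_
    intro x hx y hy hxy hg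
    refine Relation.ReflTransGen.single ?_
    obtain ⟨i, hi⟩ := exists_slab hv
    have l1 := le_len hv x
    have l2 := le_len hv y
    have e1 := exx_lt hD s x b
    have e2 := exx_lt hD s y b
    have h1 := height_band hD hs hv hd hx (o := D.exx s x b) (by omega)
    have h2 := height_band hD hs hv hd hy (o := D.exx s y b) (by omega)
    have h3 : D.rk y = D.rk x + 1 := hD.clt.rank_succ {x | D.vc x} hx hxy hg
    refine ⟨⟨mem_band hv hd hx (by omega), mem_band hv hd hy (by omega), Or.inr ⟨by omega, ?_⟩⟩,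
      Or.inr ⟨i, i, ?_, ?_, rfl⟩⟩
    · rw [colNo_eq, colNo_eq]
      exact Or.inr h3
    · rw [id_slab hi, if_pos (by omega)]
    · rw [id_slab hi, if_pos (by omega)]
  have e1 := exx_lt hD s x b
  have e2 := exx_lt hD s x' b
  exact (cn_vert hD hs hv hd hx ho (by omega)).trans
    ((key x hx x' hx').trans (cn_vert hD hs hv hd hx' (by omega) ho'))

end Data

end Pool.Agent.H92.Click
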