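import Pool.Agent.H92.Click.Geo2

/-!
The Clickomania board of a graph: groups.
-/

namespace Pool.Agent.H92.Click

open Classical

set_option linter.unusedSectionVars false

namespace Data

variable {W : Type} {D : Data W} [Fintype W]

/-! cells from ids -/

theorem of_id_Y {c : Col W × (Band W × ℕ)} {e : W × W} (h : D.id c = some (.Y e)) :
    ∃ x o, c = (x, (.inl e, o)) ∧ o < D.T + D.ex x (.inl e) := by
  obtain ⟨x, (e' | w | u), o⟩ := c
  · simp only [id] at h
    split_ifs at h with h1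
    have h2 : e' = e := by
      have := Option.some.inj h
      exact Id.Y.inj this
    subst h2
    exact ⟨x, o, rfl, h1⟩
  · simp only [id] at h
    split_ifs at h
    exact absurd (Option.some.inj h) (by simp)
  · rcases x with x | ⟨e', k⟩
    · simp [id] at h
    · simp only [id] at h
      split_ifs at h
      exact absurd (Option.some.inj h) (by simp)

theorem of_id_B {c : Col W × (Band W × ℕ)} {w : W} (h : D.id c = some (.B w)) :
    ∃ x o, c = (x, (.inr (.inl w), o)) ∧ o < D.T + D.ex x (.inr (.inl w)) := by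
  obtain ⟨x, (e' | w' | u), o⟩ := c
  · simp only [id] at h
    split_ifs at h
    exact absurd (Option.some.inj h) (by simp)
  · simp only [id] at h
    split_ifs at h with h1
    have h2 : w' = w := by
      have := Option.some.inj h
      exact Id.B.inj this
    subst h2
    exact ⟨x, o, rfl, h1⟩
  · rcases x with x | ⟨e', k⟩
    · simp [id] at h
    · simp only [id] at h
      split_ifs at h
      exact absurd (Option.some.inj h) (by simp)

/-- the test cells -/
def tc (e : W × W) (k : Fin 3) : Col W × (Band W × ℕ) :=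
  (.inr (e, k), (.inr (.inr ()), if k = 1 then 0 else 2))

theorem id_tc (e : W × W) (k : Fin 3) : D.id (tc e k) = some (.T e k) := by
  unfold tc
  simp only [id]
  rw [if_pos]
  by_cases hk : k = 1
  · exact Or.inl ⟨hk, if_pos hk⟩
  · exact Or.inr ⟨hk, if_neg hk⟩

theorem of_id_T {c : Col W × (Band W × ℕ)} {e : W × W} {k : Fin 3}
    (h : D.id c = some (.T e k)) : c = tc e k := by
  obtain ⟨x, (e' | w' | u), o⟩ := c
  · simp only [id] at h
    split_ifs at h
    exact absurd (Option.some.inj h) (by simp)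
  · simp only [id] at h
    split_ifs at h
    exact absurd (Option.some.inj h) (by simp)
  · rcases x with x | ⟨e', k'⟩
    · simp [id] at h
    · simp only [id] at h
      split_ifs at h with h1
      have h2 := Option.some.inj h
      simp only [Id.T.injEq] at h2
      obtain ⟨rfl, rfl⟩ := h2
      unfold tc
      rcases h1 with ⟨h1, rfl⟩ | ⟨h1, rfl⟩
      · rw [if_pos h1]
      · rw [if_neg h1]

theorem pres_diff {s s' : St W} (N : Set (Id W))
    (h : ∀ c ∈ D.full, ∀ i, D.id c = some i → (s'.dead i ↔ s.dead i ∨ i ∈ N)) :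
    D.pres s' = D.pres s \ {c | c ∈ D.pres s ∧ ∃ i ∈ N, D.id c = some i} := by
  ext c
  constructor
  · rintro ⟨h1, h2⟩
    have h3 : c ∈ D.pres s := ⟨h1, fun i hi hd => h2 i hi ((h c h1 i hi).2 (Or.inl hd))⟩
    exact ⟨h3, fun ⟨_, i, hi, hc⟩ => h2 i hc ((h c h1 i hc).2 (Or.inr hi))⟩
  · rintro ⟨h1, h2⟩
    refine ⟨h1.1, fun i hi hd => ?_⟩
    rcases (h c h1.1 i hi).1 hd with h3 | h3
    · exact h1.2 i hi h3
    · exact h2 ⟨h1, i, h3, hi⟩

theorem group_eq {s : St W} {c : Col W × (Band W × ℕ)} (N : Set (Id W)) (hc : c ∈ D.pres s)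
    (hN : ∃ i ∈ N, D.id c = some i)
    (h1 : ∀ c' c'', D.Lk s c' c'' → (∃ i ∈ N, D.id c' = some i) → ∃ i ∈ N, D.id c'' = some i)
    (h2 : ∀ c' ∈ D.pres s, (∃ i ∈ N, D.id c' = some i) → D.Cn s c c') :
    D.board.group (D.pres s) c = {c | c ∈ D.pres s ∧ ∃ i ∈ N, D.id c = some i} := by
  ext c'
  constructor
  · intro h
    change D.Cn s c c' at h
    induction h with
    | refl => exact ⟨hc, hN⟩
    | tail _ h ih => exact ⟨h.1.2.1, h1 _ _ h ih.2⟩
  · rintro ⟨h3, h4⟩
    exact h2 c' h3 h4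

variable (hD : D.Ok)
include hD

/-! heights -/

theorem finite_col (s : St W) (x : Col W) : {z : Band W × ℕ | (x, z) ∈ D.pres s}.Finite := by
  have h : ∀ b, D.len b ≤ D.T + D.Z + 3 := by
    intro b
    rcases b with e | w | u
    · simp only [len]
      split_ifs <;> omega
    · simp only [len]
      split_ifs <;> omega
    · simp only [len]
      omega
  refine Set.Finite.subset ((Set.finite_univ (α := Band W)).prod
    (Set.finite_lt_nat (D.T + D.Z + 3))) ?_
  rintro ⟨b, o⟩ hz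
  exact ⟨trivial, lt_of_lt_of_le hz.1.2 (h b)⟩

theorem height_lt (s : St W) {x : Col W} {y y' : Band W × ℕ} (h : D.board.below y y')
    (hy : (x, y) ∈ D.pres s) :
    D.board.height (D.pres s) (x, y) < D.board.height (D.pres s) (x, y') := by
  refine Set.ncard_lt_ncard ⟨?_, ?_⟩ ((finite_col hD s x).subset fun z hz => hz.2)
  · rintro ⟨b, o⟩ ⟨h1, h2⟩
    refine ⟨?_, h2⟩
    rcases h1 with h1 | ⟨h1, h1'⟩ <;> rcases h with h | ⟨h, h'⟩
    · exact Or.inl (hD.blt.tr _ _ _ h1 h)
    · exact Or.inl (h ▸ h1)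
    · exact Or.inl ((show b = y.1 from h1) ▸ h)
    · exact Or.inr ⟨h1.trans h, h1'.trans h'⟩
  · intro hsub
    have h1 := (hsub (show y ∈ {z | D.board.below z y' ∧ (x, z) ∈ D.pres s} from ⟨h, hy⟩)).1
    rcases h1 with h1 | ⟨_, h1⟩
    · exact hD.blt.irr _ h1
    · exact lt_irrefl _ h1

theorem bs_le {s : St W} {b b' : Band W} (h : D.blt b b') (hd : ¬ s.dl b) :
    D.bs s b + D.len b ≤ D.bs s b' := by
  unfold bs
  have h1 : D.len b = D.pt s b := by
    unfold pt
    rw [if_neg hd]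
    rfl
  rw [h1, add_comm, ← Finset.sum_insert]
  · refine Finset.sum_le_sum_of_subset ?_
    intro b'' hb''
    rw [Finset.mem_insert, Finset.mem_filter] at hb''
    rw [Finset.mem_filter]
    rcases hb'' with rfl | ⟨_, hb''⟩
    · exact ⟨Finset.mem_univ _, h⟩
    · exact ⟨Finset.mem_univ _, hD.blt.tr _ _ _ hb'' h⟩
  · rw [Finset.mem_filter]
    exact fun h => hD.blt.irr _ h.2

/-! separation before the first edge slab is deleted -/

theorem sep_aux {s : St W} (hs : D.Inv s) (hF : s.F = ∅) {x x' : Col W} {w w' : W} {o o' : ℕ}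
    (h1 : D.id (x, (.inr (.inl w), o)) = some (.B w))
    (hlt : D.blt (.inr (.inl w)) (.inr (.inl w')))
    (hadj : D.board.Adj (D.pres s) (x, (.inr (.inl w), o)) (x', (.inr (.inl w'), o'))) : False := by
  obtain ⟨p1, p2, h⟩ := hadj
  have vx : D.vc x := p1.1.1
  have vx' : D.vc x' := p2.1.1
  simp only [id] at h1
  have ho : o < D.T + D.ex x (.inr (.inl w)) := by
    by_contra hcon
    rw [if_neg hcon] at h1
    exact absurd h1 (by simp)
  have hex := exB_le (D := D) x w
  have hv : D.isV w := by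
    have := p1.1.2
    by_contra hcon
    simp [len, hcon] at this
  have hv' : D.isV w' := by
    have := p2.1.2
    by_contra hcon
    simp [len, hcon] at this
  have hd : ¬ s.dl (.inr (.inl w)) := p1.2 (.B w) (by simp only [id, if_pos ho])
  have hlen : D.len (.inr (.inl w)) = D.T + 2 := by
    simp only [len, if_pos hv]
  have hh1 := height_band hD hs (b := .inr (.inl w)) hv hd vx (o := o) (by omega)
  have hbs := bs_le hD hlt hd
  rcases h with ⟨h2, h3⟩ | ⟨h2, h3⟩
  · rw [colNo_eq, colNo_eq] at h2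
    have hx := rk_inj hD vx vx' h2
    subst hx
    have hm : (x, ((.inr (.inl w) : Band W), D.T + 1)) ∈ D.pres s :=
      mem_band (b := .inr (.inl w)) hv hd vx (by omega)
    have h4 := height_lt hD s (x := x) (y := (.inr (.inl w), D.T + 1)) (y' := (.inr (.inl w'), o'))
      (Or.inl hlt) hm
    have h5 := height_band hD hs (b := .inr (.inl w)) hv hd vx (o := D.T + 1) (by omega)
    omega
  · have e1 := exx_le_one hD hF x' (.inr (.inl w'))
    have hh2 : D.board.height (D.pres s) (x', (.inr (.inl w'), o')) +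
        D.exx s x' (.inr (.inl w')) ≥ D.bs s (.inr (.inl w')) := by
      by_cases hd' : s.dl (.inr (.inl w'))
      · -- a present cell above a deleted slab
        have h6 := height_add hD hs (x := x') vx' (b := .inr (.inl w')) (o := 0)
          (fun _ h => absurd h (Nat.not_lt_zero _))
        rcases Nat.eq_zero_or_pos o' with rfl | hpos
        · omega
        · have h7 : D.board.height (D.pres s) (x', (.inr (.inl w'), 0)) ≤
              D.board.height (D.pres s) (x', (.inr (.inl w'), o')) := by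
            refine Set.ncard_le_ncard ?_ ((finite_col hD s x').subset fun z hz => hz.2)
            rintro ⟨b, o''⟩ ⟨h8, h9⟩
            refine ⟨?_, h9⟩
            rcases h8 with h8 | ⟨h8, h8'⟩
            · exact Or.inl h8
            · exact Or.inr ⟨h8, lt_trans h8' hpos⟩
          omega
      · have hl : o' < D.len (.inr (.inl w')) := p2.1.2
        have := height_band hD hs (b := .inr (.inl w')) hv' hd' vx' (o := o') hl.le
        omega
    omega

theorem sep {s : St W} (hs : D.Inv s) (hF : s.F = ∅) {c c' : Col W × (Band W × ℕ)} {w w' : W}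
    (h : D.Lk s c c') (h1 : D.id c = some (.B w)) (h2 : D.id c' = some (.B w')) : w = w' := by
  obtain ⟨x, o, rfl, ho⟩ := of_id_B h1
  obtain ⟨x', o', rfl, ho'⟩ := of_id_B h2
  rcases hD.blt.tri (.inr (.inl w)) (.inr (.inl w')) with h3 | h3 | h3
  · exact (sep_aux hD hs hF h1 h3 h.1).elim
  · exact Sum.inl.inj (Sum.inr.inj h3)
  · exact (sep_aux hD hs hF h2 h3 h.symm.1).elim

/-! merging after the first edge slab is deleted -/

theorem bs_ub {s : St W} {w w' : W} (h : D.blt (.inr (.inl w)) (.inr (.inl w')))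
    (hw : D.isV w) (hwX : w ∉ s.X)
    (hg : ∀ z, D.isV z → z ∉ s.X → ¬ (D.blt (.inr (.inl w)) (.inr (.inl z)) ∧
      D.blt (.inr (.inl z)) (.inr (.inl w')))) :
    D.bs s (.inr (.inl w')) ≤ D.bs s (.inr (.inl w)) + D.T + 2 * Fintype.card W := by
  let M : Finset (Band W) := ((Finset.univ.erase w).filter (fun z => ¬ (D.isV z ∧ z ∉ s.X))).map
    ⟨fun z => .inr (.inl z), fun a b h => Sum.inl.inj (Sum.inr.inj h)⟩
  have hsub : Finset.univ.filter (fun b => D.blt b (.inr (.inl w'))) ⊆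
      (Finset.univ.filter (fun b => D.blt b (.inr (.inl w)))) ∪ ({.inr (.inl w)} ∪ M) := by
    intro b hb
    rw [Finset.mem_filter] at hb
    rw [Finset.mem_union, Finset.mem_union, Finset.mem_filter, Finset.mem_singleton]
    rcases hD.blt.tri b (.inr (.inl w)) with h1 | h1 | h1
    · exact Or.inl ⟨Finset.mem_univ _, h1⟩
    · exact Or.inr (Or.inl h1)
    · refine Or.inr (Or.inr ?_)
      rcases b with e | z | u
      · exact absurd (hD.blt.tr _ _ _ h1 (hD.bY e _)) (hD.blt.irr _)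
      · refine Finset.mem_map.2 ⟨z, ?_, rfl⟩
        rw [Finset.mem_filter, Finset.mem_erase]
        refine ⟨⟨?_, Finset.mem_univ _⟩, fun hz => hg z hz.1 hz.2 ⟨h1, hb.2⟩⟩
        rintro rfl
        exact hD.blt.irr _ h1
      · exact absurd hb.2 (hD.top_max _)
  have hM : ∑ b ∈ M, D.pt s b ≤ 2 * (Fintype.card W - 1) := by
    have h1 : ∀ b ∈ M, D.pt s b ≤ 2 := by
      intro b hb
      obtain ⟨z, hz, rfl⟩ := Finset.mem_map.1 hb
      rw [Finset.mem_filter] at hz
      change D.pt s (.inr (.inl z)) ≤ 2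
      unfold pt
      by_cases hz1 : D.isV z
      · have hz2 : z ∈ s.X := by
          by_contra hcon
          exact hz.2 ⟨hz1, hcon⟩
        rw [if_pos (show s.dl (.inr (.inl z)) from hz2)]
        simp only [len, if_pos hz1]
        omega
      · simp only [len, if_neg hz1]
        omega
    calc ∑ b ∈ M, D.pt s b ≤ M.card • 2 := Finset.sum_le_card_nsmul _ _ _ h1
      _ ≤ 2 * (Fintype.card W - 1) := by
          rw [smul_eq_mul, mul_comm]
          refine Nat.mul_le_mul_left 2 ?_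
          rw [Finset.card_map]
          refine (Finset.card_filter_le _ _).trans ?_
          rw [Finset.card_erase_of_mem (Finset.mem_univ _), Finset.card_univ]
  have hpw : D.pt s (.inr (.inl w)) = D.T + 2 := by
    unfold pt
    rw [if_neg (show ¬ s.dl (.inr (.inl w)) from hwX)]
    simp only [len, if_pos hw]
    rfl
  have hcard : 0 < Fintype.card W := Fintype.card_pos_iff.2 ⟨w⟩
  have hun : ∀ A B : Finset (Band W), ∑ b ∈ A ∪ B, D.pt s b ≤
      ∑ b ∈ A, D.pt s b + ∑ b ∈ B, D.pt s b := by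
    intro A B
    rw [← Finset.sum_union_inter]
    omega
  have h1 := (Finset.sum_le_sum_of_subset (f := D.pt s) hsub).trans (hun _ _)
  have h2 := hun {(.inr (.inl w) : Band W)} M
  rw [Finset.sum_singleton, hpw] at h2
  unfold bs
  omega

theorem merge_step {s : St W} (hs : D.Inv s) (hF : s.F ≠ ∅) {w w' : W}
    (h : D.blt (.inr (.inl w)) (.inr (.inl w'))) (hw : D.isV w) (hwX : w ∉ s.X)
    (hw' : D.isV w') (hwX' : w' ∉ s.X)
    (hg : ∀ z, D.isV z → z ∉ s.X → ¬ (D.blt (.inr (.inl w)) (.inr (.inl z)) ∧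
      D.blt (.inr (.inl z)) (.inr (.inl w')))) :
    D.Cn s (.inl true, (.inr (.inl w), 0)) (.inl true, (.inr (.inl w'), 0)) := by
  have hT := hD.hT
  have hZ := hD.hZ
  have hub := bs_ub hD h hw hwX hg
  have hlb := bs_le hD (s := s) h (show ¬ s.dl (.inr (.inl w)) from hwX)
  have hlen : ∀ w, D.isV w → D.len (.inr (.inl w)) = D.T + 2 := fun w hw => by
    simp only [len, if_pos hw]
  rw [hlen w hw] at hlb
  have hF1 : 1 ≤ s.F.card := Finset.card_pos.2 (Finset.nonempty_iff_ne_empty.2 hF)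
  have hF2 := card_F_le s
  have hZF : D.Z + 2 ≤ (D.Z + 2) * s.F.card := Nat.le_mul_of_pos_right _ hF1
  have hZF2 := Nat.mul_le_mul_left (D.Z + 2) hF2
  have v1 : D.vc (.inl true : Col W) := trivial
  have v2 : D.vc (.inl false : Col W) := trivial
  set o := (D.Z + 2) * s.F.card + D.bs s (.inr (.inl w)) + D.T - 1 - D.bs s (.inr (.inl w')) with ho
  have ho1 : o < D.T := by omega
  have a1 := height_band hD hs (b := .inr (.inl w)) hw hwX v1 (o := D.T - 1)
    (by rw [hlen w hw]; omega)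
  have a2 := height_band hD hs (b := .inr (.inl w')) hw' hwX' v2 (o := o)
    (by rw [hlen w' hw']; omega)
  rw [exx_nrm] at a1
  rw [exx_star_inr hD] at a2
  have hrk : D.rk (.inl true) = D.rk (.inl false) + 1 :=
    hD.clt.rank_succ {x | D.vc x} v2 hD.c0 fun z _ => hD.g0 z
  have hlk : D.Lk s (.inl true, (.inr (.inl w), D.T - 1)) (.inl false, (.inr (.inl w'), o)) := by
    refine ⟨⟨mem_band (b := .inr (.inl w)) hw hwX v1 (by rw [hlen w hw]; omega),
      mem_band (b := .inr (.inl w')) hw' hwX' v2 (by rw [hlen w' hw']; omega),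
      Or.inr ⟨by omega, ?_⟩⟩, Or.inr ⟨.B w, .B w', ?_, ?_, rfl⟩⟩
    · rw [colNo_eq, colNo_eq]
      exact Or.inl hrk
    · rw [id_slab (i := .B w) rfl, if_pos (by omega)]
    · rw [id_slab (i := .B w') rfl, if_pos (by omega)]
  exact ((cn_vert hD hs (b := .inr (.inl w)) hw hwX v1 (by omega) (by omega)).tail hlk).trans
    (cn_slab hD hs (b := .inr (.inl w')) hw' hwX' v2 v1 (by omega) (by omega))

theorem merge {s : St W} (hs : D.Inv s) (hF : s.F ≠ ∅) {w w' : W} (hw : D.isV w)
    (hwX : w ∉ s.X) (hw' : D.isV w') (hwX' : w' ∉ s.X) :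
    D.Cn s (.inl true, (.inr (.inl w), 0)) (.inl true, (.inr (.inl w'), 0)) := by
  refine hD.blt.chain {b | ∃ w, b = .inr (.inl w) ∧ D.isV w ∧ w ∉ s.X}
    (C := fun b b' => D.Cn s (.inl true, (b, 0)) (.inl true, (b', 0)))
    (fun _ _ => Relation.ReflTransGen.refl) (fun _ _ h => h.symm)
    (fun _ _ _ h h' => h.trans h') ?_ _ ⟨w, rfl, hw, hwX⟩ _ ⟨w', rfl, hw', hwX'⟩
  rintro _ ⟨a, rfl, ha, haX⟩ _ ⟨b, rfl, hb, hbX⟩ hab hg
  exact merge_step hD hs hF hab ha haX hb hbX fun z hz hzX => hg _ ⟨z, rfl, hz, hzX⟩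

/-! groups of slabs -/

theorem group_Y {s : St W} (hs : D.Inv s) {c : Col W × (Band W × ℕ)} (hc : c ∈ D.pres s)
    {e : W × W} (h : D.id c = some (.Y e)) :
    D.board.group (D.pres s) c = {c | c ∈ D.pres s ∧ ∃ i ∈ ({.Y e} : Set (Id W)),
      D.id c = some i} := by
  refine group_eq _ hc ⟨_, rfl, h⟩ ?_ ?_
  · rintro c' c'' hl ⟨_, rfl, h1⟩
    obtain ⟨i, i', h2, h3, h4⟩ := hl.ids
    rw [h1] at h2
    obtain rfl := Option.some.inj h2
    rcases i' with e' | w | ⟨e', k⟩
    · simp only [Id.hue, Sum.inl.injEq] at h4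
      subst h4
      exact ⟨_, rfl, h3⟩
    · simp [Id.hue] at h4
    · simp [Id.hue] at h4
  · rintro c' hc' ⟨_, rfl, h1⟩
    obtain ⟨x, o, rfl, ho⟩ := of_id_Y h
    obtain ⟨x', o', rfl, ho'⟩ := of_id_Y h1
    have hv : D.adj e.1 e.2 := by
      have := hc.1.2
      by_contra hcon
      simp [len, hcon] at this
    exact cn_slab hD hs (b := .inl e) hv (hc.2 _ h) hc.1.1 hc'.1.1 ho ho'

theorem group_B {s : St W} (hs : D.Inv s) (hF : s.F = ∅) {c : Col W × (Band W × ℕ)}
    (hc : c ∈ D.pres s) {w : W} (h : D.id c = some (.B w)) :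
    D.board.group (D.pres s) c = {c | c ∈ D.pres s ∧ ∃ i ∈ ({.B w} : Set (Id W)),
      D.id c = some i} := by
  refine group_eq _ hc ⟨_, rfl, h⟩ ?_ ?_
  · rintro c' c'' hl ⟨_, rfl, h1⟩
    obtain ⟨i, i', h2, h3, h4⟩ := hl.ids
    rw [h1] at h2
    obtain rfl := Option.some.inj h2
    rcases i' with e' | w' | ⟨e', k⟩
    · simp [Id.hue] at h4
    · obtain rfl := sep hD hs hF hl h1 h3
      exact ⟨_, rfl, h3⟩
    · simp [Id.hue] at h4
  · rintro c' hc' ⟨_, rfl, h1⟩
    obtain ⟨x, o, rfl, ho⟩ := of_id_B h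
    obtain ⟨x', o', rfl, ho'⟩ := of_id_B h1
    have hv : D.isV w := by
      have := hc.1.2
      by_contra hcon
      simp [len, hcon] at this
    exact cn_slab hD hs (b := .inr (.inl w)) hv (hc.2 _ h) hc.1.1 hc'.1.1 ho ho'

theorem group_K {s : St W} (hs : D.Inv s) (hF : s.F ≠ ∅) {c : Col W × (Band W × ℕ)}
    (hc : c ∈ D.pres s) {w : W} (h : D.id c = some (.B w)) :
    D.board.group (D.pres s) c = {c | c ∈ D.pres s ∧ ∃ i ∈ (Set.range .B : Set (Id W)),
      D.id c = some i} := by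
  refine group_eq _ hc ⟨_, ⟨w, rfl⟩, h⟩ ?_ ?_
  · rintro c' c'' hl ⟨_, ⟨w', rfl⟩, h1⟩
    obtain ⟨i, i', h2, h3, h4⟩ := hl.ids
    rw [h1] at h2
    obtain rfl := Option.some.inj h2
    rcases i' with e' | w' | ⟨e', k⟩
    · simp [Id.hue] at h4
    · exact ⟨_, ⟨_, rfl⟩, h3⟩
    · simp [Id.hue] at h4
  · rintro c' hc' ⟨_, ⟨w', rfl⟩, h1⟩
    obtain ⟨x, o, rfl, ho⟩ := of_id_B h
    obtain ⟨x', o', rfl, ho'⟩ := of_id_B h1
    have hT := hD.hT
    have hv : D.isV w := by
      have := hc.1.2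
      by_contra hcon
      simp [len, hcon] at this
    have hv' : D.isV w' := by
      have := hc'.1.2
      by_contra hcon
      simp [len, hcon] at this
    have v1 : D.vc (.inl true : Col W) := trivial
    have hd := hc.2 _ h
    have hd' := hc'.2 _ h1
    exact (cn_slab hD hs (b := .inr (.inl w)) hv hd hc.1.1 v1 ho (by omega)).trans
      ((merge hD hs hF hv hd hv' hd').trans
        (cn_slab hD hs (b := .inr (.inl w')) hv' hd' v1 hc'.1.1 (by omega) ho'))

/-! the test cells -/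

/-- the test cell `k` is linked to the middle one -/
def lkt (s : St W) (e : W × W) (k : Fin 3) : Prop :=
  k = 1 ∨ (e ∈ s.F ∧ ((k = 0 ∧ e.1 ∉ s.X) ∨ (k = 2 ∧ e.2 ∉ s.X)))

omit hD in
theorem pres_tc {s : St W} {e : W × W} (he : D.adj e.1 e.2) (k : Fin 3) :
    tc e k ∈ D.pres s ↔ (e, k) ∉ s.R := by
  constructor
  · intro h
    exact h.2 _ (id_tc e k)
  · intro h
    refine ⟨⟨he, ?_⟩, fun i hi => ?_⟩
    · unfold tc
      simp only [len]
      split_ifs <;> omega
    · rw [id_tc] at hi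
      obtain rfl := Option.some.inj hi
      exact h

theorem height_tc {s : St W} (hs : D.Inv s) {e : W × W} (he : D.adj e.1 e.2) (k : Fin 3) :
    D.board.height (D.pres s) (tc e k) + D.exx s (.inr (e, k)) (.inr (.inr ())) =
      D.bs s (.inr (.inr ())) + if k = 1 then 0 else 2 := by
  refine height_add hD hs (x := .inr (e, k)) he fun o ho => ?_
  split_ifs at ho with hk
  · omega
  · refine ⟨⟨he, ?_⟩, fun i hi => ?_⟩
    · simp only [len]
      omega
    · simp only [id] at hi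
      rw [if_neg] at hi
      · exact absurd hi (by simp)
      · rintro (⟨h1, _⟩ | ⟨_, h1⟩)
        · exact hk h1
        · omega

omit hD in
theorem Lk.tc {s : St W} {c c' : Col W × (Band W × ℕ)} (h : D.Lk s c c') {e : W × W} {k : Fin 3}
    (hc : D.id c = some (.T e k)) : ∃ k', D.id c' = some (.T e k') := by
  obtain ⟨i, i', h2, h3, h4⟩ := h.ids
  rw [hc] at h2
  obtain rfl := Option.some.inj h2
  rcases i' with e' | w' | ⟨e', k'⟩
  · simp [Id.hue] at h4
  · simp [Id.hue] at h4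
  · simp only [Id.hue, Sum.inr.injEq] at h4
    subst h4
    exact ⟨k', h3⟩

theorem rk_tc {e : W × W} (he : D.adj e.1 e.2) :
    D.rk (.inr (e, 1)) = D.rk (.inr (e, 0)) + 1 ∧ D.rk (.inr (e, 2)) = D.rk (.inr (e, 1)) + 1 :=
  ⟨hD.clt.rank_succ {x | D.vc x} (show D.vc (.inr (e, 0)) from he) (hD.c1 e) fun z _ => hD.g1 e z,
    hD.clt.rank_succ {x | D.vc x} (show D.vc (.inr (e, 1)) from he) (hD.c2 e) fun z _ => hD.g2 e z⟩

theorem lk_tc {s : St W} (hs : D.Inv s) {e : W × W} (he : D.adj e.1 e.2) {k : Fin 3}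
    (hk : k ≠ 1) : D.Lk s (tc e k) (tc e 1) ↔ (e, k) ∉ s.R ∧ (e, 1) ∉ s.R ∧ lkt s e k := by
  have h1 := height_tc hD hs he k
  have h2 := height_tc hD hs he 1
  have h3 := rk_tc hD he
  rw [exx_tri] at h1 h2
  have hbe := hD.bY e (.inr ())
  have hb1 := hD.bB e.1
  have hb2 := hD.bB e.2
  have hsame : D.board.same (tc e k) (tc e 1) := Or.inr ⟨_, _, id_tc e k, id_tc e 1, rfl⟩
  unfold Lk Board.Adj
  rw [pres_tc he, pres_tc he, colNo_eq, colNo_eq]
  have hk' : k = 0 ∨ k = 2 := by omega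
  rcases hk' with rfl | rfl
  · simp only [hbe, hb1, true_and] at h1 h2
    simp only [hsame, and_true]
    refine and_congr_right fun _ => and_congr_right fun _ => ?_
    change ((D.rk (.inr (e, 0)) = D.rk (.inr (e, 1)) ∧ _) ∨ (_ ∧
      (D.rk (.inr (e, 0)) = D.rk (.inr (e, 1)) + 1 ∨ D.rk (.inr (e, 1)) =
        D.rk (.inr (e, 0)) + 1))) ↔ _
    unfold lkt
    by_cases hf : e ∈ s.F <;> by_cases hx : e.1 ∈ s.X <;> simp [hf, hx] at h1 h2 ⊢ <;> omega
  · simp only [hbe, hb2, true_and] at h1 h2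
    simp only [hsame, and_true]
    refine and_congr_right fun _ => and_congr_right fun _ => ?_
    change ((D.rk (.inr (e, 2)) = D.rk (.inr (e, 1)) ∧ _) ∨ (_ ∧
      (D.rk (.inr (e, 2)) = D.rk (.inr (e, 1)) + 1 ∨ D.rk (.inr (e, 1)) =
        D.rk (.inr (e, 2)) + 1))) ↔ _
    unfold lkt
    by_cases hf : e ∈ s.F <;> by_cases hx : e.2 ∈ s.X <;> simp [hf, hx] at h1 h2 ⊢ <;> omega

theorem not_lk_tc {s : St W} {e : W × W} (he : D.adj e.1 e.2) : ¬ D.Lk s (tc e 0) (tc e 2) := by
  rintro ⟨⟨_, _, h⟩, _⟩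
  have h3 := rk_tc hD he
  rw [colNo_eq, colNo_eq] at h
  change ((D.rk (.inr (e, 0)) = D.rk (.inr (e, 2)) ∧ _) ∨ (_ ∧
      (D.rk (.inr (e, 0)) = D.rk (.inr (e, 2)) + 1 ∨ D.rk (.inr (e, 2)) =
        D.rk (.inr (e, 0)) + 1))) at h
  omega

theorem lk_tc_cases {s : St W} (hs : D.Inv s) {e : W × W} (he : D.adj e.1 e.2) {k k' : Fin 3}
    (h : D.Lk s (tc e k) (tc e k')) : (e, 1) ∉ s.R ∧ lkt s e k ∧ lkt s e k' := by
  have hne : k ≠ k' := by
    rintro rfl
    exact h.ne rfl
  by_cases hk : k = 1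
  · subst hk
    have := (lk_tc hD hs he (Ne.symm hne)).1 h.symm
    exact ⟨this.2.1, Or.inl rfl, this.2.2⟩
  · by_cases hk' : k' = 1
    · subst hk'
      have := (lk_tc hD hs he hne).1 h
      exact ⟨this.2.1, this.2.2, Or.inl rfl⟩
    · exfalso
      have h0 : (k = 0 ∧ k' = 2) ∨ (k = 2 ∧ k' = 0) := by omega
      rcases h0 with ⟨rfl, rfl⟩ | ⟨rfl, rfl⟩
      · exact not_lk_tc hD he h
      · exact not_lk_tc hD he h.symm

theorem group_T {s : St W} (hs : D.Inv s) {e : W × W} (he : D.adj e.1 e.2) (hR : (e, 1) ∉ s.R)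
    {k : Fin 3} (hk : lkt s e k) :
    D.board.group (D.pres s) (tc e k) = {c | c ∈ D.pres s ∧
      ∃ i ∈ ({i | ∃ k', i = .T e k' ∧ lkt s e k'} : Set (Id W)), D.id c = some i} := by
  have hR' : ∀ k, (e, k) ∉ s.R := fun k h => hR (hs.R e k h)
  have hcn : ∀ k', lkt s e k' → D.Cn s (tc e k') (tc e 1) := by
    intro k' hk'
    by_cases h1 : k' = 1
    · subst h1
      exact Relation.ReflTransGen.refl
    · exact Relation.ReflTransGen.single ((lk_tc hD hs he h1).2 ⟨hR' _, hR' _, hk'⟩)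
  refine group_eq _ ((pres_tc he k).2 (hR' k)) ⟨_, ⟨k, rfl, hk⟩, id_tc e k⟩ ?_ ?_
  · rintro c' c'' hl ⟨_, ⟨k', rfl, h2⟩, h1⟩
    obtain ⟨k'', h3⟩ := hl.tc h1
    have e1 := of_id_T h1
    have e2 := of_id_T h3
    subst e1 e2
    exact ⟨_, ⟨k'', rfl, (lk_tc_cases hD hs he hl).2.2⟩, h3⟩
  · rintro c' hc' ⟨_, ⟨k', rfl, h2⟩, h1⟩
    have e1 := of_id_T h1
    subst e1
    exact (hcn k hk).trans (hcn k' h2).symm

end Data

end Pool.Agent.H92.Click
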