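import Pool.Agent.H92.Click.Geo3

/-!
The Clickomania board of a graph plays as Node Kayles on the graph.
-/

namespace Pool.Agent.H92.Click

open Classical

set_option linter.unusedSectionVars false

/-- moves of Node Kayles: choose a vertex that is neither chosen nor adjacent to a chosen one -/
def NK {W : Type} (isV : W → Prop) (adj : W → W → Prop) (I I' : Finset W) : Prop :=
  ∃ w, isV w ∧ w ∉ I ∧ (∀ u ∈ I, ¬ adj u w) ∧ ∀ z, z ∈ I' ↔ z = w ∨ z ∈ I

theorem nk_iff {W : Type} [DecidableEq W] {isV : W → Prop} {adj : W → W → Prop}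
    {I I' : Finset W} : NK isV adj I I' ↔
      ∃ w, isV w ∧ w ∉ I ∧ (∀ u ∈ I, ¬ adj u w) ∧ I' = insert w I := by
  refine exists_congr fun w => and_congr_right fun _ => and_congr_right fun _ =>
    and_congr_right fun _ => ?_
  rw [Finset.ext_iff]
  simp only [Finset.mem_insert]

theorem nk_card {W : Type} [Fintype W] [DecidableEq W] {isV : W → Prop} {adj : W → W → Prop}
    (I I' : Finset W) (h : NK isV adj I I') : I'ᶜ.card < Iᶜ.card := by
  obtain ⟨w, _, h2, _, rfl⟩ := nk_iff.1 h
  exact Finset.card_lt_card (Finset.compl_ssubset_compl.2 (Finset.ssubset_insert h2))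

namespace Data

variable {W : Type} [Fintype W]

/-- abstract moves -/
inductive AM (D : Data W) (s : St W) : St W → Prop
  | y (e : W × W) : D.adj e.1 e.2 → e ∉ s.F → AM D s ⟨insert e s.F, s.X, s.R⟩
  | b (w : W) : D.isV w → w ∉ s.X → s.F = ∅ → AM D s ⟨s.F, insert w s.X, s.R⟩
  | k (w : W) : D.isV w → w ∉ s.X → s.F ≠ ∅ →
      AM D s ⟨s.F, Finset.univ.filter D.isV, s.R⟩
  | t (e : W × W) (k : Fin 3) : D.adj e.1 e.2 → (e, 1) ∉ s.R → k ≠ 1 → lkt s e k →
      AM D s ⟨s.F, s.X, Finset.univ.filter (fun p => p ∈ s.R ∨ (p.1 = e ∧ lkt s e p.2))⟩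

variable {D : Data W} (hD : D.Ok)
include hD

theorem am_inv {s s' : St W} (hs : D.Inv s) (h : D.AM s s') : D.Inv s' := by
  cases h with
  | y e h1 h2 =>
    refine ⟨fun e' he' => ?_, hs.X, hs.R⟩
    rcases Finset.mem_insert.1 he' with rfl | h3
    · exact h1
    · exact hs.F _ h3
  | b w h1 h2 h3 =>
    refine ⟨hs.F, fun w' hw' => ?_, hs.R⟩
    rcases Finset.mem_insert.1 hw' with rfl | h3
    · exact h1
    · exact hs.X _ h3
  | k w h1 h2 h3 => exact ⟨hs.F, fun w' hw' => (Finset.mem_filter.1 hw').2, hs.R⟩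
  | t e k h1 h2 h3 h4 =>
    refine ⟨hs.F, hs.X, fun e' k' h5 => ?_⟩
    simp only [Finset.mem_filter, Finset.mem_univ, true_and] at h5 ⊢
    rcases h5 with h5 | ⟨rfl, _⟩
    · exact Or.inl (hs.R _ _ h5)
    · exact Or.inr ⟨rfl, Or.inl rfl⟩

omit hD in
theorem lk_of_nontrivial {s : St W} {c : Col W × (Band W × ℕ)}
    (h : (D.board.group (D.pres s) c).Nontrivial) : ∃ c', D.Lk s c c' := by
  obtain ⟨d, hd, hne⟩ := h.exists_ne c
  have hd' : D.Cn s c d := hd
  rcases Relation.ReflTransGen.cases_head hd' with h1 | ⟨d', h1, _⟩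
  · exact absurd h1.symm hne
  · exact ⟨d', h1⟩

/-- deleting an edge slab -/
theorem move_Y {s : St W} (hs : D.Inv s) {c : Col W × (Band W × ℕ)} (hc : c ∈ D.pres s)
    {e : W × W} (h : D.id c = some (.Y e)) :
    D.pres s \ D.board.group (D.pres s) c = D.pres ⟨insert e s.F, s.X, s.R⟩ := by
  rw [group_Y hD hs hc h]
  refine (pres_diff _ fun c' _ i _ => ?_).symm
  rcases i with e' | w | ⟨e', k⟩
  · simp only [St.dead, Finset.mem_insert, Set.mem_singleton_iff, Id.Y.injEq]
    tauto
  · simp [St.dead]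
  · simp [St.dead]

theorem move_B {s : St W} (hs : D.Inv s) (hF : s.F = ∅) {c : Col W × (Band W × ℕ)}
    (hc : c ∈ D.pres s) {w : W} (h : D.id c = some (.B w)) :
    D.pres s \ D.board.group (D.pres s) c = D.pres ⟨s.F, insert w s.X, s.R⟩ := by
  rw [group_B hD hs hF hc h]
  refine (pres_diff _ fun c' _ i _ => ?_).symm
  rcases i with e' | w | ⟨e', k⟩
  · simp [St.dead]
  · simp only [St.dead, Finset.mem_insert, Set.mem_singleton_iff, Id.B.injEq]
    tauto
  · simp [St.dead]

theorem move_K {s : St W} (hs : D.Inv s) (hF : s.F ≠ ∅) {c : Col W × (Band W × ℕ)}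
    (hc : c ∈ D.pres s) {w : W} (h : D.id c = some (.B w)) :
    D.pres s \ D.board.group (D.pres s) c =
      D.pres ⟨s.F, Finset.univ.filter D.isV, s.R⟩ := by
  rw [group_K hD hs hF hc h]
  refine (pres_diff _ fun c' hc' i hi => ?_).symm
  rcases i with e' | w | ⟨e', k⟩
  · simp [St.dead]
  · obtain ⟨x, o, rfl, _⟩ := of_id_B hi
    have hv : D.isV w := by
      have := hc'.2
      by_contra hcon
      simp [len, hcon] at this
    simp [St.dead, hv]
  · simp [St.dead]

theorem move_T {s : St W} (hs : D.Inv s) {e : W × W} (he : D.adj e.1 e.2) (hR : (e, 1) ∉ s.R)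
    {k : Fin 3} (hk : lkt s e k) :
    D.pres s \ D.board.group (D.pres s) (tc e k) =
      D.pres ⟨s.F, s.X, Finset.univ.filter (fun p => p ∈ s.R ∨ (p.1 = e ∧ lkt s e p.2))⟩ := by
  rw [group_T hD hs he hR hk]
  refine (pres_diff _ fun c' _ i _ => ?_).symm
  rcases i with e' | w | ⟨e', k'⟩
  · simp [St.dead]
  · simp [St.dead]
  · simp only [St.dead, Finset.mem_filter, Finset.mem_univ, true_and, Set.mem_ofPred_eq,
      Id.T.injEq]
    refine or_congr_right ?_
    constructor
    · rintro ⟨rfl, h⟩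
      exact ⟨k', ⟨rfl, rfl⟩, h⟩
    · rintro ⟨k'', ⟨rfl, rfl⟩, h⟩
      exact ⟨rfl, h⟩

theorem am_move {s s' : St W} (hs : D.Inv s) (h : D.AM s s') :
    D.board.Move (D.pres s) (D.pres s') := by
  have hT := hD.hT
  have v1 : D.vc (.inl true : Col W) := trivial
  cases h with
  | y e h1 h2 =>
    have m : ∀ o, o < D.T → (((.inl true : Col W), ((.inl e : Band W), o)) ∈ D.pres s ∧
        D.id ((.inl true : Col W), ((.inl e : Band W), o)) = some (.Y e)) := by
      intro o ho
      have := le_len (b := .inl e) (show D.val (.inl e) from h1) (.inl true)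
      exact ⟨mem_band (b := .inl e) h1 h2 v1 (by omega),
        by rw [id_slab (i := .Y e) rfl, if_pos (by omega)]⟩
    have h3 := m 0 (by omega)
    have h4 := m 1 (by omega)
    refine ⟨_, h3.1, ?_, (move_Y hD hs h3.1 h3.2).symm⟩
    rw [group_Y hD hs h3.1 h3.2]
    exact ⟨_, ⟨h3.1, _, rfl, h3.2⟩, _, ⟨h4.1, _, rfl, h4.2⟩, by simp⟩
  | b w h1 h2 hF =>
    have m : ∀ o, o < D.T → (((.inl true : Col W), ((.inr (.inl w) : Band W), o)) ∈ D.pres s ∧
        D.id ((.inl true : Col W), ((.inr (.inl w) : Band W), o)) = some (.B w)) := by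
      intro o ho
      have := le_len (b := .inr (.inl w)) (show D.val (.inr (.inl w)) from h1) (.inl true)
      exact ⟨mem_band (b := .inr (.inl w)) h1 h2 v1 (by omega),
        by rw [id_slab (i := .B w) rfl, if_pos (by omega)]⟩
    have h3 := m 0 (by omega)
    have h4 := m 1 (by omega)
    refine ⟨_, h3.1, ?_, (move_B hD hs hF h3.1 h3.2).symm⟩
    rw [group_B hD hs hF h3.1 h3.2]
    exact ⟨_, ⟨h3.1, _, rfl, h3.2⟩, _, ⟨h4.1, _, rfl, h4.2⟩, by simp⟩
  | k w h1 h2 hF =>
    have m : ∀ o, o < D.T → (((.inl true : Col W), ((.inr (.inl w) : Band W), o)) ∈ D.pres s ∧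
        D.id ((.inl true : Col W), ((.inr (.inl w) : Band W), o)) = some (.B w)) := by
      intro o ho
      have := le_len (b := .inr (.inl w)) (show D.val (.inr (.inl w)) from h1) (.inl true)
      exact ⟨mem_band (b := .inr (.inl w)) h1 h2 v1 (by omega),
        by rw [id_slab (i := .B w) rfl, if_pos (by omega)]⟩
    have h3 := m 0 (by omega)
    have h4 := m 1 (by omega)
    refine ⟨_, h3.1, ?_, (move_K hD hs hF h3.1 h3.2).symm⟩
    rw [group_K hD hs hF h3.1 h3.2]
    exact ⟨_, ⟨h3.1, _, ⟨w, rfl⟩, h3.2⟩, _, ⟨h4.1, _, ⟨w, rfl⟩, h4.2⟩, by simp⟩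
  | t e k h1 h2 h3 h4 =>
    have hR' : ∀ k, (e, k) ∉ s.R := fun k h => h2 (hs.R e k h)
    refine ⟨tc e 1, (pres_tc h1 1).2 h2, ?_, (move_T hD hs h1 h2 (Or.inl rfl)).symm⟩
    rw [group_T hD hs h1 h2 (Or.inl rfl)]
    refine ⟨tc e 1, ⟨(pres_tc h1 1).2 h2, _, ⟨1, rfl, Or.inl rfl⟩, id_tc e 1⟩,
      tc e k, ⟨(pres_tc h1 k).2 (hR' k), _, ⟨k, rfl, h4⟩, id_tc e k⟩, ?_⟩
    intro h
    have := congrArg D.id h
    rw [id_tc, id_tc] at this
    simp only [Option.some.injEq, Id.T.injEq, true_and] at this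
    exact h3 this.symm

theorem move_am {s : St W} (hs : D.Inv s) {S : Set (Col W × (Band W × ℕ))}
    (h : D.board.Move (D.pres s) S) : ∃ s', D.AM s s' ∧ S = D.pres s' := by
  obtain ⟨c, hc, hn, rfl⟩ := h
  obtain ⟨c', hl⟩ := lk_of_nontrivial hn
  obtain ⟨i, i', h1, h2, h3⟩ := hl.ids
  rcases i with e | w | ⟨e, k⟩
  · obtain ⟨x, o, rfl, _⟩ := of_id_Y h1
    have hv : D.adj e.1 e.2 := by
      have := hc.1.2
      by_contra hcon
      simp [len, hcon] at this
    exact ⟨_, .y e hv (hc.2 _ h1), move_Y hD hs hc h1⟩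
  · obtain ⟨x, o, rfl, _⟩ := of_id_B h1
    have hv : D.isV w := by
      have := hc.1.2
      by_contra hcon
      simp [len, hcon] at this
    by_cases hF : s.F = ∅
    · exact ⟨_, .b w hv (hc.2 _ h1) hF, move_B hD hs hF hc h1⟩
    · exact ⟨_, .k w hv (hc.2 _ h1) hF, move_K hD hs hF hc h1⟩
  · obtain ⟨k', h4⟩ := hl.tc h1
    obtain rfl := of_id_T h1
    obtain rfl := of_id_T h4
    have he : D.adj e.1 e.2 := hc.1.1
    obtain ⟨h5, h6, h7⟩ := lk_tc_cases hD hs he hl
    refine ⟨_, ?_, move_T hD hs he h5 h6⟩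
    by_cases hk : k = 1
    · subst hk
      exact .t e k' he h5 (fun h => hl.ne (by rw [h])) h7
    · exact .t e k he h5 hk h6

theorem wins_am (s : St W) (hs : D.Inv s) : Wins D.board.Move (D.pres s) ↔ Wins D.AM s :=
  wins_bisim D.pres D.Inv (fun _ _ ha h => ⟨am_inv hD ha h, am_move hD ha h⟩)
    (fun _ _ ha h => move_am hD ha h) s hs

/-! analysis of the abstract game -/

omit hD in
/-- a decreasing measure -/
noncomputable def meas (D : Data W) (s : St W) : ℕ :=
  s.Fᶜ.card + ((Finset.univ.filter D.isV) \ s.X).card + s.Rᶜ.card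

omit hD in
theorem meas_lt (s s' : St W) (h : D.AM s s') : D.meas s' < D.meas s := by
  unfold meas
  cases h with
  | y e h1 h2 =>
    have : (insert e s.F)ᶜ.card < s.Fᶜ.card :=
      Finset.card_lt_card (Finset.compl_ssubset_compl.2 (Finset.ssubset_insert h2))
    simp only
    omega
  | b w h1 h2 h3 =>
    have : ((Finset.univ.filter D.isV) \ (insert w s.X)).card <
        ((Finset.univ.filter D.isV) \ s.X).card := by
      refine Finset.card_lt_card ⟨Finset.sdiff_subset_sdiff le_rfl (Finset.subset_insert _ _),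
        fun hsub => ?_⟩
      have := hsub (show w ∈ (Finset.univ.filter D.isV) \ s.X by simp [h1, h2])
      simp at this
    simp only
    omega
  | k w h1 h2 h3 =>
    have h4 : 0 < ((Finset.univ.filter D.isV) \ s.X).card :=
      Finset.card_pos.2 ⟨w, by simp [h1, h2]⟩
    simp only [sdiff_self, Finset.bot_eq_empty, Finset.card_empty]
    omega
  | t e k h1 h2 h3 h4 =>
    have : (Finset.univ.filter (fun p => p ∈ s.R ∨ (p.1 = e ∧ lkt s e p.2)))ᶜ.card <
        s.Rᶜ.card := by
      refine Finset.card_lt_card (Finset.compl_ssubset_compl.2 ⟨fun p hp => ?_, fun hsub => ?_⟩)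
      · simp [hp]
      · exact h2 (hsub (by simp [lkt]))
    simp only
    omega

omit hD in
theorem win_iff (s : St W) : Wins D.AM s ↔ ∃ s', D.AM s s' ∧ ¬ Wins D.AM s' :=
  wins_iff_not D.meas meas_lt s

/-- remaining edge slabs -/
noncomputable def rem (D : Data W) (s : St W) : Finset (W × W) :=
  Finset.univ.filter (fun e => D.adj e.1 e.2 ∧ e ∉ s.F)

omit hD in
theorem rem_insert (s : St W) {e : W × W} (h1 : D.adj e.1 e.2) (h2 : e ∉ s.F) (X R) :
    (D.rem ⟨insert e s.F, X, R⟩).card + 1 = (D.rem s).card := by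
  have : D.rem ⟨insert e s.F, X, R⟩ = (D.rem s).erase e := by
    ext e'
    simp only [rem, Finset.mem_filter, Finset.mem_univ, true_and, Finset.mem_insert,
      Finset.mem_erase]
    tauto
  rw [this, Finset.card_erase_add_one]
  simp [rem, h1, h2]

/-- all vertex slabs are deleted -/
theorem c1 (n : ℕ) : ∀ s : St W, (∀ w, D.isV w → w ∈ s.X) → (D.rem s).card = n →
    (Wins D.AM s ↔ Odd n) := by
  induction n with
  | zero =>
    intro s hX hn
    rw [win_iff]
    simp only [Nat.not_odd_zero, iff_false, not_exists, not_and]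
    intro s' h
    exfalso
    cases h with
    | y e h1 h2 =>
      rw [Finset.card_eq_zero] at hn
      have : e ∈ D.rem s := by simp [rem, h1, h2]
      rw [hn] at this
      simp at this
    | b w h1 h2 h3 => exact h2 (hX w h1)
    | k w h1 h2 h3 => exact h2 (hX w h1)
    | t e k h1 h2 h3 h4 =>
      rcases h4 with h4 | ⟨_, ⟨_, h4⟩ | ⟨_, h4⟩⟩
      · exact h3 h4
      · exact h4 (hX _ (hD.adjV _ _ h1))
      · exact h4 (hX _ (hD.adjV _ _ (hD.symm _ _ h1)))
  | succ n ih =>
    intro s hX hn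
    rw [win_iff]
    have hnext : ∀ e, D.adj e.1 e.2 → e ∉ s.F →
        (Wins D.AM ⟨insert e s.F, s.X, s.R⟩ ↔ Odd n) := by
      intro e h1 h2
      refine ih _ hX ?_
      have := rem_insert s h1 h2 s.X s.R
      omega
    constructor
    · rintro ⟨s', h, h'⟩
      cases h with
      | y e h1 h2 =>
        rw [hnext e h1 h2] at h'
        rw [Nat.odd_add_one]
        exact h'
      | b w h1 h2 h3 => exact absurd (hX w h1) h2
      | k w h1 h2 h3 => exact absurd (hX w h1) h2
      | t e k h1 h2 h3 h4 =>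
        rcases h4 with h4 | ⟨_, ⟨_, h4⟩ | ⟨_, h4⟩⟩
        · exact absurd h4 h3
        · exact absurd (hX _ (hD.adjV _ _ h1)) h4
        · exact absurd (hX _ (hD.adjV _ _ (hD.symm _ _ h1))) h4
    · intro hodd
      have hpos : 0 < (D.rem s).card := by omega
      obtain ⟨e, he⟩ := Finset.card_pos.1 hpos
      simp only [rem, Finset.mem_filter, Finset.mem_univ, true_and] at he
      refine ⟨_, .y e he.1 he.2, ?_⟩
      rw [hnext e he.1 he.2]
      rwa [Nat.odd_add_one] at hodd

theorem c2 {s : St W} (hF : s.F ≠ ∅) {w : W} (hw : D.isV w) (hwX : w ∉ s.X)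
    (hev : Even (D.rem s).card) : Wins D.AM s := by
  rw [win_iff]
  refine ⟨_, .k w hw hwX hF, ?_⟩
  rw [c1 hD _ _ (fun w hw => by simp [hw]) rfl]
  rw [Nat.not_odd_iff_even]
  exact hev

/-- available tests -/
noncomputable def avail (s : St W) : Finset (W × W) :=
  s.F.filter (fun e => (e, 1) ∉ s.R ∧ ¬ (e.1 ∈ s.X ∧ e.2 ∈ s.X))

theorem c3 (n : ℕ) : ∀ s : St W, D.Inv s → s.F ≠ ∅ → (∃ w, D.isV w ∧ w ∉ s.X) →
    Odd (D.rem s).card → (avail s).card = n → (Wins D.AM s ↔ Odd n) := by
  induction n with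
  | zero =>
    intro s hs hF hw hodd hn
    obtain ⟨w, hw, hwX⟩ := hw
    rw [win_iff]
    simp only [Nat.not_odd_zero, iff_false, not_exists, not_and, not_not]
    intro s' h
    cases h with
    | y e h1 h2 =>
      refine c2 hD (by simp) hw hwX ?_
      have := rem_insert s h1 h2 s.X s.R
      rw [← this] at hodd
      rw [Nat.odd_add_one, Nat.not_odd_iff_even] at hodd
      exact hodd
    | b w h1 h2 h3 => exact absurd h3 hF
    | k w h1 h2 h3 =>
      rw [c1 hD _ _ (fun w hw => by simp [hw]) rfl]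
      exact hodd
    | t e k h1 h2 h3 h4 =>
      exfalso
      rw [Finset.card_eq_zero] at hn
      have : e ∈ avail s := by
        rcases h4 with h4 | ⟨h5, h4⟩
        · exact absurd h4 h3
        · simp only [avail, Finset.mem_filter]
          refine ⟨h5, h2, fun h6 => ?_⟩
          rcases h4 with ⟨_, h4⟩ | ⟨_, h4⟩
          · exact h4 h6.1
          · exact h4 h6.2
      rw [hn] at this
      simp at this
  | succ n ih =>
    intro s hs hF hw hodd hn
    have hw' := hw
    obtain ⟨w, hw, hwX⟩ := hw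
    have hmem : ∀ e k, (e, 1) ∉ s.R → k ≠ 1 → lkt s e k → e ∈ avail s := by
      intro e k h2 h3 h4
      rcases h4 with h4 | ⟨h5, h4⟩
      · exact absurd h4 h3
      · simp only [avail, Finset.mem_filter]
        refine ⟨h5, h2, fun h6 => ?_⟩
        rcases h4 with ⟨_, h4⟩ | ⟨_, h4⟩
        · exact h4 h6.1
        · exact h4 h6.2
    have hnext : ∀ e k, D.adj e.1 e.2 → (e, 1) ∉ s.R → k ≠ 1 → lkt s e k →
        (Wins D.AM ⟨s.F, s.X, Finset.univ.filter (fun p => p ∈ s.R ∨
          (p.1 = e ∧ lkt s e p.2))⟩ ↔ Odd n) := by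
      intro e k h1 h2 h3 h4
      refine ih _ (am_inv hD hs (.t e k h1 h2 h3 h4)) hF hw' hodd ?_
      have h5 : avail ⟨s.F, s.X, Finset.univ.filter (fun p => p ∈ s.R ∨
          (p.1 = e ∧ lkt s e p.2))⟩ = (avail s).erase e := by
        ext e'
        simp only [avail, Finset.mem_filter, Finset.mem_univ, true_and, Finset.mem_erase, lkt,
          true_or, and_true]
        tauto
      rw [h5]
      have := Finset.card_erase_add_one (hmem e k h2 h3 h4)
      omega
    rw [win_iff]
    constructor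
    · rintro ⟨s', h, h'⟩
      cases h with
      | y e h1 h2 =>
        refine absurd (c2 hD (s := ⟨insert e s.F, s.X, s.R⟩) (by simp) hw hwX ?_) h'
        have := rem_insert s h1 h2 s.X s.R
        rw [← this] at hodd
        rw [Nat.odd_add_one, Nat.not_odd_iff_even] at hodd
        exact hodd
      | b w h1 h2 h3 => exact absurd h3 hF
      | k w h1 h2 h3 =>
        refine absurd ?_ h'
        rw [c1 hD _ _ (fun w hw => by simp [hw]) rfl]
        exact hodd
      | t e k h1 h2 h3 h4 =>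
        rw [hnext e k h1 h2 h3 h4] at h'
        rw [Nat.odd_add_one]
        exact h'
    · intro h
      rw [Nat.odd_add_one] at h
      have hpos : 0 < (avail s).card := by omega
      obtain ⟨e, he⟩ := Finset.card_pos.1 hpos
      simp only [avail, Finset.mem_filter] at he
      obtain ⟨h1, h2, h3⟩ := he
      obtain ⟨k, hk, hk'⟩ : ∃ k : Fin 3, k ≠ 1 ∧ lkt s e k := by
        by_cases h4 : e.1 ∈ s.X
        · exact ⟨2, by decide, Or.inr ⟨h1, Or.inr ⟨rfl, fun h5 => h3 ⟨h4, h5⟩⟩⟩⟩
        · exact ⟨0, by decide, Or.inr ⟨h1, Or.inl ⟨rfl, h4⟩⟩⟩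
      refine ⟨_, .t e k (hs.F e h1) h2 hk hk', ?_⟩
      rw [hnext e k (hs.F e h1) h2 hk hk']
      exact h

/-- the number of ordered edges is even -/
theorem even_edges : Even (Finset.univ.filter (fun e : W × W => D.adj e.1 e.2)).card := by
  have h : ∑ e ∈ Finset.univ.filter (fun e : W × W => D.adj e.1 e.2), (1 : ZMod 2) = 0 := by
    refine Finset.sum_involution (fun e _ => e.swap) ?_ ?_ ?_ ?_
    · intro e _
      decide
    · intro e he _ h
      rw [Finset.mem_filter] at he
      have h1 : e.2 = e.1 := congrArg Prod.fst h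
      have := he.2
      rw [h1] at this
      exact hD.irr _ this
    · intro e he
      rw [Finset.mem_filter] at he ⊢
      exact ⟨Finset.mem_univ _, hD.symm _ _ he.2⟩
    · intro e _
      exact Prod.swap_swap e
  rw [Finset.sum_const, nsmul_eq_mul, mul_one] at h
  exact (ZMod.natCast_eq_zero_iff_even).1 h

/-- the value after the first edge slab -/
theorem c4 {X : Finset W} (hX : ∀ w ∈ X, D.isV w) (hw : ∃ w, D.isV w ∧ w ∉ X) {e : W × W}
    (he : D.adj e.1 e.2) : Wins D.AM ⟨{e}, X, ∅⟩ ↔ ¬ (e.1 ∈ X ∧ e.2 ∈ X) := by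
  have hrem : Odd (D.rem ⟨{e}, X, ∅⟩).card := by
    have h1 := rem_insert (D := D) ⟨∅, X, ∅⟩ he (by simp) X ∅
    have h2 := even_edges hD
    have h3 : D.rem ⟨∅, X, ∅⟩ = Finset.univ.filter (fun e : W × W => D.adj e.1 e.2) := by
      ext e'
      simp [rem]
    rw [← h3, ← h1, Nat.even_add_one, Nat.not_even_iff_odd] at h2
    exact h2
  have hinv : D.Inv ⟨{e}, X, ∅⟩ := by
    refine ⟨fun e' he' => ?_, hX, fun e' k h => by simp at h⟩
    rw [Finset.mem_singleton] at he'
    rw [he']
    exact he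
  rw [c3 hD _ _ hinv (by simp) hw hrem rfl]
  by_cases h : e.1 ∈ X ∧ e.2 ∈ X
  · have : avail (⟨{e}, X, ∅⟩ : St W) = ∅ := by
      ext e'
      simp only [avail, Finset.mem_filter, Finset.mem_singleton, Finset.notMem_empty, iff_false]
      rintro ⟨rfl, _, h'⟩
      exact h' h
    rw [this]
    simp [h]
  · have : avail (⟨{e}, X, ∅⟩ : St W) = {e} := by
      ext e'
      simp only [avail, Finset.mem_filter, Finset.mem_singleton, Finset.notMem_empty]
      constructor
      · exact fun h => h.1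
      · rintro rfl
        exact ⟨rfl, fun h => h, h⟩
    rw [this]
    simp only [Finset.card_singleton, odd_one, true_iff]
    exact h

theorem c5 (hind : ∀ I : Finset W, (∀ u ∈ I, ∀ v ∈ I, ¬ D.adj u v) → ∀ w, ∃ z, D.isV z ∧
      z ∉ insert w I) (n : ℕ) :
    ∀ X : Finset W, (∀ w ∈ X, D.isV w) → (∀ u ∈ X, ∀ v ∈ X, ¬ D.adj u v) →
      Xᶜ.card = n → (Wins D.AM ⟨∅, X, ∅⟩ ↔ Wins (NK D.isV D.adj) X) := by
  have hnk : ∀ I I', NK D.isV D.adj I I' → I'ᶜ.card < Iᶜ.card := nk_card
  induction n using Nat.strong_induction_on with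
  | _ n ih =>
    intro X hX hI hn
    rw [win_iff, wins_iff_not (fun I : Finset W => Iᶜ.card) hnk]
    constructor
    · rintro ⟨s', h, h'⟩
      cases h with
      | y e h1 h2 =>
        exfalso
        obtain ⟨z, hz1, hz2⟩ := hind X hI e.1
        rw [show (insert e (∅ : Finset (W × W))) = {e} from rfl] at h'
        rw [c4 hD hX ⟨z, hz1, fun h => hz2 (Finset.mem_insert_of_mem h)⟩ h1] at h'
        rw [not_not] at h'
        exact hI _ h'.1 _ h'.2 h1
      | b w h1 h2 h3 =>
        have hX' : ∀ w' ∈ insert w X, D.isV w' := by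
          intro w' hw'
          rcases Finset.mem_insert.1 hw' with rfl | h4
          · exact h1
          · exact hX _ h4
        have hw : ∀ u ∈ X, ¬ D.adj u w := by
          intro u hu hadj
          apply h'
          rw [win_iff]
          refine ⟨_, .y (u, w) hadj (by simp), ?_⟩
          rw [show (insert (u, w) (∅ : Finset (W × W))) = {(u, w)} from rfl]
          rw [c4 hD hX' (hind X hI w) hadj, not_not]
          exact ⟨Finset.mem_insert_of_mem hu, Finset.mem_insert_self _ _⟩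
        have hnk0 : NK D.isV D.adj X (insert w X) := nk_iff.2 ⟨w, h1, h2, hw, rfl⟩
        refine ⟨_, hnk0, ?_⟩
        have hnk1 := hnk _ _ hnk0
        rwa [ih _ (hn ▸ hnk1) (insert w X) hX' ?_ rfl] at h'
        intro u hu v hv hadj
        rcases Finset.mem_insert.1 hu with h5 | hu <;> rcases Finset.mem_insert.1 hv with h6 | hv
        · rw [h5, h6] at hadj
          exact hD.irr _ hadj
        · rw [h5] at hadj
          exact hw _ hv (hD.symm _ _ hadj)
        · rw [h6] at hadj
          exact hw _ hu hadj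
        · exact hI _ hu _ hv hadj
      | k w h1 h2 h3 => exact absurd rfl h3
      | t e k h1 h2 h3 h4 =>
        rcases h4 with h4 | ⟨h4, _⟩
        · exact absurd h4 h3
        · simp at h4
    · rintro ⟨I', hnk0, h'⟩
      obtain ⟨w, h1, h2, hw, rfl⟩ := nk_iff.1 hnk0
      have hX' : ∀ w' ∈ insert w X, D.isV w' := by
        intro w' hw'
        rcases Finset.mem_insert.1 hw' with rfl | h4
        · exact h1
        · exact hX _ h4
      refine ⟨_, .b w h1 h2 rfl, ?_⟩
      have hnk1 := hnk _ _ hnk0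
      rwa [ih _ (hn ▸ hnk1) (insert w X) hX' ?_ rfl]
      intro u hu v hv hadj
      rcases Finset.mem_insert.1 hu with h5 | hu <;> rcases Finset.mem_insert.1 hv with h6 | hv
      · rw [h5, h6] at hadj
        exact hD.irr _ hadj
      · rw [h5] at hadj
        exact hw _ hv (hD.symm _ _ hadj)
      · rw [h6] at hadj
        exact hw _ hu hadj
      · exact hI _ hu _ hv hadj

omit hD in
theorem pres_empty : D.pres ⟨∅, ∅, ∅⟩ = D.full := by
  ext c
  refine ⟨fun h => h.1, fun h => ⟨h, fun i _ => ?_⟩⟩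
  rcases i with e | w | ⟨e, k⟩ <;> simp [St.dead]

/-- The Clickomania board plays as Node Kayles. -/
theorem wins_full (hind : ∀ I : Finset W, (∀ u ∈ I, ∀ v ∈ I, ¬ D.adj u v) → ∀ w, ∃ z,
      D.isV z ∧ z ∉ insert w I) :
    Wins D.board.Move D.full ↔ Wins (NK D.isV D.adj) ∅ := by
  rw [← pres_empty, wins_am hD _ ⟨by simp, by simp, by simp⟩]
  exact c5 hD hind _ ∅ (by simp) (by simp) rfl

end Data

end Pool.Agent.H92.Click
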