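import Pool.Agent.H92.Click.DefV

/-!
PSPACE-hardness of two-player Clickomania.
-/

set_option linter.unusedSectionVars false

namespace Pool.Agent.H92.Click

open FirstOrder FirstOrder.Language Desc Desc.V

/-! positions from coded boards -/

section position

variable {W DT DZ : Type} [Fintype W] [Fintype DT] [Fintype DZ] {wl : W → W → Prop}
  {tl : DT → DT → Prop} {zl : DZ → DZ → Prop} {ok : W → Prop} {adj : W → W → Prop}
  (hw : SLO wl) (ht : SLO tl) (hz : SLO zl)

include ht hz in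
theorem sameC_symm {b b' : Col W × RW W DT DZ} (h : sameC b b') : sameC b' b := by
  rw [← same_iff (wl := fun _ _ => False) (ok := fun _ => False) (adj := fun _ _ => False) ht hz]
    at h ⊢
  rcases h with h | ⟨i, i', h1, h2, h3⟩
  · exact Or.inl h.symm
  · exact Or.inr ⟨i', i, h2, h1, h3.symm⟩

include ht hz in
theorem sameC_trans {b b' b'' : Col W × RW W DT DZ} (h : sameC b b') (h' : sameC b' b'') :
    sameC b b'' := by
  rw [← same_iff (wl := fun _ _ => False) (ok := fun _ => False) (adj := fun _ _ => False) ht hz]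
    at h h' ⊢
  rcases h with h | ⟨i, i', h1, h2, h3⟩
  · rw [h]
    exact h'
  · rcases h' with h' | ⟨j, j', h4, h5, h6⟩
    · rw [← h']
      exact Or.inr ⟨i, i', h1, h2, h3⟩
    · rw [h2] at h4
      obtain rfl := Option.some.inj h4
      exact Or.inr ⟨i, j', h1, h5, h3.trans h6⟩

end position

/-! relations on the universe -/

section univ

variable {X Y : Type}

/-- columns of the universe -/
def colU (P : X → Prop) : X ⊕ Y → Prop := Sum.elim P (fun _ => False)

/-- rows of the universe -/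
def rowU (P : Y → Prop) : X ⊕ Y → Prop := Sum.elim (fun _ => False) P

/-- a relation on the columns -/
def leftU (r : X → X → Prop) (u u' : X ⊕ Y) : Prop := ∃ x x', u = .inl x ∧ u' = .inl x' ∧ r x x'

/-- a relation on the rows -/
def belowU (r : Y → Y → Prop) (u u' : X ⊕ Y) : Prop := ∃ y y', u = .inr y ∧ u' = .inr y' ∧ r y y'

/-- a relation on the cells -/
def sameU (r : X × Y → X × Y → Prop) (a b a' b' : X ⊕ Y) : Prop :=
  ∃ x y x' y', a = .inl x ∧ b = .inr y ∧ a' = .inl x' ∧ b' = .inr y' ∧ r (x, y) (x', y')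

end univ

section interp

variable {σ : FirstOrder.Language.{0, 0}} {X Y : (ordCls σ).ι → Type} {D : Cd σ X} {E : Cd σ Y}

theorem ddef_leftU {r : ∀ c, X c → X c → Prop} (h : DDef (D.prod D) (fun c p => r c p.1 p.2)) :
    DDef ((D.sum E).prod (D.sum E)) (fun c p => leftU (r c) p.1 p.2) := by
  refine DDef.sumL (P := fun c x y => leftU (r c) x y) (DDef.sumR
    (P := fun c x y => leftU (r c) (.inl x) y) ?_ ?_) ?_
  · refine h.congr fun c p => ?_
    simp [leftU]
  · refine (DDef.const False).congr fun c p => ?_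
    simp [leftU]
  · refine (DDef.const False).congr fun c p => ?_
    simp [leftU]

theorem ddef_belowU {r : ∀ c, Y c → Y c → Prop} (h : DDef (E.prod E) (fun c p => r c p.1 p.2)) :
    DDef ((D.sum E).prod (D.sum E)) (fun c p => belowU (r c) p.1 p.2) := by
  refine DDef.sumL (P := fun c x y => belowU (r c) x y) ?_ (DDef.sumR
    (P := fun c x y => belowU (r c) (.inr x) y) ?_ ?_)
  · refine (DDef.const False).congr fun c p => ?_
    simp [belowU]
  · refine (DDef.const False).congr fun c p => ?_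
    simp [belowU]
  · refine h.congr fun c p => ?_
    simp [belowU]

theorem ddef_sameU {r : ∀ c, X c × Y c → X c × Y c → Prop}
    (h : DDef ((D.prod E).prod (D.prod E)) (fun c p => r c p.1 p.2)) :
    DDef ((D.sum E).prod ((D.sum E).prod ((D.sum E).prod (D.sum E))))
      (fun c p => sameU (r c) p.1 p.2.1 p.2.2.1 p.2.2.2) := by
  let Γ0 := (D.sum E).prod ((D.sum E).prod ((D.sum E).prod (D.sum E)))
  let Γ := (((Γ0.prod D).prod E).prod D).prod E
  have g0 : TM Γ Γ0 _ := TM.fst.comp (TM.fst.comp (TM.fst.comp TM.fst))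
  have x : TM Γ D _ := TM.snd.comp (TM.fst.comp (TM.fst.comp TM.fst))
  have y : TM Γ E _ := TM.snd.comp (TM.fst.comp TM.fst)
  have x' : TM Γ D _ := TM.snd.comp TM.fst
  have y' : TM Γ E _ := TM.snd
  have h1 := DDef.eq (E := D.sum E) (TM.fst.comp g0) (TM.inl.comp x)
  have h2 := DDef.eq (E := D.sum E) (TM.fst.comp (TM.snd.comp g0)) (TM.inr.comp y)
  have h3 := DDef.eq (E := D.sum E) (TM.fst.comp (TM.snd.comp (TM.snd.comp g0)))
    (TM.inl.comp x')
  have h4 := DDef.eq (E := D.sum E) (TM.snd.comp (TM.snd.comp (TM.snd.comp g0)))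
    (TM.inr.comp y')
  have h5 := h.comp ((x.pair y).pair (x'.pair y'))
  exact ((h1.and (h2.and (h3.and (h4.and h5)))).exQ.exQ.exQ.exQ).congr fun c p => Iff.rfl

end interp

/-- The interpretation of a uniformly definable board. -/
theorem exists_board {σ : FirstOrder.Language.{0, 0}} {X Y : (ordCls σ).ι → Type} {D : Cd σ X}
    {E : Cd σ Y} (hne : Nonempty D.S) {cok : ∀ c, X c → Prop} {rok : ∀ c, Y c → Prop}
    {B : ∀ c, Board (X c) (Y c)} (h1 : DDef D cok) (h2 : DDef E rok)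
    (h3 : DDef (D.prod D) (fun c p => (B c).left p.1 p.2))
    (h4 : DDef (E.prod E) (fun c p => (B c).below p.1 p.2))
    (h5 : DDef ((D.prod E).prod (D.prod E)) (fun c p => (B c).same p.1 p.2))
    (s3 : ∀ c, SLO (B c).left) (s4 : ∀ c, SLO (B c).below)
    (s5 : ∀ c b, (B c).same b b) (s6 : ∀ c b b', (B c).same b b' → (B c).same b' b)
    (s7 : ∀ c b b' b'', (B c).same b b' → (B c).same b' b'' → (B c).same b b'') :
    ∃ I : Interp (σ.sum FirstOrder.Language.order) clickLang,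
      ∀ (A : FinStr σ) (o : LinearOrder A.carrier), Clickomania (I.image clickLang_rel A o) ↔
        Wins (B ⟨A, o⟩).Move {b | cok ⟨A, o⟩ b.1 ∧ rok ⟨A, o⟩ b.2} := by
  let U := D.sum E
  -- the formulas
  have f1 : DDef U (fun c u => colU (cok c) u) :=
    DDef.sumU (h1.congr fun c x => Iff.rfl) ((DDef.const False).congr fun c x => Iff.rfl)
  have f2 : DDef U (fun c u => rowU (rok c) u) :=
    DDef.sumU ((DDef.const False).congr fun c x => Iff.rfl) (h2.congr fun c x => Iff.rfl)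
  have f3 : DDef (U.prod U) (fun c p => leftU (B c).left p.1 p.2) := ddef_leftU h3
  have f4 : DDef (U.prod U) (fun c p => belowU (B c).below p.1 p.2) := ddef_belowU h4
  have f5 : DDef (U.prod (U.prod (U.prod U)))
      (fun c p => sameU (B c).same p.1 p.2.1 p.2.2.1 p.2.2.2) := ddef_sameU h5
  have k1 : ∀ s : Fin 1 → U.S, ∃ φ : (σ.sum FirstOrder.Language.order).Formula
      (Σ i : Fin 1, U.C (s i)), ∀ (c : (ordCls σ).ι) v,
      @Formula.Realize _ ((ordCls σ).car c) ((ordCls σ).str c) _ φ v ↔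
        colU (cok c) (U.dec c (s 0) (v ∘ (fun k => ⟨0, k⟩))) := fun s =>
    (f1 (s 0)).comp (α := Σ i : Fin 1, U.C (s i)) (fun k => ⟨0, k⟩)
  have k2 : ∀ s : Fin 1 → U.S, ∃ φ : (σ.sum FirstOrder.Language.order).Formula
      (Σ i : Fin 1, U.C (s i)), ∀ (c : (ordCls σ).ι) v,
      @Formula.Realize _ ((ordCls σ).car c) ((ordCls σ).str c) _ φ v ↔
        rowU (rok c) (U.dec c (s 0) (v ∘ (fun k => ⟨0, k⟩))) := fun s =>
    (f2 (s 0)).comp (α := Σ i : Fin 1, U.C (s i)) (fun k => ⟨0, k⟩)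
  have k3 : ∀ s : Fin 2 → U.S, ∃ φ : (σ.sum FirstOrder.Language.order).Formula
      (Σ i : Fin 2, U.C (s i)), ∀ (c : (ordCls σ).ι) v,
      @Formula.Realize _ ((ordCls σ).car c) ((ordCls σ).str c) _ φ v ↔
        leftU (B c).left (U.dec c (s 0) (v ∘ (fun k => ⟨0, k⟩)))
          (U.dec c (s 1) (v ∘ (fun k => ⟨1, k⟩))) := fun s =>
    (f3 (s 0, s 1)).comp (α := Σ i : Fin 2, U.C (s i))
      (Sum.elim (fun k => ⟨0, k⟩) (fun k => ⟨1, k⟩))
  have k4 : ∀ s : Fin 2 → U.S, ∃ φ : (σ.sum FirstOrder.Language.order).Formula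
      (Σ i : Fin 2, U.C (s i)), ∀ (c : (ordCls σ).ι) v,
      @Formula.Realize _ ((ordCls σ).car c) ((ordCls σ).str c) _ φ v ↔
        belowU (B c).below (U.dec c (s 0) (v ∘ (fun k => ⟨0, k⟩)))
          (U.dec c (s 1) (v ∘ (fun k => ⟨1, k⟩))) := fun s =>
    (f4 (s 0, s 1)).comp (α := Σ i : Fin 2, U.C (s i))
      (Sum.elim (fun k => ⟨0, k⟩) (fun k => ⟨1, k⟩))
  have k5 : ∀ s : Fin 4 → U.S, ∃ φ : (σ.sum FirstOrder.Language.order).Formula
      (Σ i : Fin 4, U.C (s i)), ∀ (c : (ordCls σ).ι) v,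
      @Formula.Realize _ ((ordCls σ).car c) ((ordCls σ).str c) _ φ v ↔
        sameU (B c).same (U.dec c (s 0) (v ∘ (fun k => ⟨0, k⟩)))
          (U.dec c (s 1) (v ∘ (fun k => ⟨1, k⟩))) (U.dec c (s 2) (v ∘ (fun k => ⟨2, k⟩)))
          (U.dec c (s 3) (v ∘ (fun k => ⟨3, k⟩))) := fun s =>
    (f5 (s 0, s 1, s 2, s 3)).comp (α := Σ i : Fin 4, U.C (s i))
      (Sum.elim (fun k => ⟨0, k⟩) (Sum.elim (fun k => ⟨1, k⟩)
        (Sum.elim (fun k => ⟨2, k⟩) (fun k => ⟨3, k⟩))))
  choose φ1 hφ1 using k1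
  choose φ2 hφ2 using k2
  choose φ3 hφ3 using k3
  choose φ4 hφ4 using k4
  choose φ5 hφ5 using k5
  let I : Interp (σ.sum FirstOrder.Language.order) clickLang :=
    { S := U.S
      fin := U.fin
      ne := ⟨.inl hne.some⟩
      Coord := U.C
      cfin := U.cfin
      form := fun {n} (R : ClickRel n) => match n, R with
        | _, ClickRel.col => fun s => φ1 s
        | _, ClickRel.row => fun s => φ2 s
        | _, ClickRel.left => fun s => φ3 s
        | _, ClickRel.below => fun s => φ4 s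
        | _, ClickRel.same => fun s => φ5 s }
  refine ⟨I, fun A o => ?_⟩
  let c : (ordCls σ).ι := ⟨A, o⟩
  let M := I.image clickLang_rel A o
  let e : M.carrier ≃ X c ⊕ Y c := U.e c
  have e1 : ∀ x, isCol M x ↔ colU (cok c) (e x) := fun x =>
    hφ1 (fun i => (![x] i).1) c (fun p => (![x] p.1).2 p.2)
  have e2 : ∀ x, isRow M x ↔ rowU (rok c) (e x) := fun x =>
    hφ2 (fun i => (![x] i).1) c (fun p => (![x] p.1).2 p.2)
  have e3 : ∀ x y, (boardOf M).left x y ↔ leftU (B c).left (e x) (e y) := fun x y =>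
    hφ3 (fun i => (![x, y] i).1) c (fun p => (![x, y] p.1).2 p.2)
  have e4 : ∀ x y, (boardOf M).below x y ↔ belowU (B c).below (e x) (e y) := fun x y =>
    hφ4 (fun i => (![x, y] i).1) c (fun p => (![x, y] p.1).2 p.2)
  have e5 : ∀ b b', (boardOf M).same b b' ↔
      sameU (B c).same (e b.1) (e b.2) (e b'.1) (e b'.2) := fun b b' =>
    hφ5 (fun i => (![b.1, b.2, b'.1, b'.2] i).1) c (fun p => (![b.1, b.2, b'.1, b'.2] p.1).2 p.2)
  -- the embeddings
  let f : X c → M.carrier := fun x => e.symm (.inl x)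
  let g : Y c → M.carrier := fun y => e.symm (.inr y)
  have hf : Function.Injective f := e.symm.injective.comp Sum.inl_injective
  have hg : Function.Injective g := e.symm.injective.comp Sum.inr_injective
  have ef : ∀ x, e (f x) = .inl x := fun x => e.apply_symm_apply _
  have eg : ∀ y, e (g y) = .inr y := fun y => e.apply_symm_apply _
  have cl : ∀ a, isCol M a → ∃ x, a = f x ∧ cok c x := by
    intro a ha
    rw [e1] at ha
    rcases h : e a with x | y
    · rw [h] at ha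
      exact ⟨x, by simp [f, ← h], ha⟩
    · rw [h] at ha
      exact ha.elim
  have rl : ∀ a, isRow M a → ∃ y, a = g y ∧ rok c y := by
    intro a ha
    rw [e2] at ha
    rcases h : e a with x | y
    · rw [h] at ha
      exact ha.elim
    · rw [h] at ha
      exact ⟨y, by simp [g, ← h], ha⟩
  have el : ∀ x x', (boardOf M).left (f x) (f x') ↔ (B c).left x x' := by
    intro x x'
    rw [e3, ef, ef]
    simp [leftU]
  have eb : ∀ y y', (boardOf M).below (g y) (g y') ↔ (B c).below y y' := by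
    intro y y'
    rw [e4, eg, eg]
    simp [belowU]
  have es : ∀ x y x' y', (boardOf M).same (f x, g y) (f x', g y') ↔
      (B c).same (x, y) (x', y') := by
    intro x y x' y'
    rw [e5]
    change sameU _ (e (f x)) (e (g y)) (e (f x')) (e (g y')) ↔ _
    rw [ef, ef, eg, eg]
    simp [sameU]
  have hgrid : grid M = Prod.map f g '' {b | cok c b.1 ∧ rok c b.2} := by
    ext ⟨a, b⟩
    constructor
    · rintro ⟨ha, hb⟩
      obtain ⟨x, rfl, hx⟩ := cl a ha
      obtain ⟨y, rfl, hy⟩ := rl b hb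
      exact ⟨(x, y), ⟨hx, hy⟩, rfl⟩
    · rintro ⟨⟨x, y⟩, ⟨hx, hy⟩, h⟩
      simp only [Prod.map_apply, Prod.mk.injEq] at h
      obtain ⟨rfl, rfl⟩ := h
      refine ⟨?_, ?_⟩
      · rw [e1]
        change colU _ (e (f x))
        rw [ef]
        exact hx
      · rw [e2]
        change rowU _ (e (g y))
        rw [eg]
        exact hy
  have hpos : IsPosition M := by
    refine ⟨⟨?_, ?_, ?_⟩, ⟨?_, ?_, ?_⟩, ?_, ?_, ?_⟩
    · intro a ha
      obtain ⟨x, rfl, _⟩ := cl a ha
      rw [el]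
      exact (s3 c).irr x
    · intro a ha b hb d hd
      obtain ⟨x, rfl, _⟩ := cl a ha
      obtain ⟨y, rfl, _⟩ := cl b hb
      obtain ⟨z, rfl, _⟩ := cl d hd
      rw [el, el, el]
      exact (s3 c).tr x y z
    · intro a ha b hb
      obtain ⟨x, rfl, _⟩ := cl a ha
      obtain ⟨y, rfl, _⟩ := cl b hb
      rw [el, el, hf.eq_iff]
      exact (s3 c).tri x y
    · intro a ha
      obtain ⟨x, rfl, _⟩ := rl a ha
      rw [eb]
      exact (s4 c).irr x
    · intro a ha b hb d hd
      obtain ⟨x, rfl, _⟩ := rl a ha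
      obtain ⟨y, rfl, _⟩ := rl b hb
      obtain ⟨z, rfl, _⟩ := rl d hd
      rw [eb, eb, eb]
      exact (s4 c).tr x y z
    · intro a ha b hb
      obtain ⟨x, rfl, _⟩ := rl a ha
      obtain ⟨y, rfl, _⟩ := rl b hb
      rw [eb, eb, hg.eq_iff]
      exact (s4 c).tri x y
    · rintro b hb
      rw [hgrid] at hb
      obtain ⟨⟨x, y⟩, _, rfl⟩ := hb
      exact (es x y x y).2 (s5 c _)
    · rintro b hb b' hb'
      rw [hgrid] at hb hb'
      obtain ⟨⟨x, y⟩, _, rfl⟩ := hb
      obtain ⟨⟨x', y'⟩, _, rfl⟩ := hb'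
      intro h
      exact (es x' y' x y).2 (s6 c _ _ ((es x y x' y').1 h))
    · rintro b hb b' hb' b'' hb''
      rw [hgrid] at hb hb' hb''
      obtain ⟨⟨x, y⟩, _, rfl⟩ := hb
      obtain ⟨⟨x', y'⟩, _, rfl⟩ := hb'
      obtain ⟨⟨x'', y''⟩, _, rfl⟩ := hb''
      intro h h'
      exact (es x y x'' y'').2 (s7 c _ _ _ ((es x y x' y').1 h) ((es x' y' x'' y'').1 h'))
  have htr := Board.wins_transfer (B := boardOf M) (B' := B c) f g hf hg
    {b | cok c b.1 ∧ rok c b.2} (fun b _ b' _ => el b.1 b'.1) (fun b _ b' _ => eb b.2 b'.2)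
    (fun b _ b' _ => es b.1 b.2 b'.1 b'.2)
  rw [← hgrid] at htr
  constructor
  · rintro ⟨_, h⟩
    exact htr.1 h
  · intro h
    exact ⟨hpos, htr.2 h⟩

/-- Two-player Clickomania is PSPACE-hard. -/
theorem hard : PSPACEHard clickLang_rel Clickomania := by
  intro σ hσ K' hK
  obtain ⟨σ', hσ', m, s, I, J, hI, hJ, lit, hlit, hK⟩ := pspace_kayles hσ.1 hK
  have hR : Finite (Σ n, σ'.Relations n) := hσ'.2
  -- the graph
  let W : (ordCls σ).ι → Type := fun c =>
    SW ((((BS σ' ⊕ I) × (Nu m s → (ordCls σ).car c)) × Bool) ⊕ Unit)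
      ((J × (Nu m s → (ordCls σ).car c)) ⊕ Unit)
  let cW : Cd σ W := cSW (cTT σ σ' m s I) (cJJ σ m s J)
  let ok : ∀ c, W c → Prop := fun c => Sch.ok (tlt vlt)
  let adj : ∀ c, W c → W c → Prop := fun c =>
    Sch.adj (tlt vlt) (litR (side m s) (Cl lit c))
  have hok : DDef cW ok := ddef_schOk ddef_tlt
  have hadj : DDef (cW.prod cW) (fun c p => adj c p.1 p.2) :=
    ddef_adj ddef_tlt (ddef_litR hlit)
  -- orders
  let dT : DLO (cTT σ σ' m s I) := (dV.prod (DLO.const σ slo_blLt)).sum (DLO.const σ slo_unit)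
  let dJ : DLO (cJJ σ m s J) :=
    ((DLO.const σ (slo_someLt J)).prod (dPow (Nu m s))).sum (DLO.const σ slo_unit)
  let dW : DLO cW := (dT.prod (DLO.const σ slo_blLt)).sum ((dT.prod dT).sum (dT.sum dJ))
  let cZ : Cd σ (fun c => (W c ⊕ W c) ⊕ Unit) := (cW.sum cW).sum (Cd.const σ Unit)
  let dZ : DLO cZ := (dW.sum dW).sum (DLO.const σ slo_unit)
  let cTh : Cd σ (fun c => ((((W c ⊕ W c) ⊕ Unit) ⊕ Fin 2) × (W c × W c)) ⊕ Fin 4) :=
    ((cZ.sum (Cd.const σ (Fin 2))).prod (cW.prod cW)).sum (Cd.const σ (Fin 4))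
  let dTh : DLO cTh := ((dZ.sum (DLO.const σ (slo_fin 2))).prod (dW.prod dW)).sum
    (DLO.const σ (slo_fin 4))
  let B : ∀ c, Board (Col (W c)) (RW (W c) (((((W c ⊕ W c) ⊕ Unit) ⊕ Fin 2) × (W c × W c)) ⊕ Fin 4)
      ((W c ⊕ W c) ⊕ Unit)) := fun c => cboard (dW.r c) (dTh.r c) (dZ.r c)
  have hfin : ∀ c, Finite (W c) := fun c => by
    have : Finite ((ordCls σ).car c) := inferInstance
    exact inferInstanceAs (Finite (SW ((((BS σ' ⊕ I) × (Nu m s → (ordCls σ).car c)) × Bool) ⊕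
      Unit) ((J × (Nu m s → (ordCls σ).car c)) ⊕ Unit)))
  have hft : ∀ c, Fintype (W c) := fun c => Fintype.ofFinite _
  obtain ⟨Int, hInt⟩ := exists_board (D := cCol cW) (E := cRow cW cTh cZ)
    (cok := fun c x => colOk (adj c) x) (rok := fun c x => rowOk (ok c) (adj c) x) (B := B)
    ⟨.inl true⟩ (ddef_colOk hadj) (ddef_rowOk hok hadj) (dCol dW).df (dRow dW dTh dZ).df
    ddef_sameC (fun c => (dCol dW).slo c) (fun c => (dRow dW dTh dZ).slo c)
    (fun c b => Or.inl rfl) (fun c b b' h => sameC_symm (dTh.slo c) (dZ.slo c) h)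
    (fun c b b' b'' h h' => sameC_trans (dTh.slo c) (dZ.slo c) h h')
  refine ⟨Int, fun A o => ?_⟩
  rw [hInt A o]
  let c : (ordCls σ).ι := ⟨A, o⟩
  have hlt : SLO (tlt (@vlt σ' m s I _ hσ'.2 ((ordCls σ).car c) _)) := slo_tlt slo_vlt
  have key := wins_cboard (ok := ok c) (adj := adj c) (dW.slo c) (dTh.slo c) (dZ.slo c)
    (fun u v h => h.1) (fun u v h => Sch.adj_symm h) (fun u => Sch.adj_irr hlt u)
    (by
      rw [Fintype.card_sum, Fintype.card_sum, Fintype.card_unit]
      omega)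
    (by
      simp only [Fintype.card_sum, Fintype.card_prod, Fintype.card_fin, Fintype.card_unit]
      exact le_rfl)
    (fun I₀ hI₀ w => by
      have := hfin c
      have hT : Fintype ((((BS σ' ⊕ I) × (Nu m s → (ordCls σ).car c)) × Bool) ⊕ Unit) :=
        Fintype.ofFinite _
      have hJ : Fintype ((J × (Nu m s → (ordCls σ).car c)) ⊕ Unit) := Fintype.ofFinite _
      exact Sch.spare hlt (.inr ()) I₀ hI₀ w)
  exact (hK c).trans key.symm

end Pool.Agent.H92.Click
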