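import Pool.Agent.H92.Click.CertDef
import Pool.Agent.H92.Click.Game

/-!
Two-player Clickomania is in PSPACE.
-/

set_option linter.unusedSectionVars false

namespace Pool.Agent.H92.Click

open FirstOrder FirstOrder.Language Desc

/-- Symbols for the positions of the game with certificates. -/
inductive MemRel : ℕ → Type
  | del : MemRel 2
  | hgt : MemRel 3
  | cn : MemRel 2
  | ord : MemRel 4

/-- the vocabulary of the positions -/
def memLang : FirstOrder.Language.{0, 0} := ⟨fun _ => Empty, MemRel⟩

theorem memLang_finRel : FinRel memLang := by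
  refine ⟨fun _ => inferInstanceAs (IsEmpty Empty), ?_⟩
  refine Finite.of_surjective (fun b : Fin 4 => if b = 0 then (⟨2, MemRel.del⟩ : Σ n, MemRel n)
    else if b = 1 then ⟨3, MemRel.hgt⟩ else if b = 2 then ⟨2, MemRel.cn⟩ else
      ⟨4, MemRel.ord⟩) ?_
  rintro ⟨_, R⟩
  cases R with
  | del => exact ⟨0, rfl⟩
  | hgt => exact ⟨1, rfl⟩
  | cn => exact ⟨2, rfl⟩
  | ord => exact ⟨3, rfl⟩

/-- the structures with two positions -/
structure MemIx where
  A : FinStr clickLang
  o : LinearOrder A.carrier
  R : memLang.Structure A.carrier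
  R' : memLang.Structure A.carrier

/-- the class of the structures with two positions -/
def memCls : Cls ((clickLang.sum FirstOrder.Language.order).sum (memLang.sum memLang)) where
  ι := MemIx
  car c := c.A.carrier
  str c := @sumStructure (clickLang.sum FirstOrder.Language.order) (memLang.sum memLang)
    c.A.carrier (ordStr c.A.str c.o) (@sumStructure memLang memLang c.A.carrier c.R c.R')

/-- the data of two positions -/
def memDat (c : MemIx) : Dat c.A.carrier where
  col := isCol c.A
  row := isRow c.A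
  left := (boardOf c.A).left
  below := (boardOf c.A).below
  same x y x' y' := (boardOf c.A).same (x, y) (x', y')
  le a b := c.o.le a b
  del x y := @Structure.RelMap memLang c.A.carrier c.R 2 MemRel.del ![x, y]
  del' x y := @Structure.RelMap memLang c.A.carrier c.R' 2 MemRel.del ![x, y]
  hgt x y z := @Structure.RelMap memLang c.A.carrier c.R' 3 MemRel.hgt ![x, y, z]
  cn x z := @Structure.RelMap memLang c.A.carrier c.R' 2 MemRel.cn ![x, z]
  ord x y x' y' := @Structure.RelMap memLang c.A.carrier c.R' 4 MemRel.ord ![x, y, x', y']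

theorem compv1 {α β : Type} (v : α → β) (a : α) : v ∘ ![a] = ![v a] := by
  funext i
  fin_cases i
  rfl

theorem compv2 {α β : Type} (v : α → β) (a b : α) : v ∘ ![a, b] = ![v a, v b] := by
  funext i
  fin_cases i <;> rfl

theorem compv3 {α β : Type} (v : α → β) (a b c : α) :
    v ∘ ![a, b, c] = ![v a, v b, v c] := by
  funext i
  fin_cases i <;> rfl

theorem compv4 {α β : Type} (v : α → β) (a b c d : α) :
    v ∘ ![a, b, c, d] = ![v a, v b, v c, v d] := by
  funext i
  fin_cases i <;> rfl

theorem memDef : DatDef memCls memDat where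
  col a := (UDef.rel (𝒞 := memCls) (Sum.inl (Sum.inl ClickRel.col)) ![a]).congr fun c v => by
    rw [compv1]
    exact Iff.rfl
  row a := (UDef.rel (𝒞 := memCls) (Sum.inl (Sum.inl ClickRel.row)) ![a]).congr fun c v => by
    rw [compv1]
    exact Iff.rfl
  left a b := (UDef.rel (𝒞 := memCls) (Sum.inl (Sum.inl ClickRel.left)) ![a, b]).congr
    fun c v => by
      rw [compv2]
      exact Iff.rfl
  below a b := (UDef.rel (𝒞 := memCls) (Sum.inl (Sum.inl ClickRel.below)) ![a, b]).congr
    fun c v => by
      rw [compv2]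
      exact Iff.rfl
  le a b := (UDef.rel (𝒞 := memCls) (Sum.inl (Sum.inr orderRel.le)) ![a, b]).congr
    fun c v => by
      rw [compv2]
      exact Iff.rfl
  del a b := (UDef.rel (𝒞 := memCls) (Sum.inr (Sum.inl MemRel.del)) ![a, b]).congr
    fun c v => by
      rw [compv2]
      exact Iff.rfl
  del' a b := (UDef.rel (𝒞 := memCls) (Sum.inr (Sum.inr MemRel.del)) ![a, b]).congr
    fun c v => by
      rw [compv2]
      exact Iff.rfl
  cn a b := (UDef.rel (𝒞 := memCls) (Sum.inr (Sum.inr MemRel.cn)) ![a, b]).congr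
    fun c v => by
      rw [compv2]
      exact Iff.rfl
  hgt a b e := (UDef.rel (𝒞 := memCls) (Sum.inr (Sum.inr MemRel.hgt)) ![a, b, e]).congr
    fun c v => by
      rw [compv3]
      exact Iff.rfl
  same a b e f := (UDef.rel (𝒞 := memCls) (Sum.inl (Sum.inl ClickRel.same))
    ![a, b, e, f]).congr fun c v => by
      rw [compv4]
      exact Iff.rfl
  ord a b e f := (UDef.rel (𝒞 := memCls) (Sum.inr (Sum.inr MemRel.ord))
    ![a, b, e, f]).congr fun c v => by
      rw [compv4]
      exact Iff.rfl

/-- the structure given by four relations -/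
@[instance_reducible]
def memStr {A : Type} (del : A → A → Prop) (hgt : A → A → A → Prop) (cn : A → A → Prop)
    (ord : A → A → A → A → Prop) : memLang.Structure A where
  funMap := fun f => f.elim
  RelMap := fun {n} (R : MemRel n) => match n, R with
    | _, MemRel.del => fun v => del (v 0) (v 1)
    | _, MemRel.hgt => fun v => hgt (v 0) (v 1) (v 2)
    | _, MemRel.cn => fun v => cn (v 0) (v 1)
    | _, MemRel.ord => fun v => ord (v 0) (v 1) (v 2) (v 3)

theorem posOK_iff (c : MemIx) : (memDat c).posOK ↔ IsPosition c.A := by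
  constructor
  · rintro ⟨h1, h2, h3, h4, h5⟩
    refine ⟨h1, h2, fun b hb => h3 b.1 b.2 hb, fun b hb b' hb' h => h4 b.1 b.2 hb b'.1 b'.2 hb' h,
      fun b hb b' hb' b'' hb'' h h' => h5 b.1 b.2 hb b'.1 b'.2 hb' b''.1 b''.2 hb'' h h'⟩
  · rintro ⟨h1, h2, h3, h4, h5⟩
    refine ⟨h1, h2, fun x y h => h3 (x, y) h, fun x y h x' y' h' h'' => h4 (x, y) h (x', y') h' h'',
      fun x y h x' y' h' x'' y'' h'' => h5 (x, y) h (x', y') h' (x'', y'') h''⟩

/-- the blocks of a position -/
def memSet (A : FinStr clickLang) (R : memLang.Structure A.carrier) :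
    Set (A.carrier × A.carrier) :=
  {b | isCol A b.1 ∧ isRow A b.2 ∧
    ¬ @Structure.RelMap memLang A.carrier R 2 MemRel.del ![b.1, b.2]}

/-- two-player Clickomania is in PSPACE -/
theorem inPSPACE : InPSPACE Clickomania := by
  obtain ⟨φ, hφ⟩ := memDef.step (α := Empty)
  refine ⟨memLang, memLang_finRel, 2, φ, fun A o => ?_⟩
  have hfin := A.fin
  have hft : Fintype A.carrier := Fintype.ofFinite _
  have hstep : ∀ R R', stepRel φ A o R R' ↔ (memDat ⟨A, o, R, R'⟩).step := fun R R' =>
    hφ ⟨A, o, R, R'⟩ default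
  by_cases hpos : IsPosition A
  · set f : memLang.Structure A.carrier → Set (A.carrier × A.carrier) := memSet A with hf
    have h1 : ∀ R R', stepRel φ A o R R' → (boardOf A).Move (f R) (f R') := by
      intro R R' h
      exact step_sound (d := memDat ⟨A, o, R, R'⟩) (fun a b => Iff.rfl) ((hstep R R').1 h)
    have h2 : ∀ R T, (boardOf A).Move (f R) T → ∃ R', stepRel φ A o R R' ∧ T = f R' := by
      intro R T h
      obtain ⟨del', hgt, cn, ord, h3, h4⟩ := step_complete (memDat ⟨A, o, R, R⟩)
        (fun a b => Iff.rfl) ((posOK_iff ⟨A, o, R, R⟩).2 hpos) h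
      refine ⟨memStr del' hgt cn ord, (hstep _ _).2 h3, h4.symm⟩
    have hempty : f (emptyStr memLang_finRel.1 A.carrier) = grid A := by
      ext b
      exact ⟨fun h => ⟨h.1, h.2.1⟩, fun h => ⟨h.1, h.2, fun h' => h'⟩⟩
    have hbis : ∀ R, Wins (boardOf A).Move (f R) ↔ Wins (stepRel φ A o) R := fun R =>
      wins_bisim f (fun _ => True) (fun a b _ h => ⟨trivial, h1 a b h⟩)
        (fun a b _ h => h2 a b h) R trivial
    have hK : Clickomania A ↔ Wins (stepRel φ A o) (emptyStr memLang_finRel.1 A.carrier) := by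
      rw [← hbis, hempty]
      exact ⟨fun h => h.2, fun h => ⟨hpos, h⟩⟩
    rw [hK]
    refine ⟨fun h => Wins.gwin (fun R => (f R).ncard) (fun R R' h => ?_) h ?_, fun h => GWin.wins h⟩
    · exact Set.ncard_lt_ncard (h1 R R' h).ssubset (Set.toFinite _)
    · refine (Set.ncard_le_ncard (Set.subset_univ _) (Set.toFinite _)).trans ?_
      rw [Set.ncard_univ, Nat.card_prod, pow_two]
  · refine ⟨fun h => absurd h.1 hpos, fun h => ?_⟩
    exfalso
    rcases hk : Nat.card A.carrier ^ 2 with _ | k
    · rw [hk] at h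
      exact h
    · rw [hk] at h
      obtain ⟨R', h3, _⟩ := h
      exact hpos ((posOK_iff _).1 ((hstep _ _).1 h3).1)

end Pool.Agent.H92.Click
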